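import Pool.Agent.T2H56.IC.Stm

namespace Pool.Agent.T2H56.IC

theorem pAB : S_AB := by
  intro hCG hXB hBC hBN hBI hBX hBL m n hm hn a b c ha hc hab hbc
  have hub : ∀ t, t ∈ FS (KB m n) → t ≤ m + n := by
    intro t ht
    by_contra hlt
    push Not at hlt
    obtain ⟨_, _, s, r, p, q, hconf⟩ := hXB m n t hm hn ht
    obtain ⟨s', r', hconf', heq⟩ := hBN m n t s r p q hm hn (by omega) hconf
    obtain ⟨w, hw⟩ : ∃ w : Fin m → Fin n → ℤ, ∀ i j, w i j = if r' j + m ≤ s' i then 1 else 0 :=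
      ⟨_, fun i j => rfl⟩
    obtain ⟨X, hX⟩ : ∃ X : ℤ, X = m * n * (∑ i, ∑ j, w i j) - m * (∑ i, (∑ j, w i j) ^ 2)
      - n * (∑ j, (∑ i, w i j) ^ 2) + (∑ i, ∑ j, w i j) ^ 2 := ⟨_, rfl⟩
    have hineq := hBI m n t s' r' p q hconf' heq w hw X hX
    rcases hBX m n w hm hn (fun i j => by
      rw [hw]; split_ifs <;> simp) X hX with h | h
    · have h3 : (0 : ℤ) < (t : ℤ) - (m + n) := by
        have : ((m + n : ℕ) : ℤ) < t := by exact_mod_cast hlt
        push_cast at this
        linarith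
      have := mul_pos h3 h
      linarith
    · have h4 := hBL m n t s' r' p q w hm hn (by omega) hconf' (fun i j => by
        rw [heq i j, hw]
        split_ifs <;> simp) h
      omega
  obtain ⟨h1, h2, _⟩ := hXB m n a hm hn ha
  have h3 := hub c hc
  exact hBC hCG m n b hm hn (by omega) (by omega) (by omega)

end Pool.Agent.T2H56.IC
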