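import Pool.Agent.T2H56.IC.Stm

namespace Pool.Agent.T2H56.IC

namespace AK

theorem two (t : ℕ) (ht : t ∈ FS (KG 2)) : t = 1 := by
  obtain ⟨h1, c, hc⟩ := ht
  haveI : NeZero t := ⟨by omega⟩
  have hall : ∀ x : ZMod t, x = c s(0, 1) := by
    intro x
    obtain ⟨e, he, hx⟩ := hc.surj x
    rw [← hx]
    congr 1
    induction e using Sym2.ind with
    | _ u v =>
      have huv : u ≠ v := by
        have : (KG 2).Adj u v := he
        exact this.ne
      fin_cases u <;> fin_cases v
      · exact absurd rfl huv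
      · rfl
      · exact Sym2.eq_swap
      · exact absurd rfl huv
  have hcard : Fintype.card (ZMod t) ≤ 1 := by
    rw [Fintype.card_le_one_iff]
    intro a b
    rw [hall a, hall b]
  rw [ZMod.card] at hcard
  omega

end AK

theorem pAK : S_AK := by
  intro hCG hTR hF1 hF2 hF3 hCE hCD hCH hCN hC8 hU n hn a b c ha hc hab hbc
  rcases Nat.lt_or_ge n 2 with h2 | h2
  · have : n = 1 := by omega
    subst this
    have h3 := AK.two a ha
    have h4 := AK.two c hc
    omega
  obtain ⟨ha1, _, _⟩ := hU (2 * n) a (by omega) ha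
  obtain ⟨_, hc1, hc2⟩ := hU (2 * n) c (by omega) hc
  by_cases h3 : 3 ∣ 2 * n
  · obtain ⟨q, hq⟩ := h3
    have hqe : Even q := by
      rcases Nat.even_or_odd q with h | h
      · exact h
      · exfalso
        obtain ⟨k, hk⟩ := h
        omega
    rw [hq]
    exact hCE hCG hTR hF1 q b (by omega) hqe (by omega) (by omega)
  · have hc3 : c + 3 ≠ 2 * (2 * n) := fun h => h3 (hc2 h)
    by_cases hn2 : n = 2
    · omega
    by_cases hb1 : b = 2 * n
    · rw [hb1]
      exact (hCN hCG hF1 (2 * n) (by omega) (even_two_mul n)).1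
    by_cases hb2 : b = 2 * n + 1
    · rw [hb2]
      exact (hCN hCG hF1 (2 * n) (by omega) (even_two_mul n)).2
    by_cases hn4 : n = 4
    · subst hn4
      have : b = 10 ∨ b = 11 := by omega
      rcases this with h | h
      · subst h; exact (hC8 hCG).1
      · subst h; exact (hC8 hCG).2
    have hmod : (2 * n) % 3 = 1 ∨ (2 * n) % 3 = 2 := by omega
    rcases hmod with hm | hm
    · obtain ⟨q, hq⟩ : ∃ q, 2 * n = 3 * q - 2 ∧ 2 ≤ q := ⟨(2 * n + 2) / 3, by omega, by omega⟩
      have hqe : Even q := by
        rcases Nat.even_or_odd q with h | h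
        · exact h
        · exfalso
          obtain ⟨k, hk⟩ := h
          omega
      rw [hq.1]
      exact hCD hCG hTR hF1 hF2 q b (by
        obtain ⟨k, hk⟩ := hqe
        omega) hqe (by omega) (by omega)
    · obtain ⟨q, hq⟩ : ∃ q, 2 * n = 3 * q - 4 ∧ 4 ≤ q := ⟨(2 * n + 4) / 3, by omega, by omega⟩
      have hqe : Even q := by
        rcases Nat.even_or_odd q with h | h
        · exact h
        · exfalso
          obtain ⟨k, hk⟩ := h
          omega
      rw [hq.1]
      exact hCH hCG hTR hF1 hF3 q b (by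
        obtain ⟨k, hk⟩ := hqe
        omega) hqe (by omega) (by omega)

end Pool.Agent.T2H56.IC
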