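import Pool.Agent.T2H56.IC.Stm

namespace Pool.Agent.T2H56.IC

theorem pAQ : S_AQ := by
  intro hCG hXQ hQE hQL hQC hQT hQ37 hQ411 n hn a b c ha hc hab hbc
  obtain ⟨hna, _⟩ := hXQ n a hn ha
  obtain ⟨hnc, s, p, hconf⟩ := hXQ n c hn hc
  by_cases h : 4 * (n - 1) < c
  · obtain ⟨s', hconf', hex⟩ := hQL hQE n c s p hn h hconf
    exact hQC hCG n c b s' p hn hconf' hex (by omega) (by omega) (by omega)
  · push Not at h
    by_cases hb : b ≤ n * (n + 1) / 2
    · obtain ⟨s', p', hconf', hex⟩ := hQT n hn
      refine hQC hCG n _ b s' p' hn hconf' hex (by omega) hb ?_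
      have : 1 * 2 ≤ n * (n + 1) := Nat.mul_le_mul hn (by omega)
      omega
    · push Not at hb
      have hb2 : b < 4 * (n - 1) := by omega
      have hn4 : n ≤ 5 := by
        by_contra hn6
        push Not at hn6
        have h8 : 6 * (n + 1) ≤ n * (n + 1) := Nat.mul_le_mul hn6 le_rfl
        have h7 : 8 * (n - 1) ≤ n * (n + 1) := by
          obtain ⟨k, rfl⟩ : ∃ k, n = k + 6 := ⟨n - 6, by omega⟩
          have : k + 6 - 1 = k + 5 := by omega
          rw [this]
          nlinarith
        omega
      interval_cases n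
      · omega
      · omega
      · have : b = 7 := by omega
        subst this
        exact hQ37 hCG
      · have : b = 11 := by omega
        subst this
        exact hQ411 hCG
      · omega

end Pool.Agent.T2H56.IC
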