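import Pool.Agent.T2H56.IC.Stm

namespace Pool.Agent.T2H56.IC

theorem pAU : S_AU := by
  intro hXK hKT hKS hKE hKR hKM hKC hKL hKU hKN hKP hKG hK3 hKF N t hN ht
  obtain ⟨h1, s, p, hconf⟩ := hXK N t (by omega) ht
  refine ⟨h1, ?_, ?_⟩
  · by_contra hlt
    push Not at hlt
    have := (hKU hKT hKS hKE hKR hKM hKC hKL N t s p hN (by omega) hconf).1
    omega
  · intro h3
    obtain ⟨s', hconf', hnt⟩ := hKN hKT hKM N t s p hN h3 hconf
    obtain ⟨hk, hos⟩ := hKT N t s' p hN (by omega) hconf'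
    obtain ⟨_, hsorted, hlam⟩ := hKU hKT hKS hKE hKR hKM hKC hKL N t s' p hN (by omega) hconf'
    obtain ⟨C1, C2, C3, n1, n2, n3, d12, d13, d23, hU, k1, k2, k3, k13⟩ :=
      hK3 hKM hKS hKP hKG N t s' p hN h3 hconf' hk hos hnt hsorted hlam
    exact hKF N t s' p hN h3 hconf' hk hsorted C1 C2 C3 n1 n2 n3 d12 d13 d23 hU k1 k2 k3 k13

end Pool.Agent.T2H56.IC
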