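import Pool.Agent.T2H56.IC.Stm

/-!
# Package BC: the colourings `i + j` of complete bipartite graphs
-/

set_option autoImplicit false

namespace Pool.Agent.T2H56.IC

namespace BC

/-- the colour function -/
def col (m n : ℕ) : Fin m ⊕ Fin n → Fin m ⊕ Fin n → ℤ
  | Sum.inl i, Sum.inr j => (i : ℤ) + (j : ℤ)
  | Sum.inr j, Sum.inl i => (i : ℤ) + (j : ℤ)
  | _, _ => 0

/-- the starts -/
def st (m n : ℕ) : Fin m ⊕ Fin n → ℤ
  | Sum.inl i => (i : ℤ)
  | Sum.inr j => (j : ℤ)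

/-- the degrees -/
def dg (m n : ℕ) : Fin m ⊕ Fin n → ℕ
  | Sum.inl _ => n
  | Sum.inr _ => m

lemma adj_lr {m n : ℕ} (i : Fin m) (j : Fin n) : (KB m n).Adj (Sum.inl i) (Sum.inr j) := by
  simp

lemma adj_rl {m n : ℕ} (i : Fin m) (j : Fin n) : (KB m n).Adj (Sum.inr j) (Sum.inl i) := by
  simp

lemma not_ll {m n : ℕ} (i i' : Fin m) : ¬ (KB m n).Adj (Sum.inl i) (Sum.inl i') := by
  simp

lemma not_rr {m n : ℕ} (j j' : Fin n) : ¬ (KB m n).Adj (Sum.inr j) (Sum.inr j') := by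
  simp

lemma eq_of_dvd {t a b N : ℕ} (ha : a < N) (hb : b < N) (hN : N ≤ t) (x : ℤ)
    (h : (t : ℤ) ∣ (x + a) - (x + b)) : a = b := by
  have h1 : |((a : ℤ) - b)| < t := by
    rw [abs_lt]; constructor <;> omega
  have h2 : (x + (a : ℤ)) - (x + b) = (a : ℤ) - b := by ring
  rw [h2] at h
  have := Int.eq_zero_of_abs_lt_dvd h h1
  omega

end BC

open BC in
theorem pBC : S_BC := by
  intro hCG m n t hm hn hmt hnt ht
  refine hCG (Fin m ⊕ Fin n) (KB m n) t (col m n) (st m n) (dg m n) (by omega) ?_ ?_ ?_ ?_ ?_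
  · rintro (i | j) (i' | j') h
    · exact absurd h (not_ll i i')
    · show (t : ℤ) ∣ ((i : ℤ) + (j' : ℤ)) - ((i : ℤ) + (j' : ℤ))
      rw [sub_self]; exact dvd_zero _
    · show (t : ℤ) ∣ ((i' : ℤ) + (j : ℤ)) - ((i' : ℤ) + (j : ℤ))
      rw [sub_self]; exact dvd_zero _
    · exact absurd h (not_rr j j')
  · rintro (i | j)
    · have h1 : (KB m n).neighborSet (Sum.inl i) = Set.range (Sum.inr : Fin n → Fin m ⊕ Fin n) := by
        ext x
        rcases x with i' | j'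
        · simp
        · simp
      rw [h1, Nat.card_congr (Equiv.ofInjective _ Sum.inr_injective).symm]
      simp [dg]
    · have h1 : (KB m n).neighborSet (Sum.inr j) = Set.range (Sum.inl : Fin m → Fin m ⊕ Fin n) := by
        ext x
        rcases x with i' | j'
        · simp
        · simp
      rw [h1, Nat.card_congr (Equiv.ofInjective _ Sum.inl_injective).symm]
      simp [dg]
  · rintro (i | j) (i' | j') h
    · exact absurd h (not_ll i i')
    · refine ⟨(j' : ℤ), by omega, ?_, ?_⟩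
      · show ((j' : ℕ) : ℤ) < (n : ℤ)
        exact_mod_cast j'.2
      · show (t : ℤ) ∣ ((i : ℤ) + (j' : ℤ)) - ((i : ℤ) + (j' : ℤ))
        rw [sub_self]; exact dvd_zero _
    · refine ⟨(i' : ℤ), by omega, ?_, ?_⟩
      · show ((i' : ℕ) : ℤ) < (m : ℤ)
        exact_mod_cast i'.2
      · show (t : ℤ) ∣ ((i' : ℤ) + (j : ℤ)) - ((j : ℤ) + (i' : ℤ))
        rw [add_comm, sub_self]; exact dvd_zero _
    · exact absurd h (not_rr j j')
  · rintro (i | j) (i1 | j1) (i2 | j2) h1 h2 h3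
    · exact absurd h1 (not_ll i i1)
    · exact absurd h1 (not_ll i i1)
    · exact absurd h2 (not_ll i i2)
    · have := eq_of_dvd j1.2 j2.2 hnt (i : ℤ) h3
      rw [Fin.ext this]
    · have h4 : (t : ℤ) ∣ ((j : ℤ) + (i1 : ℤ)) - ((j : ℤ) + (i2 : ℤ)) := by
        have e : col m n (Sum.inr j) (Sum.inl i1) - col m n (Sum.inr j) (Sum.inl i2) =
          ((j : ℤ) + (i1 : ℤ)) - ((j : ℤ) + (i2 : ℤ)) := by
          show ((i1 : ℤ) + (j : ℤ)) - ((i2 : ℤ) + (j : ℤ)) = _
          ring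
        rwa [e] at h3
      have := eq_of_dvd i1.2 i2.2 hmt (j : ℤ) h4
      rw [Fin.ext this]
    · exact absurd h2 (not_rr j j2)
    · exact absurd h1 (not_rr j j1)
    · exact absurd h1 (not_rr j j1)
  · intro x
    have ht0 : (0 : ℤ) < t := by omega
    have h0 := Int.emod_nonneg x ht0.ne'
    have h1 := Int.emod_lt_of_pos x ht0
    obtain ⟨y, hy⟩ := Int.eq_ofNat_of_zero_le h0
    have hyt : y < t := by omega
    have hi : min y (m - 1) < m := by omega
    have hj : y - min y (m - 1) < n := by omega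
    refine ⟨Sum.inl ⟨min y (m - 1), hi⟩, Sum.inr ⟨y - min y (m - 1), hj⟩, adj_lr _ _, ?_⟩
    show (t : ℤ) ∣ (((min y (m - 1) : ℕ) : ℤ) + ((y - min y (m - 1) : ℕ) : ℤ)) - x
    have e : (((min y (m - 1) : ℕ) : ℤ) + ((y - min y (m - 1) : ℕ) : ℤ)) = (y : ℤ) := by
      have : min y (m - 1) + (y - min y (m - 1)) = y := by omega
      exact_mod_cast this
    have hy' : x % t = (y : ℤ) := hy
    rw [e, ← hy']
    refine ⟨-(x / t), ?_⟩
    have := Int.emod_add_mul_ediv x t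
    linarith

end Pool.Agent.T2H56.IC
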