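import Pool.Agent.T2H56.IC.Stm

/-! # Package BI (helper74): the inequality for complete bipartite graphs -/

set_option autoImplicit false

namespace Pool.Agent.T2H56.IC

open Finset

namespace BI

/-- ranks of an injective function with values in `[0, n)` -/
theorem img {n : ℕ} {p : Fin n → ℤ} (h0 : ∀ j, 0 ≤ p j) (hn : ∀ j, p j < n)
    (hinj : ∀ j j', p j = p j' → j = j') : univ.image p = Ico (0 : ℤ) n := by
  apply Finset.eq_of_subset_of_card_le
  · intro x hx
    rw [mem_image] at hx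
    obtain ⟨j, -, rfl⟩ := hx
    rw [mem_Ico]
    exact ⟨h0 j, hn j⟩
  · rw [Int.card_Ico, card_image_of_injective _ (fun a b h => hinj a b h), card_univ,
      Fintype.card_fin]
    simp

theorem sum_p {n : ℕ} {p : Fin n → ℤ} (h0 : ∀ j, 0 ≤ p j) (hn : ∀ j, p j < n)
    (hinj : ∀ j j', p j = p j' → j = j') : ∑ j, p j = ∑ x ∈ Ico (0 : ℤ) n, x := by
  rw [← img h0 hn hinj, sum_image (fun a _ b _ h => hinj a b h)]

theorem rank {n : ℕ} {p : Fin n → ℤ} (h0 : ∀ j, 0 ≤ p j) (hn : ∀ j, p j < n)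
    (hinj : ∀ j j', p j = p j' → j = j') (j : Fin n) :
    p j = ∑ j', if p j' < p j then (1 : ℤ) else 0 := by
  have h1 : (univ.filter fun j' => p j' < p j).image p = Ico (0 : ℤ) (p j) := by
    ext x
    rw [mem_image, mem_Ico]
    constructor
    · rintro ⟨a, ha, rfl⟩
      rw [mem_filter] at ha
      exact ⟨h0 a, ha.2⟩
    · rintro ⟨hx0, hx1⟩
      have : x ∈ univ.image p := by
        rw [img h0 hn hinj, mem_Ico]
        exact ⟨hx0, hx1.trans (hn j)⟩
      rw [mem_image] at this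
      obtain ⟨a, -, rfl⟩ := this
      exact ⟨a, by rw [mem_filter]; exact ⟨mem_univ _, hx1⟩, rfl⟩
  have h2 : (univ.filter fun j' => p j' < p j).card = (p j).toNat := by
    rw [← card_image_of_injective _ (fun a b h => hinj a b h : Function.Injective p), h1,
      Int.card_Ico]
    simp
  rw [Finset.sum_boole]
  have h3 : (((univ.filter fun j' => p j' < p j).card : ℕ) : ℤ) = p j := by
    rw [h2]
    exact Int.toNat_of_nonneg (h0 j)
  exact_mod_cast h3.symm

/-- the rearrangement bound -/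
theorem rearr {n : ℕ} {p : Fin n → ℤ} (h0 : ∀ j, 0 ≤ p j) (hn : ∀ j, p j < n)
    (hinj : ∀ j j', p j = p j' → j = j') (v : Fin n → ℤ) :
    2 * ∑ j, v j * p j ≤ ∑ j, ∑ j', if j = j' then 0 else max (v j) (v j') := by
  have h1 : ∑ j, v j * p j = ∑ j, ∑ j', if p j' < p j then v j else 0 := by
    refine sum_congr rfl fun j _ => ?_
    conv_lhs => rw [rank h0 hn hinj j]
    rw [mul_sum]
    refine sum_congr rfl fun j' _ => ?_
    split_ifs <;> simp
  have h2 : ∑ j, v j * p j = ∑ j, ∑ j', if p j < p j' then v j' else 0 := by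
    rw [h1, sum_comm]
  rw [two_mul]
  nth_rewrite 1 [h1]
  rw [h2, ← sum_add_distrib]
  refine sum_le_sum fun j _ => ?_
  rw [← sum_add_distrib]
  refine sum_le_sum fun j' _ => ?_
  by_cases h : j = j'
  · subst h; simp
  · rw [if_neg h]
    have hne : p j ≠ p j' := fun h' => h (hinj _ _ h')
    rcases lt_or_gt_of_ne hne with hlt | hgt
    · rw [if_neg (by omega), if_pos hlt, zero_add]
      exact le_max_right _ _
    · rw [if_pos hgt, if_neg (by omega), add_zero]
      exact le_max_left _ _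

/-- nested columns: sum of the maxima -/
theorem col_max {m : ℕ} (u v : Fin m → ℤ) (hu : ∀ i, u i = 0 ∨ u i = 1)
    (hv : ∀ i, v i = 0 ∨ v i = 1) (hn : (∀ i, v i ≤ u i) ∨ (∀ i, u i ≤ v i)) :
    ∑ i, max (m * u i - ∑ i, u i) (m * v i - ∑ i, v i) =
      m * (∑ i, (u i + v i - 2 * (u i * v i))) - ((∑ i, u i) - ∑ i, v i) ^ 2 := by
  have bd : ∀ u : Fin m → ℤ, (∀ i, u i = 0 ∨ u i = 1) → 0 ≤ ∑ i, u i ∧ ∑ i, u i ≤ m := by
    intro u hu
    constructor
    · exact sum_nonneg fun i _ => by rcases hu i with h | h <;> rw [h] <;> norm_num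
    · calc ∑ i, u i ≤ ∑ _i : Fin m, (1 : ℤ) :=
            sum_le_sum fun i _ => by rcases hu i with h | h <;> rw [h] <;> norm_num
        _ = m := by simp
  have main : ∀ u v : Fin m → ℤ, (∀ i, u i = 0 ∨ u i = 1) → (∀ i, v i = 0 ∨ v i = 1) →
      (∀ i, v i ≤ u i) → ∑ i, max (m * u i - ∑ i, u i) (m * v i - ∑ i, v i) =
      m * (∑ i, (u i + v i - 2 * (u i * v i))) - ((∑ i, u i) - ∑ i, v i) ^ 2 := by
    intro u v hu hv h
    obtain ⟨a0, am⟩ := bd u hu
    obtain ⟨b0, bm⟩ := bd v hv
    have hab : ∑ i, v i ≤ ∑ i, u i := sum_le_sum fun i _ => h i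
    set a := ∑ i, u i with ha
    set b := ∑ i, v i with hb
    have hp : ∀ i, max (m * u i - a) (m * v i - b) =
        v i * (m - b) + (u i - v i) * (m - a) - (1 - u i) * b := by
      intro i
      have hi := h i
      rcases hu i with h1 | h1 <;> rcases hv i with h2 | h2 <;> rw [h1, h2] at hi ⊢
      · rw [max_eq_right (by linarith)]
        ring
      · omega
      · rw [max_eq_left (by linarith)]
        ring
      · rw [max_eq_right (by linarith)]
        ring
    have hq : ∀ i, u i + v i - 2 * (u i * v i) = u i - v i := by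
      intro i
      have hi := h i
      rcases hu i with h1 | h1 <;> rcases hv i with h2 | h2 <;> rw [h1, h2] at hi ⊢
      · norm_num
      · omega
      · norm_num
      · norm_num
    rw [sum_congr rfl fun i _ => hp i, sum_congr rfl fun i _ => hq i, sum_sub_distrib,
      sum_sub_distrib, sum_add_distrib, ← sum_mul, ← sum_mul, ← sum_mul, sum_sub_distrib,
      sum_sub_distrib, ← ha, ← hb]
    simp
    ring
  rcases hn with h | h
  · exact main u v hu hv h
  · have := main v u hv hu h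
    calc ∑ i, max (m * u i - ∑ i, u i) (m * v i - ∑ i, v i)
        = ∑ i, max (m * v i - ∑ i, v i) (m * u i - ∑ i, u i) :=
          sum_congr rfl fun i _ => max_comm _ _
      _ = _ := this
      _ = m * (∑ i, (u i + v i - 2 * (u i * v i))) - ((∑ i, u i) - ∑ i, v i) ^ 2 := by
          congr 1
          · congr 1
            exact sum_congr rfl fun i _ => by ring
          · ring

/-- one half of the inequality -/
theorem half {m n : ℕ} (w : Fin m → Fin n → ℤ) (hw : ∀ i j, w i j = 0 ∨ w i j = 1)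
    (hnest : ∀ j j', (∀ i, w i j' ≤ w i j) ∨ (∀ i, w i j ≤ w i j'))
    (p : Fin m → Fin n → ℤ) (h0 : ∀ i j, 0 ≤ p i j) (hn : ∀ i j, p i j < n)
    (hinj : ∀ i j j', p i j = p i j' → j = j') :
    2 * ∑ i, ∑ j, (m * w i j - ∑ i, w i j) * p i j ≤
      m * (2 * n * (∑ i, ∑ j, w i j) - 2 * ∑ i, (∑ j, w i j) ^ 2) -
        (2 * n * (∑ j, (∑ i, w i j) ^ 2) - 2 * (∑ i, ∑ j, w i j) ^ 2) := by
  have h1 : 2 * ∑ i, ∑ j, (m * w i j - ∑ i, w i j) * p i j ≤
      ∑ i, ∑ j, ∑ j', if j = j' then 0 else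
        max (m * w i j - ∑ i, w i j) (m * w i j' - ∑ i, w i j') := by
    rw [mul_sum]
    exact sum_le_sum fun i _ => rearr (h0 i) (hn i) (hinj i) _
  refine h1.trans (le_of_eq ?_)
  have h2 : ∑ i, ∑ j, ∑ j', (if j = j' then 0 else
      max (m * w i j - ∑ i, w i j) (m * w i j' - ∑ i, w i j')) =
      ∑ j, ∑ j', (m * (∑ i, (w i j + w i j' - 2 * (w i j * w i j'))) -
        ((∑ i, w i j) - ∑ i, w i j') ^ 2) := by
    rw [sum_comm]
    refine sum_congr rfl fun j _ => ?_
    rw [sum_comm]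
    refine sum_congr rfl fun j' _ => ?_
    by_cases h : j = j'
    · subst h
      simp only [if_true, sum_const_zero]
      have : ∀ i, w i j + w i j - 2 * (w i j * w i j) = 0 := fun i => by
        rcases hw i j with h | h <;> rw [h] <;> norm_num
      rw [sum_congr rfl fun i _ => this i]
      simp
    · simp only [if_neg h]
      exact col_max (fun i => w i j) (fun i => w i j') (fun i => hw i j) (fun i => hw i j')
        (hnest j j')
  rw [h2]
  have h3 : ∑ j : Fin n, ∑ j' : Fin n, ∑ i, (w i j + w i j' - 2 * (w i j * w i j')) =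
      2 * n * (∑ i, ∑ j, w i j) - 2 * ∑ i, (∑ j, w i j) ^ 2 := by
    have e1 : ∀ j : Fin n, ∑ j' : Fin n, ∑ i, (w i j + w i j' - 2 * (w i j * w i j')) =
        ∑ i, ∑ j' : Fin n, (w i j + w i j' - 2 * (w i j * w i j')) := fun j => sum_comm
    rw [sum_congr rfl fun j _ => e1 j, sum_comm]
    have e2 : ∀ i, ∑ j : Fin n, ∑ j' : Fin n, (w i j + w i j' - 2 * (w i j * w i j')) =
        2 * n * (∑ j, w i j) - 2 * (∑ j, w i j) ^ 2 := by
      intro i
      have e3 : ∀ j : Fin n, ∑ j' : Fin n, (w i j + w i j' - 2 * (w i j * w i j')) =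
          n * w i j + (∑ j', w i j') - 2 * (w i j * ∑ j', w i j') := by
        intro j
        rw [sum_sub_distrib, sum_add_distrib, ← mul_sum, ← mul_sum]
        simp
      rw [sum_congr rfl fun j _ => e3 j, sum_sub_distrib, sum_add_distrib, ← mul_sum, ← mul_sum,
        ← sum_mul]
      simp
      ring
    rw [sum_congr rfl fun i _ => e2 i, sum_sub_distrib, ← mul_sum, ← mul_sum]
  have h4 : ∑ j : Fin n, ∑ j' : Fin n, ((∑ i, w i j) - ∑ i, w i j') ^ 2 =
      2 * n * (∑ j, (∑ i, w i j) ^ 2) - 2 * (∑ i, ∑ j, w i j) ^ 2 := by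
    have e0 : ∑ i, ∑ j, w i j = ∑ j, ∑ i, w i j := sum_comm
    rw [e0]
    set h : Fin n → ℤ := fun j => ∑ i, w i j with hh
    have e1 : ∀ j : Fin n, ∑ j' : Fin n, (h j - h j') ^ 2 =
        n * h j ^ 2 + (∑ j', h j' ^ 2) - 2 * (h j * ∑ j', h j') := by
      intro j
      have : ∀ j', (h j - h j') ^ 2 = h j ^ 2 + h j' ^ 2 - 2 * (h j * h j') := fun j' => by ring
      rw [sum_congr rfl fun j' _ => this j', sum_sub_distrib, sum_add_distrib, ← mul_sum, ← mul_sum]
      simp
    rw [sum_congr rfl fun j _ => e1 j, sum_sub_distrib, sum_add_distrib, ← mul_sum, ← mul_sum,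
      ← sum_mul]
    simp
    ring
  rw [← h3, ← h4, mul_sum, ← sum_sub_distrib]
  refine sum_congr rfl fun j _ => ?_
  rw [mul_sum, ← sum_sub_distrib]

end BI

open BI in
theorem pBI : S_BI := by
  intro m n t s r p q C hD w hw X hX
  have hw01 : ∀ i j, w i j = 0 ∨ w i j = 1 := by
    intro i j
    rw [hw i j]
    split_ifs
    · exact Or.inr rfl
    · exact Or.inl rfl
  have hww : ∀ i j, w i j * w i j = w i j := by
    intro i j
    rcases hw01 i j with h | h <;> rw [h] <;> norm_num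
  have hDw : ∀ i j, t * w i j = s i + p i j - r j - q i j := by
    intro i j
    have := hD i j
    rw [hw i j]
    split_ifs at this ⊢ <;> linarith
  have hnest1 : ∀ j j', (∀ i, w i j' ≤ w i j) ∨ (∀ i, w i j ≤ w i j') := by
    intro j j'
    rcases le_total (r j) (r j') with h | h
    · left; intro i; rw [hw, hw]; split_ifs <;> omega
    · right; intro i; rw [hw, hw]; split_ifs <;> omega
  have hnest2 : ∀ i i', (∀ j, w i' j ≤ w i j) ∨ (∀ j, w i j ≤ w i' j) := by
    intro i i'
    rcases le_total (s i') (s i) with h | h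
    · left; intro j; rw [hw, hw]; split_ifs <;> omega
    · right; intro j; rw [hw, hw]; split_ifs <;> omega
  have A1 := half w hw01 hnest1 p C.p0 C.pn C.pinj
  -- the transposed half, for `1 - w`
  have A2 := half (fun j i => 1 - w i j) (fun j i => by
      rcases hw01 i j with h | h <;> rw [h] <;> norm_num)
    (fun i i' => (hnest2 i i').symm.imp (fun h j => by linarith [h j]) (fun h j => by linarith [h j]))
    (fun j i => q i j) (fun j i => C.q0 i j) (fun j i => C.qm i j)
    (fun j i i' h => C.qinj i i' j h)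
  obtain ⟨g, hg⟩ : ∃ g : Fin m → ℤ, ∀ i, ∑ j, w i j = g i := ⟨_, fun i => rfl⟩
  obtain ⟨h, hh⟩ : ∃ h : Fin n → ℤ, ∀ j, ∑ i, w i j = h j := ⟨_, fun j => rfl⟩
  obtain ⟨H, hH⟩ : ∃ H : ℤ, ∑ i, ∑ j, w i j = H := ⟨_, rfl⟩
  have hgH : ∑ i, g i = H := by rw [← hH]; exact sum_congr rfl fun i _ => (hg i).symm
  have hhH : ∑ j, h j = H := by
    rw [← hH, sum_comm]; exact sum_congr rfl fun j _ => (hh j).symm
  simp only [hg, hh, hgH] at A1 hX
  have z1 : ∀ j, ∑ i, (1 - w i j) = m - h j := fun j => by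
    rw [sum_sub_distrib, hh]; simp
  have z2 : ∀ i, ∑ j, (1 - w i j) = n - g i := fun i => by
    rw [sum_sub_distrib, hg]; simp
  simp only [z1, z2] at A2
  have z3 : ∑ j : Fin n, ((m : ℤ) - h j) = m * n - H := by
    rw [sum_sub_distrib, hhH]; simp; ring
  have z4 : ∑ j : Fin n, ((m : ℤ) - h j) ^ 2 = n * m ^ 2 - 2 * m * H + ∑ j, h j ^ 2 := by
    have : ∀ j, ((m : ℤ) - h j) ^ 2 = m ^ 2 - 2 * m * h j + h j ^ 2 := fun j => by ring
    rw [sum_congr rfl fun j _ => this j, sum_add_distrib, sum_sub_distrib, ← mul_sum, hhH]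
    simp
  have z5 : ∑ i : Fin m, ((n : ℤ) - g i) ^ 2 = m * n ^ 2 - 2 * n * H + ∑ i, g i ^ 2 := by
    have : ∀ i, ((n : ℤ) - g i) ^ 2 = n ^ 2 - 2 * n * g i + g i ^ 2 := fun i => by ring
    rw [sum_congr rfl fun i _ => this i, sum_add_distrib, sum_sub_distrib, ← mul_sum, hgH]
    simp
  rw [z3, z4, z5] at A2
  have z6 : ∑ j, ∑ i, ((n : ℤ) * (1 - w i j) - (n - g i)) * q i j =
      ∑ i, ∑ j, (g i - n * w i j) * q i j := by
    rw [sum_comm]
    exact sum_congr rfl fun i _ => sum_congr rfl fun j _ => by ring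
  rw [z6] at A2
  obtain ⟨T1, hT1⟩ : ∃ T : ℤ, ∑ i, ∑ j, (m * w i j - h j) * p i j = T := ⟨_, rfl⟩
  obtain ⟨T2, hT2⟩ : ∃ T : ℤ, ∑ i, ∑ j, (g i - n * w i j) * q i j = T := ⟨_, rfl⟩
  rw [hT1] at A1
  rw [hT2] at A2
  -- the identity
  have hcp : ∀ i, ∑ j, p i j = ∑ x ∈ Ico (0 : ℤ) n, x :=
    fun i => sum_p (C.p0 i) (C.pn i) (C.pinj i)
  have hcq : ∀ j, ∑ i, q i j = ∑ x ∈ Ico (0 : ℤ) m, x :=
    fun j => sum_p (fun i => C.q0 i j) (fun i => C.qm i j) (fun i i' => C.qinj i i' j)
  have row : ∀ i, ∑ j, (m * n * w i j - m * g i - n * h j + H) = 0 := by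
    intro i
    simp only [sum_add_distrib, sum_sub_distrib, ← mul_sum, hg, hhH, sum_const, card_univ,
      Fintype.card_fin, nsmul_eq_mul]
    ring
  have col : ∀ j, ∑ i, (m * n * w i j - m * g i - n * h j + H) = 0 := by
    intro j
    simp only [sum_add_distrib, sum_sub_distrib, ← mul_sum, hh, hgH, sum_const, card_univ,
      Fintype.card_fin, nsmul_eq_mul]
    ring
  have I1 : ∑ i, ∑ j, (m * n * w i j - m * g i - n * h j + H) * (t * w i j) = t * X := by
    have e : ∀ i j, (m * n * w i j - m * g i - n * h j + H) * (t * w i j) =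
        t * ((m * n + H) * w i j - m * (g i * w i j) - n * (h j * w i j)) := by
      intro i j
      linear_combination (t * m * n : ℤ) * hww i j
    rw [sum_congr rfl fun i _ => sum_congr rfl fun j _ => e i j]
    simp only [← mul_sum]
    congr 1
    have e2 : ∀ i, ∑ j, ((m * n + H) * w i j - m * (g i * w i j) - n * (h j * w i j)) =
        (m * n + H) * g i - m * (g i ^ 2) - n * ∑ j, h j * w i j := by
      intro i
      rw [sum_sub_distrib, sum_sub_distrib, ← mul_sum, ← mul_sum, ← mul_sum, ← mul_sum, hg]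
      ring
    rw [sum_congr rfl fun i _ => e2 i, sum_sub_distrib, sum_sub_distrib, ← mul_sum, ← mul_sum,
      ← mul_sum, hgH]
    have e3 : ∑ i, ∑ j, h j * w i j = ∑ j, h j ^ 2 := by
      rw [sum_comm]
      refine sum_congr rfl fun j _ => ?_
      rw [← mul_sum, hh]
      ring
    rw [e3, hX]
    ring
  have I2 : ∑ i, ∑ j, (m * n * w i j - m * g i - n * h j + H) * (t * w i j) =
      n * T1 + m * T2 := by
    have e : ∀ i j, (m * n * w i j - m * g i - n * h j + H) * (t * w i j) =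
        (m * n * w i j - m * g i - n * h j + H) * s i -
        (m * n * w i j - m * g i - n * h j + H) * r j +
        n * ((m * w i j - h j) * p i j) + m * ((g i - n * w i j) * q i j) +
        (H - m * g i) * p i j - (H - n * h j) * q i j := by
      intro i j
      rw [hDw i j]
      ring
    rw [sum_congr rfl fun i _ => sum_congr rfl fun j _ => e i j]
    simp only [sum_sub_distrib, sum_add_distrib]
    have f1 : ∑ i, ∑ j, (m * n * w i j - m * g i - n * h j + H) * s i = 0 := by
      refine sum_eq_zero fun i _ => ?_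
      rw [← sum_mul, row i, zero_mul]
    have f2 : ∑ i, ∑ j, (m * n * w i j - m * g i - n * h j + H) * r j = 0 := by
      rw [sum_comm]
      refine sum_eq_zero fun j _ => ?_
      rw [← sum_mul, col j, zero_mul]
    have f3 : ∑ i, ∑ j, n * ((m * w i j - h j) * p i j) = n * T1 := by
      rw [← hT1]
      simp only [mul_sum]
    have f4 : ∑ i, ∑ j, m * ((g i - n * w i j) * q i j) = m * T2 := by
      rw [← hT2]
      simp only [mul_sum]
    have f5 : ∑ i, ∑ j, (H - m * g i) * p i j = 0 := by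
      have : ∀ i, ∑ j, (H - m * g i) * p i j = (H - m * g i) * ∑ x ∈ Ico (0 : ℤ) n, x := by
        intro i
        rw [← mul_sum, hcp i]
      rw [sum_congr rfl fun i _ => this i, ← sum_mul, sum_sub_distrib, ← mul_sum, hgH]
      simp
    have f6 : ∑ i, ∑ j, (H - n * h j) * q i j = 0 := by
      rw [sum_comm]
      have : ∀ j, ∑ i, (H - n * h j) * q i j = (H - n * h j) * ∑ x ∈ Ico (0 : ℤ) m, x := by
        intro j
        rw [← mul_sum, hcq j]
      rw [sum_congr rfl fun j _ => this j, ← sum_mul, sum_sub_distrib, ← mul_sum, hhH]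
      simp
    rw [f1, f2, f3, f4, f5, f6]
    ring
  have I : (t : ℤ) * X = n * T1 + m * T2 := I1.symm.trans I2
  have hm : (0 : ℤ) ≤ m := by positivity
  have hn : (0 : ℤ) ≤ n := by positivity
  have B1 := mul_le_mul_of_nonneg_left A1 hn
  have B2 := mul_le_mul_of_nonneg_left A2 hm
  have : 2 * ((t : ℤ) * X) ≤ 2 * ((m + n) * X) := by
    rw [I]
    nlinarith [B1, B2, hX]
  linarith

end Pool.Agent.T2H56.IC
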