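import Pool.Agent.T2H56.IC.Stm

/-! # IC, package BL (helper21) -/

set_option autoImplicit false

namespace Pool.Agent.T2H56.IC

open Finset

theorem pBL : S_BL := by
  intro m n t s r p q w hm hn ht hC hpq hw
  have : Nonempty (Fin m) := ⟨⟨0, hm⟩⟩
  have : Nonempty (Fin n) := ⟨⟨0, hn⟩⟩
  obtain ⟨j0, -⟩ : ∃ j : Fin n, True := ⟨⟨0, hn⟩, trivial⟩
  obtain ⟨i0, -⟩ : ∃ i : Fin m, True := ⟨⟨0, hm⟩, trivial⟩
  set C : Fin m → Fin n → ℤ := fun i j => s i + p i j - t * w i j0 with hCd
  have h2 : ∀ i j, C i j = r j + q i j + t * (w i0 j - w i0 j0) := by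
    intro i j
    have h3 := hpq i j
    have h4 := hw i j i0 j0
    simp only [hCd]
    have h5 : w i j = w i j0 + (w i0 j - w i0 j0) := by linarith
    rw [h5] at h3
    linear_combination h3
  have h3 : ∀ i j i' j', C i j - C i' j' ≤ (m : ℤ) + n - 2 := by
    intro i j i' j'
    have e1 : C i j - C i j' = p i j - p i j' := by simp only [hCd]; ring
    have e2 : C i j' - C i' j' = q i j' - q i' j' := by rw [h2, h2]; ring
    have b1 := hC.pn i j
    have b2 := hC.p0 i j'
    have b3 := hC.qm i j'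
    have b4 := hC.q0 i' j'
    linarith
  obtain ⟨⟨i1, j1⟩, h4⟩ := Finite.exists_min (fun z : Fin m × Fin n => C z.1 z.2)
  by_contra h5
  push Not at h5
  obtain ⟨i, j, k, hk⟩ := hC.surj (C i1 j1 + (m + n - 1))
  have h6 := h4 (i, j)
  simp only at h6
  have h7 := h3 i j i1 j1
  have h8 : C i j = s i + p i j - t * w i j0 := rfl
  have h9 : C i1 j1 + (m + n - 1) - C i j = t * (w i j0 - k) := by
    rw [h8]
    linear_combination -hk
  have h10 : 0 < (t : ℤ) * (w i j0 - k) := by rw [← h9]; linarith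
  have h11 : (t : ℤ) * (w i j0 - k) < t := by
    rw [← h9]
    have : ((m : ℤ) + n) < t + 1 := by exact_mod_cast h5
    linarith
  have ht0 : (0 : ℤ) < t := by exact_mod_cast ht
  have h12 : 0 < w i j0 - k := by
    by_contra h13
    push Not at h13
    nlinarith
  nlinarith

end Pool.Agent.T2H56.IC
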