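import Pool.Agent.T2H56.IC.Stm

/-!
# Package BN: normal form of the integer data of a colouring of a complete bipartite graph
-/

set_option autoImplicit false

namespace Pool.Agent.T2H56.IC

theorem pBN : S_BN := by
  intro m n t s r p q hm hn hmn h
  have ht : (0 : ℤ) < t := by omega
  have ht0 : (t : ℤ) ≠ 0 := ht.ne'
  have hs : ∀ i, (t : ℤ) ∣ s i - s i % t := fun i => by
    refine ⟨s i / t, ?_⟩
    have := Int.emod_add_mul_ediv (s i) t
    linarith
  have hr : ∀ j, (t : ℤ) ∣ r j - ((r j + ((m : ℤ) - 1)) % t - ((m : ℤ) - 1)) := fun j => by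
    refine ⟨(r j + ((m : ℤ) - 1)) / t, ?_⟩
    have := Int.emod_add_mul_ediv (r j + ((m : ℤ) - 1)) t
    linarith
  have hc : ∀ i j, (t : ℤ) ∣ (s i % t + p i j) -
      (((r j + ((m : ℤ) - 1)) % t - ((m : ℤ) - 1)) + q i j) := by
    intro i j
    have h1 := h.cong i j
    have h2 := dvd_add (dvd_sub h1 (hs i)) (hr j)
    have e : s i + p i j - (r j + q i j) - (s i - s i % t) +
        (r j - ((r j + ((m : ℤ) - 1)) % t - ((m : ℤ) - 1))) =
        (s i % t + p i j) - (((r j + ((m : ℤ) - 1)) % t - ((m : ℤ) - 1)) + q i j) := by ring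
    rwa [e] at h2
  refine ⟨fun i => s i % t, fun j => (r j + ((m : ℤ) - 1)) % t - ((m : ℤ) - 1), ?_, ?_⟩
  · refine ⟨h.p0, h.pn, h.q0, h.qm, h.pinj, h.qinj, hc, fun x => ?_⟩
    obtain ⟨i, j, hij⟩ := h.surj x
    refine ⟨i, j, ?_⟩
    have h2 := dvd_sub hij (hs i)
    have e : s i + p i j - x - (s i - s i % t) = s i % t + p i j - x := by ring
    rwa [e] at h2
  · intro i j
    show (s i % t + p i j) - (((r j + ((m : ℤ) - 1)) % t - ((m : ℤ) - 1)) + q i j) =
      if ((r j + ((m : ℤ) - 1)) % t - ((m : ℤ) - 1)) + m ≤ s i % t then (t : ℤ) else 0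
    have h0 := Int.emod_nonneg (s i) ht0
    have h1 := Int.emod_lt_of_pos (s i) ht
    have h2 := Int.emod_nonneg (r j + ((m : ℤ) - 1)) ht0
    have h3 := Int.emod_lt_of_pos (r j + ((m : ℤ) - 1)) ht
    have p0 := h.p0 i j
    have pn := h.pn i j
    have q0 := h.q0 i j
    have qm := h.qm i j
    have hmn' : (m : ℤ) + n ≤ t := by exact_mod_cast hmn
    have hm' : (1 : ℤ) ≤ m := by exact_mod_cast hm
    have hn' : (1 : ℤ) ≤ n := by exact_mod_cast hn
    obtain ⟨D, hD⟩ := hc i j
    generalize s i % t = a at *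
    generalize (r j + ((m : ℤ) - 1)) % t = b at *
    split_ifs with hif
    · have hD1 : 0 < D := by
        by_contra hcon
        push Not at hcon
        have : (t : ℤ) * D ≤ 0 := mul_nonpos_of_nonneg_of_nonpos ht.le hcon
        linarith
      have hD2 : D < 2 := by
        by_contra hcon
        push Not at hcon
        have : (t : ℤ) * 2 ≤ t * D := mul_le_mul_of_nonneg_left hcon ht.le
        linarith
      have : D = 1 := by omega
      rw [hD, this, mul_one]
    · push Not at hif
      have hD1 : -1 < D := by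
        by_contra hcon
        push Not at hcon
        have : (t : ℤ) * D ≤ t * (-1) := mul_le_mul_of_nonneg_left hcon ht.le
        linarith
      have hD2 : D < 1 := by
        by_contra hcon
        push Not at hcon
        have : (t : ℤ) * 1 ≤ t * D := mul_le_mul_of_nonneg_left hcon ht.le
        linarith
      have : D = 0 := by omega
      rw [hD, this, mul_zero]

end Pool.Agent.T2H56.IC
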