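import Pool.Agent.T2H56.IC.Stm

/-!
# Package BX: the value of the certificate is a sum of squares
-/

set_option autoImplicit false

namespace Pool.Agent.T2H56.IC

open Finset

theorem pBX : S_BX := by
  intro m n w hm hn hw X hX
  obtain ⟨g, hg⟩ : ∃ g : Fin m → ℤ, ∀ i, g i = ∑ j, w i j := ⟨_, fun _ => rfl⟩
  obtain ⟨h, hh⟩ : ∃ h : Fin n → ℤ, ∀ j, h j = ∑ i, w i j := ⟨_, fun _ => rfl⟩
  obtain ⟨H, hH⟩ : ∃ H : ℤ, H = ∑ i, ∑ j, w i j := ⟨_, rfl⟩
  have hHg : ∑ i, g i = H := by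
    rw [hH]
    exact Finset.sum_congr rfl fun i _ => hg i
  have hHh : ∑ j, h j = H := by
    rw [hH, Finset.sum_comm]
    exact Finset.sum_congr rfl fun j _ => hh j
  obtain ⟨G2, hG2⟩ : ∃ G2 : ℤ, G2 = ∑ i, g i ^ 2 := ⟨_, rfl⟩
  obtain ⟨H2, hH2⟩ : ∃ H2 : ℤ, H2 = ∑ j, h j ^ 2 := ⟨_, rfl⟩
  have hX' : X = m * n * H - m * G2 - n * H2 + H ^ 2 := by
    rw [hX, hG2, hH2, hH]
    simp only [hg, hh]
  obtain ⟨ω, hω⟩ : ∃ ω : Fin m → Fin n → ℤ, ∀ i j, ω i j = m * n * w i j - m * g i - n * h j + H :=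
    ⟨_, fun _ _ => rfl⟩
  have s1 : ∀ c : ℤ, ∑ i, ∑ j, c * w i j = c * H := by
    intro c
    simp only [← Finset.mul_sum]
    rw [hH]
  have s2 : ∀ c : ℤ, ∑ i : Fin m, ∑ _j : Fin n, c * g i ^ 2 = c * (n * G2) := by
    intro c
    simp only [Finset.sum_const, Finset.card_univ, Fintype.card_fin, nsmul_eq_mul,
      ← Finset.mul_sum]
    rw [hG2]
    ring
  have s3 : ∀ c : ℤ, ∑ _i : Fin m, ∑ j : Fin n, c * h j ^ 2 = c * (m * H2) := by
    intro c
    simp only [Finset.sum_const, Finset.card_univ, Fintype.card_fin, nsmul_eq_mul,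
      ← Finset.mul_sum]
    rw [hH2]
    ring
  have s4 : ∀ c : ℤ, ∑ _i : Fin m, ∑ _j : Fin n, c = c * (m * n) := by
    intro c
    simp only [Finset.sum_const, Finset.card_univ, Fintype.card_fin, nsmul_eq_mul]
    ring
  have s5 : ∀ c : ℤ, ∑ i, ∑ j, c * (g i * w i j) = c * G2 := by
    intro c
    simp only [← Finset.mul_sum]
    rw [hG2]
    congr 1
    refine Finset.sum_congr rfl fun i _ => ?_
    rw [← hg]
    ring
  have s6 : ∀ c : ℤ, ∑ i, ∑ j, c * (h j * w i j) = c * H2 := by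
    intro c
    rw [Finset.sum_comm]
    simp only [← Finset.mul_sum]
    rw [hH2]
    congr 1
    refine Finset.sum_congr rfl fun j _ => ?_
    rw [← hh]
    ring
  have s7 : ∀ c : ℤ, ∑ i, ∑ j, c * (g i * h j) = c * (H * H) := by
    intro c
    simp only [← Finset.mul_sum, ← Finset.sum_mul]
    rw [hHg, hHh]
  have s8 : ∀ c : ℤ, ∑ i : Fin m, ∑ _j : Fin n, c * g i = c * (n * H) := by
    intro c
    simp only [Finset.sum_const, Finset.card_univ, Fintype.card_fin, nsmul_eq_mul,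
      ← Finset.mul_sum]
    rw [hHg]
    ring
  have s9 : ∀ c : ℤ, ∑ _i : Fin m, ∑ j : Fin n, c * h j = c * (m * H) := by
    intro c
    simp only [Finset.sum_const, Finset.card_univ, Fintype.card_fin, nsmul_eq_mul,
      ← Finset.mul_sum]
    rw [hHh]
    ring
  have hsq : ∀ i j, ω i j ^ 2 = (m ^ 2 * n ^ 2 + 2 * m * n * H) * w i j + m ^ 2 * g i ^ 2 +
      n ^ 2 * h j ^ 2 + H ^ 2 + (-(2 * m ^ 2 * n)) * (g i * w i j) +
      (-(2 * m * n ^ 2)) * (h j * w i j) + (2 * m * n) * (g i * h j) +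
      (-(2 * m * H)) * g i + (-(2 * n * H)) * h j := by
    intro i j
    have hww : w i j * w i j = w i j := by
      rcases hw i j with e | e <;> rw [e] <;> norm_num
    rw [hω]
    linear_combination (m ^ 2 * n ^ 2 : ℤ) * hww
  have key : ∑ i, ∑ j, ω i j ^ 2 = m * n * X := by
    simp only [hsq, Finset.sum_add_distrib]
    rw [s1, s2, s3, s4, s5, s6, s7, s8, s9, hX']
    ring
  have hm0 : (0 : ℤ) < m := by exact_mod_cast hm
  have hn0 : (0 : ℤ) < n := by exact_mod_cast hn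
  have hmn : (0 : ℤ) < m * n := by positivity
  rcases lt_or_ge 0 X with h0 | h0
  · exact Or.inl h0
  · right
    have h1 : ∑ i, ∑ j, ω i j ^ 2 = 0 := by
      have h2 : 0 ≤ ∑ i, ∑ j, ω i j ^ 2 :=
        Finset.sum_nonneg fun i _ => Finset.sum_nonneg fun j _ => sq_nonneg _
      nlinarith
    have h3 : ∀ i j, ω i j = 0 := by
      intro i j
      have h4 := (Finset.sum_eq_zero_iff_of_nonneg (fun i _ =>
        Finset.sum_nonneg fun j _ => sq_nonneg (ω i j))).1 h1 i (Finset.mem_univ _)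
      have h5 := (Finset.sum_eq_zero_iff_of_nonneg (fun j _ => sq_nonneg (ω i j))).1 h4 j
        (Finset.mem_univ _)
      exact pow_eq_zero_iff (two_ne_zero) |>.1 h5
    intro i j i' j'
    have e1 := h3 i j
    have e2 := h3 i' j
    have e3 := h3 i j'
    have e4 := h3 i' j'
    rw [hω] at e1 e2 e3 e4
    have e5 : (m * n : ℤ) * (w i j - w i' j - w i j' + w i' j') = 0 := by linarith
    rcases mul_eq_zero.1 e5 with e | e
    · exact absurd e hmn.ne'
    · exact e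

end Pool.Agent.T2H56.IC
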