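import Pool.Agent.T2H56.IC.Stm

/-!
# Package C8: explicit colourings of `K_8`
-/

set_option autoImplicit false

namespace Pool.Agent.T2H56.IC

open Finset

namespace C8

/-- the general criterion, with decidable hypotheses -/
lemma crit (hCG : S_CG) (t : ℕ) (ht : 1 ≤ t) (col : Fin 8 → Fin 8 → ℤ) (S : Fin 8 → ℤ)
    (hsym : ∀ u v, col u v = col v u)
    (harc : ∀ v u, v ≠ u → (col v u - S v) % (t : ℤ) < 7)
    (hinj : ∀ v u w, v ≠ u → v ≠ w → (col v u - col v w) % (t : ℤ) = 0 → u = w)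
    (hsurj : ∀ r : Fin t, ∃ u v : Fin 8, u ≠ v ∧ col u v = ((r : ℕ) : ℤ)) :
    t ∈ FS (KG 8) := by
  have ht0 : (0 : ℤ) < t := by exact_mod_cast ht
  refine hCG (Fin 8) (KG 8) t col S (fun _ => 7) ht ?_ ?_ ?_ ?_ ?_
  · intro u v _
    rw [hsym, sub_self]
    exact dvd_zero _
  · intro v
    rw [Nat.card_eq_fintype_card, SimpleGraph.card_neighborSet_eq_degree]
    simp
  · intro v u huv
    refine ⟨(col v u - S v) % (t : ℤ), Int.emod_nonneg _ ht0.ne', ?_, ?_⟩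
    · exact_mod_cast harc v u huv
    · have h := Int.emod_add_mul_ediv (col v u - S v) t
      refine ⟨(col v u - S v) / (t : ℤ), ?_⟩
      linarith
  · intro v u w hu hw hd
    exact hinj v u w hu hw (Int.emod_eq_zero_of_dvd hd)
  · intro x
    have h1 := Int.emod_nonneg x ht0.ne'
    have h2 := Int.emod_lt_of_pos x ht0
    obtain ⟨u, v, huv, hc⟩ := hsurj ⟨(x % (t : ℤ)).toNat, by omega⟩
    refine ⟨u, v, huv, ?_⟩
    rw [hc]
    show (t : ℤ) ∣ (((x % (t : ℤ)).toNat : ℕ) : ℤ) - x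
    rw [Int.toNat_of_nonneg h1]
    have h := Int.emod_add_mul_ediv x t
    refine ⟨-(x / (t : ℤ)), ?_⟩
    linarith

/-- the colouring with ten colours -/
def c10 : Fin 8 → Fin 8 → ℤ :=
  ![![-1, 0, 1, 2, 3, 4, 5, 6], ![0, -1, 6, 3, 1, 5, 4, 2], ![1, 6, -1, 9, 7, 0, 2, 8],
    ![2, 3, 9, -1, 8, 1, 0, 7], ![3, 1, 7, 8, -1, 2, 9, 0], ![4, 5, 0, 1, 2, -1, 3, 9],
    ![5, 4, 2, 0, 9, 3, -1, 1], ![6, 2, 8, 7, 0, 9, 1, -1]]

/-- the starts -/
def s10 : Fin 8 → ℤ := ![0, 0, 6, 7, 7, 9, 9, 6]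

/-- the colouring with eleven colours -/
def c11 : Fin 8 → Fin 8 → ℤ :=
  ![![-1, 0, 1, 2, 3, 4, 5, 6], ![0, -1, 9, 3, 10, 2, 1, 8], ![1, 9, -1, 6, 8, 10, 0, 7],
    ![2, 3, 6, -1, 0, 5, 4, 1], ![3, 10, 8, 0, -1, 1, 2, 9], ![4, 2, 10, 5, 1, -1, 3, 0],
    ![5, 1, 0, 4, 2, 3, -1, 10], ![6, 8, 7, 1, 9, 0, 10, -1]]

/-- the starts -/
def s11 : Fin 8 → ℤ := ![0, 8, 6, 0, 8, 10, 10, 6]

end C8

theorem pC8 : S_C8 := by
  intro hCG
  constructor
  · exact C8.crit hCG 10 (by norm_num) C8.c10 C8.s10 (by decide +kernel) (by decide +kernel)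
      (by decide +kernel) (by decide +kernel)
  · exact C8.crit hCG 11 (by norm_num) C8.c11 C8.s11 (by decide +kernel) (by decide +kernel)
      (by decide +kernel) (by decide +kernel)

end Pool.Agent.T2H56.IC
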