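import Pool.Agent.T2H56.IC.CGen

/-!
# Package CD of project IC (helper34)
-/

namespace Pool.Agent.T2H56.IC

open Finset

namespace CD

/-- `x + y` modulo `q` -/
def ad (q x y : ℕ) : ℕ := if x + y < q then x + y else x + y - q

/-- `x - y` modulo `q` -/
def sb (q x y : ℕ) : ℕ := if y ≤ x then x - y else x + q - y

/-- name of the edge of the cycle between `x` and `y` -/
def cy (q x y : ℕ) : ℕ := if x + 1 = y then x else if y + 1 = x then y else q - 1

lemma cycAdj_iff (q : ℕ) (i j : Fin q) : CycAdj q i j ↔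
    ((i : ℕ) + 1 = j ∨ ((i : ℕ) + 1 = q ∧ (j : ℕ) = 0)) ∨
      ((j : ℕ) + 1 = i ∨ ((j : ℕ) + 1 = q ∧ (i : ℕ) = 0)) := by
  unfold CycAdj
  have hi := i.2
  have hj := j.2
  have e : ∀ x : ℕ, x < q → (x + 1) % q = if x + 1 = q then 0 else x + 1 := by
    intro x hx
    split_ifs with h
    · rw [h, Nat.mod_self]
    · exact Nat.mod_eq_of_lt (by omega)
  rw [e _ hi, e _ hj]
  split_ifs <;> omega

lemma cycAdj_symm (q : ℕ) (i j : Fin q) : CycAdj q i j ↔ CycAdj q j i := by
  unfold CycAdj
  tauto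

/-- the vertices -/
abbrev VT (q : ℕ) : Type := Fin q ⊕ Fin q ⊕ Fin (q - 2)

/-- the part -/
def part (q : ℕ) : VT q → Fin 3
  | Sum.inl _ => 0
  | Sum.inr (Sum.inl _) => 1
  | Sum.inr (Sum.inr _) => 2

open Classical in
/-- the kind of an edge -/
noncomputable def kd (q : ℕ) : VT q → VT q → Fin 3
  | Sum.inl x, Sum.inl y => if CycAdj q x y then 0 else 2
  | Sum.inl _, Sum.inr (Sum.inl _) => 1
  | Sum.inl _, Sum.inr (Sum.inr _) => 0
  | Sum.inr (Sum.inl _), Sum.inl _ => 0
  | Sum.inr (Sum.inl x), Sum.inr (Sum.inl y) => if CycAdj q x y then 1 else 2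
  | Sum.inr (Sum.inl _), Sum.inr (Sum.inr _) => 1
  | Sum.inr (Sum.inr _), Sum.inl _ => 1
  | Sum.inr (Sum.inr _), Sum.inr (Sum.inl _) => 0
  | Sum.inr (Sum.inr _), Sum.inr (Sum.inr _) => 2

open Classical in
/-- the rank of an edge -/
noncomputable def rk (q : ℕ) (κ : Fin q → Fin q → ℕ) (κ' : Fin (q - 2) → Fin (q - 2) → ℕ) :
    VT q → VT q → ℕ
  | Sum.inl x, Sum.inl y => if CycAdj q x y then cy q x y else κ x y - 2
  | Sum.inl x, Sum.inr (Sum.inl y) => ad q x y
  | Sum.inl x, Sum.inr (Sum.inr y) => sb q x (y + 2)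
  | Sum.inr (Sum.inl y), Sum.inl x => ad q x y
  | Sum.inr (Sum.inl x), Sum.inr (Sum.inl y) => if CycAdj q x y then cy q x y else κ x y - 2
  | Sum.inr (Sum.inl x), Sum.inr (Sum.inr y) => sb q x (y + 2)
  | Sum.inr (Sum.inr y), Sum.inl x => sb q x (y + 2)
  | Sum.inr (Sum.inr y), Sum.inr (Sum.inl x) => sb q x (y + 2)
  | Sum.inr (Sum.inr x), Sum.inr (Sum.inr y) => κ' x y

/-- the colours at a vertex `x` of a part of size `q` towards the others: inside and block -/
lemma cy_inj (q : ℕ) (hq : 4 ≤ q) (x y z : Fin q) (hy : CycAdj q x y) (hz : CycAdj q x z)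
    (h : cy q x y = cy q x z) : y = z := by
  rw [cycAdj_iff] at hy hz
  apply Fin.ext
  unfold cy at h
  have := x.2
  have := y.2
  have := z.2
  split_ifs at h <;> omega

lemma cy_symm (q : ℕ) (x y : Fin q) :
    cy q x y = cy q y x := by
  unfold cy
  have := x.2
  have := y.2
  split_ifs <;> omega

lemma cy_lt (q : ℕ) (hq : 4 ≤ q) (x y : Fin q) : cy q x y < q := by
  unfold cy
  have := x.2
  have := y.2
  split_ifs <;> omega

lemma cy_sb (q : ℕ) (hq : 4 ≤ q) (x y : Fin q) (hy : CycAdj q x y) (z : Fin (q - 2))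
    (h : cy q x y = sb q x (z + 2)) : False := by
  rw [cycAdj_iff] at hy
  unfold cy sb at h
  have := x.2
  have := y.2
  have := z.2
  split_ifs at h <;> omega

lemma sb_lt (q : ℕ) (x : Fin q) (y : Fin (q - 2)) : sb q x (y + 2) < q := by
  unfold sb
  have := x.2
  have := y.2
  split_ifs <;> omega

lemma sb_inj_r (q : ℕ) (x : Fin q) (y z : Fin (q - 2)) (h : sb q x (y + 2) = sb q x (z + 2)) :
    y = z := by
  apply Fin.ext
  unfold sb at h
  have := x.2
  have := y.2
  have := z.2
  split_ifs at h <;> omega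

lemma sb_inj_l (q : ℕ) (x z : Fin q) (y : Fin (q - 2)) (h : sb q x (y + 2) = sb q z (y + 2)) :
    x = z := by
  apply Fin.ext
  unfold sb at h
  have := x.2
  have := y.2
  have := z.2
  split_ifs at h <;> omega

lemma ad_lt (q : ℕ) (x y : Fin q) : ad q x y < q := by
  unfold ad
  have := x.2
  have := y.2
  split_ifs <;> omega

lemma ad_inj_r (q : ℕ) (x y z : Fin q) (h : ad q x y = ad q x z) : y = z := by
  apply Fin.ext
  unfold ad at h
  have := x.2
  have := y.2
  have := z.2
  split_ifs at h <;> omega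

lemma ad_inj_l (q : ℕ) (x y z : Fin q) (h : ad q x y = ad q z y) : x = z := by
  apply Fin.ext
  unfold ad at h
  have := x.2
  have := y.2
  have := z.2
  split_ifs at h <;> omega

lemma exists_g (q t : ℕ) (hq : 4 ≤ q) (h1 : 3 * q ≤ t) (h2 : t + 9 ≤ 6 * q) :
    ∃ g : Fin 3 → ℕ, g 0 + g 1 + g 2 = t ∧ ∀ i, q ≤ g i ∧ g i ≤ q + (q - 3) := by
  obtain ⟨x, hx⟩ : ∃ x, x = min (2 * q - 3) (t - 2 * q) := ⟨_, rfl⟩
  obtain ⟨y, hy⟩ : ∃ y, y = min (2 * q - 3) (t - x - q) := ⟨_, rfl⟩
  refine ⟨![x, y, t - x - y], ?_, ?_⟩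
  · show x + y + (t - x - y) = t
    omega
  · intro i
    fin_cases i
    · show q ≤ x ∧ x ≤ q + (q - 3)
      omega
    · show q ≤ y ∧ y ≤ q + (q - 3)
      omega
    · show q ≤ t - x - y ∧ t - x - y ≤ q + (q - 3)
      omega

end CD

open CD in
theorem pCD : S_CD := by
  intro hCG hTR hF1 hF2 q t hq hqe h1 h2
  obtain ⟨κ, ⟨hs, hlt, hij⟩, hcy⟩ := hF2 q hq hqe
  obtain ⟨κ', ⟨hs', hlt', hij'⟩⟩ := hF1 (q - 2) (by omega) (by
    obtain ⟨m, hm⟩ := hqe
    exact ⟨m - 1, by omega⟩)
  obtain ⟨g, hgt, hg⟩ := exists_g q t hq h1 h2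
  have h3 : ∀ x y, x ≠ y → ¬ CycAdj q x y → 2 ≤ κ x y := by
    intro x y hxy h
    rw [← hcy x y hxy] at h
    omega
  have hcard : Fintype.card (VT q) = 3 * q - 2 := by
    simp [VT]
    omega
  apply hTR (VT q) (3 * q - 2) t hcard
  have hbd : ∀ u v, u ≠ v → (kd q u v = 0 → rk q κ κ' u v < q) ∧
      (kd q u v = 1 → rk q κ κ' u v < q) ∧ (kd q u v = 2 → rk q κ κ' u v < q - 3) := by
    rintro (x | x | x) (y | y | y) hxy <;> simp only [kd, rk]
    · have hxy' : x ≠ y := fun h => hxy (by rw [h])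
      have e1 := cy_lt q hq x y
      have e2 := hlt x y hxy'
      split_ifs with h
      · simp [e1]
      · simp
        have := h3 x y hxy' h
        omega
    · simp [ad_lt]
    · simp [sb_lt]
    · simp [ad_lt]
    · have hxy' : x ≠ y := fun h => hxy (by rw [h])
      have e1 := cy_lt q hq x y
      have e2 := hlt x y hxy'
      split_ifs with h
      · simp [e1]
      · simp
        have := h3 x y hxy' h
        omega
    · simp [sb_lt]
    · simp [sb_lt]
    · simp [sb_lt]
    · have hxy' : x ≠ y := fun h => hxy (by rw [h])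
      have e2 := hlt' x y hxy'
      simp
      omega
  have hk2 : ∀ x y z : Fin q, x ≠ y → x ≠ z → ¬ CycAdj q x y → ¬ CycAdj q x z →
      κ x y - 2 = κ x z - 2 → y = z := by
    intro x y z hy hz h4 h5 h
    have e1 := h3 x y hy h4
    have e2 := h3 x z hz h5
    exact hij x y z hy hz (by omega)
  have hin : ∀ u v w, u ≠ v → u ≠ w → kd q u v = kd q u w → rk q κ κ' u v = rk q κ κ' u w →
      v = w := by
    intro u v w huv huw hk hr
    have ne01 : ¬ ((0 : Fin 3) = 1) := by decide
    have ne02 : ¬ ((0 : Fin 3) = 2) := by decide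
    have ne12 : ¬ ((1 : Fin 3) = 2) := by decide
    have ne10 : ¬ ((1 : Fin 3) = 0) := by decide
    have ne20 : ¬ ((2 : Fin 3) = 0) := by decide
    have ne21 : ¬ ((2 : Fin 3) = 1) := by decide
    rcases u with (x | x | x) <;> rcases v with (y | y | y) <;> rcases w with (z | z | z) <;>
      simp only [kd, rk] at hk hr
    all_goals (try split_ifs at hk hr)
    all_goals first
      | exact absurd hk ne01
      | exact absurd hk ne02
      | exact absurd hk ne12
      | exact absurd hk ne10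
      | exact absurd hk ne20
      | exact absurd hk ne21
      | exact congrArg Sum.inl (cy_inj q hq x y z (by assumption) (by assumption) hr)
      | exact congrArg Sum.inl (hk2 x y z (fun h => huv (by rw [h])) (fun h => huw (by rw [h])) (by assumption) (by assumption) hr)
      | exact congrArg (fun x => Sum.inr (Sum.inl x)) (cy_inj q hq x y z (by assumption) (by assumption) hr)
      | exact congrArg (fun x => Sum.inr (Sum.inl x)) (hk2 x y z (fun h => huv (by rw [h])) (fun h => huw (by rw [h])) (by assumption) (by assumption) hr)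
      | exact congrArg (fun x => Sum.inr (Sum.inr x)) (hij' x y z (fun h => huv (by rw [h])) (fun h => huw (by rw [h])) hr)
      | exact (cy_sb q hq x y (by assumption) z hr).elim
      | exact (cy_sb q hq x z (by assumption) y hr.symm).elim
      | exact congrArg (fun x => Sum.inr (Sum.inl x)) (ad_inj_r q x y z hr)
      | exact congrArg Sum.inl (ad_inj_l q y x z hr)
      | exact congrArg (fun x => Sum.inr (Sum.inr x)) (sb_inj_r q x y z hr)
      | exact congrArg Sum.inl (sb_inj_l q y z x hr)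
      | exact congrArg (fun x => Sum.inr (Sum.inl x)) (sb_inj_l q y z x hr)
  refine gen hCG (3 * q - 2) t hcard (by omega) (part q) g (fun _ => q) (fun _ => q)
    (fun _ => q - 3) (kd q) (rk q κ κ') ?_ hgt (by omega) (fun _ => by omega)
    (fun i => (hg i).1) (fun i => (hg i).2) ?_ ?_ ?_ ?_ ?_ ?_ ?_
  · intro i
    fin_cases i
    · exact ⟨Sum.inl ⟨0, by omega⟩, rfl⟩
    · exact ⟨Sum.inr (Sum.inl ⟨0, by omega⟩), rfl⟩
    · exact ⟨Sum.inr (Sum.inr ⟨0, by omega⟩), rfl⟩
  · -- symmetry of the ranks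
    rintro (x | x | x) (y | y | y) hxy <;> simp only [rk]
    · rw [cycAdj_symm q y x, hs y x]
      split_ifs with h
      · exact cy_symm q x y
      · rfl
    · rw [cycAdj_symm q y x, hs y x]
      split_ifs with h
      · exact cy_symm q x y
      · rfl
    · exact hs' x y
  · rintro (x | x | x) (y | y | y) hxy hp <;> simp only [kd] <;> simp [part] at hp
    · rw [cycAdj_symm q y x]
    · rw [cycAdj_symm q y x]
  · rintro (x | x | x) (y | y | y) hp <;> simp [part] at hp <;> simp [kd]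
  · intro u v huv hk
    exact (hbd u v huv).1 hk
  · intro u v huv hk
    exact (hbd u v huv).2.1 hk
  · intro u v huv hk
    exact (hbd u v huv).2.2 hk
  · exact hin

end Pool.Agent.T2H56.IC
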