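import Pool.Agent.T2H56.IC.Stm

/-!
# Package CE: construction for `K_{3q}`
-/

namespace Pool.Agent.T2H56.IC

namespace CE

open Finset

lemma fill {V : Type} [Fintype V] [DecidableEq V] (v : V) (p : V → ℤ) (n : ℕ)
    (hn : Fintype.card V = n + 1)
    (h0 : ∀ u, u ≠ v → 0 ≤ p u) (h1 : ∀ u, u ≠ v → p u < n)
    (hinj : ∀ u w, u ≠ v → w ≠ v → p u = p w → u = w) (k : ℤ) (hk0 : 0 ≤ k) (hk : k < n) :
    ∃ u, u ≠ v ∧ p u = k := by
  have himg : (univ.erase v).image p = Finset.Ico (0:ℤ) n := by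
    apply Finset.eq_of_subset_of_card_le
    · intro x hx
      rw [Finset.mem_image] at hx
      obtain ⟨u, hu, rfl⟩ := hx
      have hu' : u ≠ v := Finset.ne_of_mem_erase hu
      exact Finset.mem_Ico.mpr ⟨h0 u hu', h1 u hu'⟩
    · rw [Int.card_Ico, Finset.card_image_of_injOn]
      · rw [Finset.card_erase_of_mem (Finset.mem_univ v), Finset.card_univ, hn]
        simp
      · intro u hu w hw huw
        exact hinj u w (Finset.ne_of_mem_erase hu) (Finset.ne_of_mem_erase hw) huw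
  have : k ∈ (univ.erase v).image p := by
    rw [himg]; exact Finset.mem_Ico.mpr ⟨hk0, hk⟩
  rw [Finset.mem_image] at this
  obtain ⟨u, hu, rfl⟩ := this
  exact ⟨u, Finset.ne_of_mem_erase hu, rfl⟩

lemma card_nbr {V : Type} [Fintype V] [DecidableEq V] (v : V) :
    Nat.card ((⊤ : SimpleGraph V).neighborSet v) = Fintype.card V - 1 := by
  have h : (⊤ : SimpleGraph V).neighborSet v = ((univ.erase v : Finset V) : Set V) := by
    ext u
    simp [eq_comm]
  rw [h, Nat.card_coe_set_eq, Set.ncard_coe_finset,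
    Finset.card_erase_of_mem (Finset.mem_univ v), Finset.card_univ]

lemma modinj {q a b c : ℕ} (hb : b < q) (hc : c < q) (h : (a + b) % q = (a + c) % q) : b = c := by
  have h1 : a + b ≡ a + c [MOD q] := h
  have h2 : b ≡ c [MOD q] := Nat.ModEq.add_left_cancel' a h1
  exact Nat.ModEq.eq_of_lt_of_lt h2 hb hc

/-- offsets -/
def off (q : ℕ) (g : Fin 3 → ℤ) (κ : Fin q → Fin q → ℕ) (u v : Fin 3 × Fin q) : ℤ :=
  if v.1 = u.1 then q + κ u.2 v.2 + (if (κ u.2 v.2 : ℤ) < g u.1 - q then 0 else q)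
  else if v.1 = u.1 + 1 then g u.1 + ((((u.2 : ℕ) + (v.2 : ℕ)) % q : ℕ) : ℤ)
  else ((((u.2 : ℕ) + (v.2 : ℕ)) % q : ℕ) : ℤ)

lemma kap {q : ℕ} {κ : Fin q → Fin q → ℕ} (hκ : OneFac q κ) {u v : Fin 3 × Fin q} (huv : u ≠ v)
    (h : v.1 = u.1) : κ u.2 v.2 + 1 < q := by
  apply hκ.2.1
  intro h2
  exact huv (Prod.ext h.symm h2)

lemma off_nonneg {q : ℕ} {g : Fin 3 → ℤ} {κ : Fin q → Fin q → ℕ}
    (hg : ∀ i, (q : ℤ) ≤ g i) (u v : Fin 3 × Fin q) : 0 ≤ off q g κ u v := by
  unfold off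
  have := hg u.1
  split_ifs <;> omega

lemma off_lt {q : ℕ} (hq : 2 ≤ q) {g : Fin 3 → ℤ} {κ : Fin q → Fin q → ℕ} (hκ : OneFac q κ)
    (hg' : ∀ i, g i ≤ 2 * q - 1) {u v : Fin 3 × Fin q} (huv : u ≠ v) :
    off q g κ u v < 3 * q - 1 := by
  unfold off
  have h1 := hg' u.1
  have h2 : ((u.2 : ℕ) + (v.2 : ℕ)) % q < q := Nat.mod_lt _ (by omega)
  split_ifs with a b c
  · have := kap hκ huv a
    omega
  · have := kap hκ huv a
    omega
  · omega
  · omega

lemma fin3 (i j k : Fin 3) (h1 : j ≠ i) (h2 : j ≠ i + 1) (h3 : k ≠ i) (h4 : k ≠ i + 1) : j = k := by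
  revert i j k
  decide

lemma off_inj {q : ℕ} (hq : 2 ≤ q) {g : Fin 3 → ℤ} {κ : Fin q → Fin q → ℕ} (hκ : OneFac q κ)
    (hg : ∀ i, (q : ℤ) ≤ g i) (hg' : ∀ i, g i ≤ 2 * q - 1) {u v w : Fin 3 × Fin q} (huv : u ≠ v)
    (huw : u ≠ w) (h : off q g κ u v = off q g κ u w) : v = w := by
  unfold off at h
  have h0 := hg u.1
  have h1 := hg' u.1
  have h2 : ((u.2 : ℕ) + (v.2 : ℕ)) % q < q := Nat.mod_lt _ (by omega)
  have h3 : ((u.2 : ℕ) + (w.2 : ℕ)) % q < q := Nat.mod_lt _ (by omega)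
  by_cases a : v.1 = u.1
  · have k1 := kap hκ huv a
    by_cases b : w.1 = u.1
    · have k2 := kap hκ huw b
      rw [if_pos a, if_pos b] at h
      have e : κ u.2 v.2 = κ u.2 w.2 := by
        split_ifs at h <;> omega
      have e2 : v.2 = w.2 := by
        apply hκ.2.2 u.2 v.2 w.2 _ _ e
        · intro h2
          exact huv (Prod.ext a.symm h2)
        · intro h2
          exact huw (Prod.ext b.symm h2)
      exact Prod.ext (a.trans b.symm) e2
    · exfalso
      rw [if_pos a, if_neg b] at h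
      split_ifs at h <;> omega
  · by_cases b : w.1 = u.1
    · exfalso
      have k2 := kap hκ huw b
      rw [if_neg a, if_pos b] at h
      split_ifs at h <;> omega
    · rw [if_neg a, if_neg b] at h
      by_cases c : v.1 = u.1 + 1
      · by_cases d : w.1 = u.1 + 1
        · rw [if_pos c, if_pos d] at h
          have e : ((u.2 : ℕ) + (v.2 : ℕ)) % q = ((u.2 : ℕ) + (w.2 : ℕ)) % q := by omega
          have e2 := modinj v.2.2 w.2.2 e
          exact Prod.ext (c.trans d.symm) (Fin.ext e2)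
        · exfalso
          rw [if_pos c, if_neg d] at h
          omega
      · by_cases d : w.1 = u.1 + 1
        · exfalso
          rw [if_neg c, if_pos d] at h
          omega
        · rw [if_neg c, if_neg d] at h
          have e : ((u.2 : ℕ) + (v.2 : ℕ)) % q = ((u.2 : ℕ) + (w.2 : ℕ)) % q := by omega
          have e2 := modinj v.2.2 w.2.2 e
          exact Prod.ext (fin3 u.1 v.1 w.1 a c b d) (Fin.ext e2)

lemma off_symm {q : ℕ} {g : Fin 3 → ℤ} {κ : Fin q → Fin q → ℕ} (hκ : OneFac q κ) (t : ℤ)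
    (S : Fin 3 → ℤ) (hS0 : S 0 + g 0 = S 1) (hS1 : S 1 + g 1 = S 2) (hS2 : S 2 + g 2 = S 0 + t)
    (u v : Fin 3 × Fin q) : t ∣ (S u.1 + off q g κ u v) - (S v.1 + off q g κ v u) := by
  obtain ⟨i, x⟩ := u
  obtain ⟨j, y⟩ := v
  have hs : κ x y = κ y x := hκ.1 x y
  have ha : ((x : ℕ) + (y : ℕ)) % q = ((y : ℕ) + (x : ℕ)) % q := by rw [add_comm]
  have key : ∀ (z : ℤ), z = 0 ∨ z = t ∨ z = - t → t ∣ z := by
    rintro z (h | h | h)
    · rw [h]; exact dvd_zero t
    · rw [h]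
    · rw [h]; exact (dvd_refl t).neg_right
  fin_cases i <;> fin_cases j <;> apply key <;> simp only [off, hs, ha] <;> simp <;> omega

end CE

open Finset in
theorem pCE : S_CE := by
  intro hCG hTR hF1 q t hq he ht1 ht2
  obtain ⟨κ, hκ⟩ := hF1 q hq he
  obtain ⟨g0, g1, g2, hg0, hg0', hg1, hg1', hg2, hg2', hsum⟩ : ∃ g0 g1 g2 : ℤ,
      (q : ℤ) ≤ g0 ∧ g0 ≤ 2 * q - 1 ∧ (q : ℤ) ≤ g1 ∧ g1 ≤ 2 * q - 1 ∧ (q : ℤ) ≤ g2 ∧
      g2 ≤ 2 * q - 1 ∧ g0 + g1 + g2 = t := by
    by_cases h1 : t + 1 ≤ 4 * q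
    · exact ⟨t - 2 * q, q, q, by omega, by omega, by omega, by omega, by omega, by omega, by omega⟩
    · by_cases h2 : t + 2 ≤ 5 * q
      · exact ⟨2 * q - 1, t - 3 * q + 1, q, by omega, by omega, by omega, by omega, by omega,
          by omega, by omega⟩
      · exact ⟨2 * q - 1, 2 * q - 1, t - 4 * q + 2, by omega, by omega, by omega, by omega,
          by omega, by omega, by omega⟩
  set g : Fin 3 → ℤ := ![g0, g1, g2] with hgdef
  set S : Fin 3 → ℤ := ![0, g0, g0 + g1] with hSdef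
  have hg : ∀ i, (q : ℤ) ≤ g i := by
    intro i
    fin_cases i
    · exact hg0
    · exact hg1
    · exact hg2
  have hg' : ∀ i, g i ≤ 2 * q - 1 := by
    intro i
    fin_cases i
    · exact hg0'
    · exact hg1'
    · exact hg2'
  have hcard : Fintype.card (Fin 3 × Fin q) = (3 * q - 1) + 1 := by
    rw [Fintype.card_prod, Fintype.card_fin, Fintype.card_fin]
    omega
  have hcast : ((3 * q - 1 : ℕ) : ℤ) = 3 * q - 1 := by omega
  apply hTR (Fin 3 × Fin q) (3 * q) t (by rw [hcard]; omega)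
  have hnn : ∀ u v, 0 ≤ CE.off q g κ u v := CE.off_nonneg hg
  have hlt : ∀ u v, u ≠ v → CE.off q g κ u v < 3 * q - 1 := fun u v h => CE.off_lt hq hκ hg' h
  have hinj : ∀ u v w, u ≠ v → u ≠ w → CE.off q g κ u v = CE.off q g κ u w → v = w :=
    fun u v w h1 h2 h3 => CE.off_inj hq hκ hg hg' h1 h2 h3
  apply hCG (Fin 3 × Fin q) ⊤ t (fun u v => S u.1 + CE.off q g κ u v) (fun u => S u.1)
    (fun _ => 3 * q - 1) (by omega)
  · intro u v _
    apply CE.off_symm hκ
    · simp [S, g]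
    · simp [S, g]
    · simp only [S, g]
      simp
      omega
  · intro v
    rw [CE.card_nbr, hcard]
    rfl
  · intro v u huv
    rw [SimpleGraph.top_adj] at huv
    refine ⟨CE.off q g κ v u, hnn v u, ?_, ?_⟩
    · rw [hcast]
      exact hlt v u huv
    · simp
  · intro v u w huv hvw h
    rw [SimpleGraph.top_adj] at huv hvw
    apply hinj v u w huv hvw
    obtain ⟨k, hk⟩ := h
    have a1 := hnn v u
    have a2 := hnn v w
    have a3 := hlt v u huv
    have a4 := hlt v w hvw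
    have hk' : CE.off q g κ v u - CE.off q g κ v w = t * k := by linarith
    have hk0 : k = 0 := by
      by_contra hne
      rcases lt_or_gt_of_ne hne with h5 | h5
      · nlinarith
      · nlinarith
    rw [hk0] at hk'
    linarith
  · intro x
    have hfill : ∀ (i : Fin 3) (k : ℤ), 0 ≤ k → k < 3 * q - 1 →
        ∃ u, u ≠ (i, (⟨0, by omega⟩ : Fin q)) ∧
          CE.off q g κ (i, (⟨0, by omega⟩ : Fin q)) u = k := by
      intro i k h0 h1
      apply CE.fill _ _ (3 * q - 1) hcard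
      · intro u _
        exact hnn _ _
      · intro u hu
        rw [hcast]
        exact hlt _ _ hu.symm
      · intro u w hu hw h
        exact hinj _ _ _ hu.symm hw.symm h
      · exact h0
      · rw [hcast]
        exact h1
    have htpos : (0 : ℤ) < t := by omega
    have hr0 : 0 ≤ x % t := Int.emod_nonneg x (by omega)
    have hr1 : x % t < t := Int.emod_lt_of_pos x htpos
    have hfin : ∀ (i : Fin 3), 0 ≤ x % t - S i → x % t - S i < 3 * q - 1 →
        ∃ u v : Fin 3 × Fin q, (⊤ : SimpleGraph (Fin 3 × Fin q)).Adj u v ∧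
          (t : ℤ) ∣ (S u.1 + CE.off q g κ u v) - x := by
      intro i h0 h1
      obtain ⟨u, hu, hu2⟩ := hfill i _ h0 h1
      refine ⟨(i, ⟨0, by omega⟩), u, ?_, ?_⟩
      · rw [SimpleGraph.top_adj]
        exact hu.symm
      · rw [hu2]
        refine ⟨- (x / t), ?_⟩
        have := Int.emod_add_mul_ediv x t
        show S i + (x % t - S i) - x = _
        linarith
    have e0 : S 0 = 0 := by simp [S]
    have e1 : S 1 = g0 := by simp [S]
    have e2 : S 2 = g0 + g1 := by simp [S]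
    by_cases c0 : x % t < g0
    · apply hfin 0 <;> rw [e0] <;> omega
    · by_cases c1 : x % t < g0 + g1
      · apply hfin 1 <;> rw [e1] <;> omega
      · apply hfin 2 <;> rw [e2] <;> omega

end Pool.Agent.T2H56.IC
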