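import Pool.Agent.T2H56.IC.PCD

/-!
# Package CH of project IC (helper34)
-/

namespace Pool.Agent.T2H56.IC

open Finset

namespace CH

open CD (ad sb cy cy_inj cy_symm cy_lt cy_sb sb_lt sb_inj_r sb_inj_l ad_lt ad_inj_r ad_inj_l
  cycAdj_symm)

/-- the vertices -/
abbrev VT (q : ℕ) : Type := Fin q ⊕ Fin (q - 2) ⊕ Fin (q - 2)

/-- the part -/
def part (q : ℕ) : VT q → Fin 3
  | Sum.inl _ => 0
  | Sum.inr (Sum.inl _) => 1
  | Sum.inr (Sum.inr _) => 2

open Classical in
/-- the kind of an edge -/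
noncomputable def kd (q : ℕ) (τ : Fin q → Fin q) : VT q → VT q → Fin 3
  | Sum.inl x, Sum.inl y => if CycAdj q x y then 1 else if CycAdj q (τ x) (τ y) then 0 else 2
  | Sum.inl _, Sum.inr (Sum.inl _) => 1
  | Sum.inl _, Sum.inr (Sum.inr _) => 0
  | Sum.inr (Sum.inl _), Sum.inl _ => 0
  | Sum.inr (Sum.inl _), Sum.inr (Sum.inl _) => 2
  | Sum.inr (Sum.inl _), Sum.inr (Sum.inr _) => 1
  | Sum.inr (Sum.inr _), Sum.inl _ => 1
  | Sum.inr (Sum.inr _), Sum.inr (Sum.inl _) => 0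
  | Sum.inr (Sum.inr _), Sum.inr (Sum.inr _) => 2

open Classical in
/-- the rank of an edge -/
noncomputable def rk (q : ℕ) (τ : Fin q → Fin q) (κ : Fin q → Fin q → ℕ)
    (κ' : Fin (q - 2) → Fin (q - 2) → ℕ) : VT q → VT q → ℕ
  | Sum.inl x, Sum.inl y => if CycAdj q x y then cy q x y else
      if CycAdj q (τ x) (τ y) then cy q (τ x) (τ y) else κ x y - 4
  | Sum.inl x, Sum.inr (Sum.inl y) => sb q x (y + 2)
  | Sum.inl x, Sum.inr (Sum.inr y) => sb q (τ x) (y + 2)
  | Sum.inr (Sum.inl y), Sum.inl x => sb q x (y + 2)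
  | Sum.inr (Sum.inl x), Sum.inr (Sum.inl y) => κ' x y
  | Sum.inr (Sum.inl x), Sum.inr (Sum.inr y) => ad (q - 2) x y
  | Sum.inr (Sum.inr y), Sum.inl x => sb q (τ x) (y + 2)
  | Sum.inr (Sum.inr y), Sum.inr (Sum.inl x) => ad (q - 2) x y
  | Sum.inr (Sum.inr x), Sum.inr (Sum.inr y) => κ' x y

lemma exists_g (q t : ℕ) (hq : 6 ≤ q) (h1 : 3 * q ≤ t + 2) (h2 : t + 13 ≤ 6 * q) :
    ∃ g : Fin 3 → ℕ, g 0 + g 1 + g 2 = t ∧ (q ≤ g 0 ∧ g 0 ≤ q + (q - 5)) ∧
      (q ≤ g 1 ∧ g 1 ≤ q + (q - 3)) ∧ (q - 2 ≤ g 2 ∧ g 2 ≤ q - 2 + (q - 3)) := by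
  obtain ⟨x, hx⟩ : ∃ x, x = min (2 * q - 5) (t - (2 * q - 2)) := ⟨_, rfl⟩
  obtain ⟨y, hy⟩ : ∃ y, y = min (2 * q - 3) (t - x - (q - 2)) := ⟨_, rfl⟩
  refine ⟨![x, y, t - x - y], ?_, ?_, ?_, ?_⟩
  · show x + y + (t - x - y) = t
    omega
  · show q ≤ x ∧ x ≤ q + (q - 5)
    omega
  · show q ≤ y ∧ y ≤ q + (q - 3)
    omega
  · show q - 2 ≤ t - x - y ∧ t - x - y ≤ q - 2 + (q - 3)
    omega

end CH

open CH in
open CD (ad sb cy cy_inj cy_symm cy_lt cy_sb sb_lt sb_inj_r sb_inj_l ad_lt ad_inj_r ad_inj_l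
  cycAdj_symm) in
theorem pCH : S_CH := by
  intro hCG hTR hF1 hF3 q t hq hqe h1 h2
  obtain ⟨κ, σ, ⟨hs, hlt, hij⟩, hcy, hsi⟩ := hF3 q hq hqe
  obtain ⟨κ', ⟨hs', hlt', hij'⟩⟩ := hF1 (q - 2) (by omega) (by
    obtain ⟨m, hm⟩ := hqe
    exact ⟨m - 1, by omega⟩)
  obtain ⟨g, hgt, hg0, hg1, hg2⟩ := exists_g q t hq h1 h2
  obtain ⟨τ, hτ⟩ : ∃ τ : Fin q → Fin q, ∀ x, τ x = σ.symm x := ⟨_, fun _ => rfl⟩
  have hτi : ∀ x y, τ x = τ y → x = y := by
    intro x y h
    rw [hτ, hτ] at h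
    exact σ.symm.injective h
  have h3 : ∀ x y, x ≠ y → ¬ CycAdj q x y → ¬ CycAdj q (τ x) (τ y) → 4 ≤ κ x y := by
    intro x y hxy h h'
    rw [← hcy x y hxy] at h
    rw [← hsi (τ x) (τ y) (fun e => hxy (hτi _ _ e)), hτ, hτ, σ.apply_symm_apply,
      σ.apply_symm_apply] at h'
    omega
  have hcard : Fintype.card (VT q) = 3 * q - 4 := by
    simp [VT]
    omega
  apply hTR (VT q) (3 * q - 4) t hcard
  have hq4 : 4 ≤ q := by omega
  have hbd : ∀ u v, u ≠ v → (kd q τ u v = 0 → rk q τ κ κ' u v < (![q, q, q - 2] : Fin 3 → ℕ) (part q u)) ∧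
      (kd q τ u v = 1 → rk q τ κ κ' u v < (![q, q - 2, q] : Fin 3 → ℕ) (part q u)) ∧
      (kd q τ u v = 2 → rk q τ κ κ' u v < (![q - 5, q - 3, q - 3] : Fin 3 → ℕ) (part q u)) := by
    rintro (x | x | x) (y | y | y) hxy <;> simp only [kd, rk, part]
    · have hxy' : x ≠ y := fun h => hxy (by rw [h])
      have e1 := cy_lt q hq4 x y
      have e3 := cy_lt q hq4 (τ x) (τ y)
      have e2 := hlt x y hxy'
      split_ifs with h h'
      · simp [e1]
      · simp [e3]
      · simp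
        have := h3 x y hxy' h h'
        omega
    · simp [sb_lt]
    · simp [sb_lt]
    · simp [sb_lt]
    · have hxy' : x ≠ y := fun h => hxy (by rw [h])
      have e2 := hlt' x y hxy'
      simp
      omega
    · simp [ad_lt]
    · simp [sb_lt]
    · simp [ad_lt]
    · have hxy' : x ≠ y := fun h => hxy (by rw [h])
      have e2 := hlt' x y hxy'
      simp
      omega
  have hk2 : ∀ x y z : Fin q, x ≠ y → x ≠ z → ¬ CycAdj q x y → ¬ CycAdj q (τ x) (τ y) →
      ¬ CycAdj q x z → ¬ CycAdj q (τ x) (τ z) → κ x y - 4 = κ x z - 4 → y = z := by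
    intro x y z hy hz h4 h4' h5 h5' h
    have e1 := h3 x y hy h4 h4'
    have e2 := h3 x z hz h5 h5'
    exact hij x y z hy hz (by omega)
  have hin : ∀ u v w, u ≠ v → u ≠ w → kd q τ u v = kd q τ u w →
      rk q τ κ κ' u v = rk q τ κ κ' u w → v = w := by
    intro u v w huv huw hk hr
    have ne01 : ¬ ((0 : Fin 3) = 1) := by decide
    have ne02 : ¬ ((0 : Fin 3) = 2) := by decide
    have ne12 : ¬ ((1 : Fin 3) = 2) := by decide
    have ne10 : ¬ ((1 : Fin 3) = 0) := by decide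
    have ne20 : ¬ ((2 : Fin 3) = 0) := by decide
    have ne21 : ¬ ((2 : Fin 3) = 1) := by decide
    rcases u with (x | x | x) <;> rcases v with (y | y | y) <;> rcases w with (z | z | z) <;>
      simp only [kd, rk] at hk hr
    all_goals (try split_ifs at hk hr)
    all_goals first
      | exact absurd hk ne01
      | exact absurd hk ne02
      | exact absurd hk ne12
      | exact absurd hk ne10
      | exact absurd hk ne20
      | exact absurd hk ne21
      | exact congrArg Sum.inl (cy_inj q hq4 x y z (by assumption) (by assumption) hr)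
      | exact congrArg Sum.inl (hτi _ _ (cy_inj q hq4 (τ x) (τ y) (τ z) (by assumption)
          (by assumption) hr))
      | exact congrArg Sum.inl (hk2 x y z (fun h => huv (by rw [h])) (fun h => huw (by rw [h]))
          (by assumption) (by assumption) (by assumption) (by assumption) hr)
      | exact congrArg (fun x => Sum.inr (Sum.inl x)) (hij' x y z (fun h => huv (by rw [h]))
          (fun h => huw (by rw [h])) hr)
      | exact congrArg (fun x => Sum.inr (Sum.inr x)) (hij' x y z (fun h => huv (by rw [h]))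
          (fun h => huw (by rw [h])) hr)
      | exact (cy_sb q hq4 x y (by assumption) z hr).elim
      | exact (cy_sb q hq4 x z (by assumption) y hr.symm).elim
      | exact (cy_sb q hq4 (τ x) (τ y) (by assumption) z hr).elim
      | exact (cy_sb q hq4 (τ x) (τ z) (by assumption) y hr.symm).elim
      | exact congrArg (fun x => Sum.inr (Sum.inr x)) (ad_inj_r (q - 2) x y z hr)
      | exact congrArg (fun x => Sum.inr (Sum.inl x)) (ad_inj_l (q - 2) y x z hr)
      | exact congrArg (fun x => Sum.inr (Sum.inl x)) (sb_inj_r q x y z hr)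
      | exact congrArg (fun x => Sum.inr (Sum.inr x)) (sb_inj_r q (τ x) y z hr)
      | exact congrArg Sum.inl (sb_inj_l q y z x hr)
      | exact congrArg Sum.inl (hτi _ _ (sb_inj_l q (τ y) (τ z) x hr))
  refine gen hCG (3 * q - 4) t hcard (by omega) (part q) g ![q, q, q - 2] ![q, q - 2, q]
    ![q - 5, q - 3, q - 3] (kd q τ) (rk q τ κ κ') ?_ hgt (by omega) ?_ ?_ ?_ ?_ ?_ ?_ ?_ ?_ ?_ ?_
  · intro i
    fin_cases i
    · exact ⟨Sum.inl ⟨0, by omega⟩, rfl⟩
    · exact ⟨Sum.inr (Sum.inl ⟨0, by omega⟩), rfl⟩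
    · exact ⟨Sum.inr (Sum.inr ⟨0, by omega⟩), rfl⟩
  · intro i
    fin_cases i
    · show q + q + (q - 5) + 1 = 3 * q - 4
      omega
    · show q + (q - 2) + (q - 3) + 1 = 3 * q - 4
      omega
    · show q - 2 + q + (q - 3) + 1 = 3 * q - 4
      omega
  · intro i
    fin_cases i
    · exact hg0.1
    · exact hg1.1
    · exact hg2.1
  · intro i
    fin_cases i
    · exact hg0.2
    · exact hg1.2
    · exact hg2.2
  · -- symmetry of the ranks
    rintro (x | x | x) (y | y | y) hxy <;> simp only [rk]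
    · rw [cycAdj_symm q y x, cycAdj_symm q (τ y) (τ x), hs y x, cy_symm q y x,
        cy_symm q (τ y) (τ x)]
    · exact hs' x y
    · exact hs' x y
  · rintro (x | x | x) (y | y | y) hxy hp <;> simp only [kd] <;> simp [part] at hp
    rw [cycAdj_symm q y x, cycAdj_symm q (τ y) (τ x)]
  · rintro (x | x | x) (y | y | y) hp <;> simp [part] at hp <;> simp [kd]
  · intro u v huv hk
    exact (hbd u v huv).1 hk
  · intro u v huv hk
    exact (hbd u v huv).2.1 hk
  · intro u v huv hk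
    exact (hbd u v huv).2.2 hk
  · exact hin

end Pool.Agent.T2H56.IC
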