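import Pool.Agent.T2H56.IC.Stm

set_option autoImplicit false

namespace Pool.Agent.T2H56.IC

open Finset

namespace CN

lemma part {N : ℕ} {κ : Fin N → Fin N → ℕ} (hb : ∀ i j, i ≠ j → κ i j + 1 < N)
    (hi : ∀ i j k, i ≠ j → i ≠ k → κ i j = κ i k → j = k) (i : Fin N) (c : ℕ) (hc : c + 1 < N) :
    ∃ j, i ≠ j ∧ κ i j = c := by
  classical
  have himg : (univ.erase i).image (κ i) = range (N - 1) := by
    apply Finset.eq_of_subset_of_card_le
    · intro x hx
      rw [mem_image] at hx
      obtain ⟨j, hj, rfl⟩ := hx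
      have := hb i j (fun h => (mem_erase.1 hj).1 h.symm)
      rw [mem_range]
      omega
    · rw [card_image_of_injOn, card_erase_of_mem (mem_univ _), card_range, card_univ,
        Fintype.card_fin]
      intro a ha b hb' hab
      have ha' := (mem_erase.1 (mem_coe.1 ha)).1
      have hb'' := (mem_erase.1 (mem_coe.1 hb')).1
      exact hi i a b (Ne.symm ha') (Ne.symm hb'') hab
  have : c ∈ (univ.erase i).image (κ i) := by rw [himg, mem_range]; omega
  rw [mem_image] at this
  obtain ⟨j, hj, h⟩ := this
  exact ⟨j, Ne.symm (mem_erase.1 hj).1, h⟩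

lemma deg (N : ℕ) (v : Fin N) : Nat.card ((KG N).neighborSet v) = N - 1 := by
  classical
  rw [Nat.card_eq_fintype_card, SimpleGraph.card_neighborSet_eq_degree,
    SimpleGraph.complete_graph_degree, Fintype.card_fin]

lemma eq_of_dvd {t : ℕ} {a b : ℤ} (h : (t : ℤ) ∣ a - b) (h1 : a - b < t) (h2 : b - a < t) :
    a = b := by
  have := Int.eq_zero_of_abs_lt_dvd h (abs_lt.2 ⟨by linarith, h1⟩)
  linarith

lemma red {t : ℕ} (ht : 1 ≤ t) (x : ℤ) : ∃ y : ℤ, 0 ≤ y ∧ y < t ∧ (t : ℤ) ∣ y - x := by
  refine ⟨x % t, Int.emod_nonneg x (by omega), Int.emod_lt_of_pos x (by omega), ?_⟩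
  refine ⟨-(x / t), ?_⟩
  have := Int.emod_add_mul_ediv x t
  linarith

/-- being the pair `{u, v}` -/
def pr {N : ℕ} (u v i j : Fin N) : Prop := (i = u ∧ j = v) ∨ (i = v ∧ j = u)

instance {N : ℕ} (u v i j : Fin N) : Decidable (pr u v i j) := by unfold pr; infer_instance

lemma pr_self {N : ℕ} (u v : Fin N) : pr u v u v := Or.inl ⟨rfl, rfl⟩

lemma pr_symm {N : ℕ} (u v i j : Fin N) : pr u v i j ↔ pr u v j i := by
  unfold pr; tauto

lemma case1 (hCG : S_CG) {N : ℕ} (hN : 6 ≤ N) {κ : Fin N → Fin N → ℕ}
    (hs : ∀ i j, κ i j = κ j i) (hb : ∀ i j, i ≠ j → κ i j + 1 < N)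
    (hi : ∀ i j k, i ≠ j → i ≠ k → κ i j = κ i k → j = k)
    (u v w : Fin N) (huv : u ≠ v) (h0 : κ u v = 0) (hwu : w ≠ u) (hwv : w ≠ v) :
    N ∈ FS (KG N) := by
  classical
  refine hCG (Fin N) (KG N) N (fun i j => if pr u v i j then (N : ℤ) - 1 else κ i j)
    (fun i => if i = u ∨ i = v then 1 else 0) (fun _ => N - 1) (by omega) ?_ (deg N) ?_ ?_ ?_
  · intro i j _
    rw [hs i j]
    simp only [pr_symm u v i j, sub_self, dvd_zero]
  · intro i j hij
    have hij' : i ≠ j := hij
    have hk := hb i j hij'
    have hcast : ((N - 1 : ℕ) : ℤ) = (N : ℤ) - 1 := by omega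
    simp only [hcast]
    by_cases hp : pr u v i j
    · have hiuv : i = u ∨ i = v := by
        rcases hp with h | h
        · exact Or.inl h.1
        · exact Or.inr h.1
      refine ⟨N - 2, by omega, by omega, ?_⟩
      rw [if_pos hp, if_pos hiuv]
      exact ⟨0, by ring⟩
    · by_cases hiuv : i = u ∨ i = v
      · have hne : κ i j ≠ 0 := by
          intro h
          apply hp
          rcases hiuv with rfl | rfl
          · left
            exact ⟨rfl, hi i j v hij' huv (by rw [h, h0])⟩
          · right
            exact ⟨rfl, hi i j u hij' (Ne.symm huv) (by rw [h, hs i u, h0])⟩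
        refine ⟨κ i j - 1, by omega, by omega, ?_⟩
        rw [if_neg hp, if_pos hiuv]
        exact ⟨0, by ring⟩
      · refine ⟨κ i j, by omega, by omega, ?_⟩
        rw [if_neg hp, if_neg hiuv]
        exact ⟨0, by ring⟩
  · intro i j k hij hik h
    have hij' : i ≠ j := hij
    have hik' : i ≠ k := hik
    have b1 := hb i j hij'
    have b2 := hb i k hik'
    beta_reduce at h
    by_cases hp : pr u v i j <;> by_cases hq : pr u v i k
    · rcases hp with hp | hp <;> rcases hq with hq | hq
      · rw [hp.2, hq.2]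
      · exact absurd (hp.1.symm.trans hq.1) huv
      · exact absurd (hq.1.symm.trans hp.1) huv
      · rw [hp.2, hq.2]
    · rw [if_pos hp, if_neg hq] at h
      have := eq_of_dvd h (by omega) (by omega)
      omega
    · rw [if_neg hp, if_pos hq] at h
      have := eq_of_dvd h (by omega) (by omega)
      omega
    · rw [if_neg hp, if_neg hq] at h
      have := eq_of_dvd h (by omega) (by omega)
      exact hi i j k hij' hik' (by exact_mod_cast this)
  · intro x
    obtain ⟨y, hy0, hyN, hyd⟩ := red (t := N) (by omega) x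
    suffices h : ∃ i j, i ≠ j ∧ (if pr u v i j then (N : ℤ) - 1 else (κ i j : ℤ)) = y by
      obtain ⟨i, j, hij, h⟩ := h
      refine ⟨i, j, hij, ?_⟩
      rw [h]
      exact hyd
    by_cases h1 : y = N - 1
    · exact ⟨u, v, huv, by rw [if_pos (pr_self u v), h1]⟩
    · obtain ⟨m, rfl⟩ := Int.eq_ofNat_of_zero_le hy0
      obtain ⟨j, hj, hjm⟩ := part hb hi w m (by omega)
      refine ⟨w, j, hj, ?_⟩
      have hn : ¬ pr u v w j := by
        rintro (h | h)
        · exact hwu h.1
        · exact hwv h.1
      rw [if_neg hn, hjm]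

lemma case2 (hCG : S_CG) {N : ℕ} (hN : 6 ≤ N) {κ : Fin N → Fin N → ℕ}
    (hs : ∀ i j, κ i j = κ j i) (hb : ∀ i j, i ≠ j → κ i j + 1 < N)
    (hi : ∀ i j k, i ≠ j → i ≠ k → κ i j = κ i k → j = k)
    (u v a b : Fin N) (huv : u ≠ v) (h0 : κ u v = 0) (hab : a ≠ b) (h2 : κ a b + 2 = N)
    (hau : a ≠ u) (hav : a ≠ v) (hbu : b ≠ u) (hbv : b ≠ v) :
    N + 1 ∈ FS (KG N) := by
  classical
  have hnn : ∀ i j, pr u v i j → ¬ pr a b i j := by
    rintro i j (h | h) (h' | h')
    · exact hau (h'.1.symm.trans h.1)
    · exact hbu (h'.1.symm.trans h.1)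
    · exact hav (h'.1.symm.trans h.1)
    · exact hbv (h'.1.symm.trans h.1)
  refine hCG (Fin N) (KG N) (N + 1)
    (fun i j => if pr u v i j then (N : ℤ) - 1 else if pr a b i j then (N : ℤ) else κ i j)
    (fun i => if i = u ∨ i = v then 1 else if i = a ∨ i = b then -1 else 0)
    (fun _ => N - 1) (by omega) ?_ (deg N) ?_ ?_ ?_
  · intro i j _
    rw [hs i j]
    simp only [pr_symm u v i j, pr_symm a b i j, sub_self, dvd_zero]
  · intro i j hij
    have hij' : i ≠ j := hij
    have hk := hb i j hij'
    have hcast : ((N - 1 : ℕ) : ℤ) = (N : ℤ) - 1 := by omega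
    simp only [hcast]
    push_cast
    by_cases hp : pr u v i j
    · have hiuv : i = u ∨ i = v := by
        rcases hp with h | h
        · exact Or.inl h.1
        · exact Or.inr h.1
      refine ⟨N - 2, by omega, by omega, ?_⟩
      rw [if_pos hp, if_pos hiuv]
      exact ⟨0, by ring⟩
    · by_cases hq : pr a b i j
      · have hiab : i = a ∨ i = b := by
          rcases hq with h | h
          · exact Or.inl h.1
          · exact Or.inr h.1
        have hiuv : ¬ (i = u ∨ i = v) := by
          rcases hiab with rfl | rfl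
          · rintro (h | h)
            · exact hau h
            · exact hav h
          · rintro (h | h)
            · exact hbu h
            · exact hbv h
        refine ⟨0, by omega, by omega, ?_⟩
        rw [if_neg hp, if_pos hq, if_neg hiuv, if_pos hiab]
        exact ⟨1, by ring⟩
      · by_cases hiuv : i = u ∨ i = v
        · have hne : κ i j ≠ 0 := by
            intro h
            apply hp
            rcases hiuv with rfl | rfl
            · left
              exact ⟨rfl, hi i j v hij' huv (by rw [h, h0])⟩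
            · right
              exact ⟨rfl, hi i j u hij' (Ne.symm huv) (by rw [h, hs i u, h0])⟩
          refine ⟨κ i j - 1, by omega, by omega, ?_⟩
          rw [if_neg hp, if_neg hq, if_pos hiuv]
          exact ⟨0, by ring⟩
        · by_cases hiab : i = a ∨ i = b
          · have hne : κ i j + 2 ≠ N := by
              intro h
              apply hq
              rcases hiab with rfl | rfl
              · left
                exact ⟨rfl, hi i j b hij' hab (by omega)⟩
              · right
                exact ⟨rfl, hi i j a hij' (Ne.symm hab) (by rw [hs i a]; omega)⟩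
            refine ⟨κ i j + 1, by omega, by omega, ?_⟩
            rw [if_neg hp, if_neg hq, if_neg hiuv, if_pos hiab]
            exact ⟨0, by ring⟩
          · refine ⟨κ i j, by omega, by omega, ?_⟩
            rw [if_neg hp, if_neg hq, if_neg hiuv, if_neg hiab]
            exact ⟨0, by ring⟩
  · intro i j k hij hik h
    have hij' : i ≠ j := hij
    have hik' : i ≠ k := hik
    have b1 := hb i j hij'
    have b2 := hb i k hik'
    beta_reduce at h
    by_cases hp : pr u v i j <;> by_cases hq : pr u v i k
    · rcases hp with hp | hp <;> rcases hq with hq | hq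
      · rw [hp.2, hq.2]
      · exact absurd (hp.1.symm.trans hq.1) huv
      · exact absurd (hq.1.symm.trans hp.1) huv
      · rw [hp.2, hq.2]
    · exfalso
      rw [if_pos hp, if_neg hq] at h
      split_ifs at h with hr
      · have := eq_of_dvd h (by push_cast; omega) (by push_cast; omega)
        omega
      · have := eq_of_dvd h (by push_cast; omega) (by push_cast; omega)
        omega
    · exfalso
      rw [if_neg hp, if_pos hq] at h
      split_ifs at h with hr
      · have := eq_of_dvd h (by push_cast; omega) (by push_cast; omega)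
        omega
      · have := eq_of_dvd h (by push_cast; omega) (by push_cast; omega)
        omega
    · rw [if_neg hp, if_neg hq] at h
      by_cases hp' : pr a b i j <;> by_cases hq' : pr a b i k
      · rcases hp' with hp' | hp' <;> rcases hq' with hq' | hq'
        · rw [hp'.2, hq'.2]
        · exact absurd (hp'.1.symm.trans hq'.1) hab
        · exact absurd (hq'.1.symm.trans hp'.1) hab
        · rw [hp'.2, hq'.2]
      · exfalso
        rw [if_pos hp', if_neg hq'] at h
        have := eq_of_dvd h (by push_cast; omega) (by push_cast; omega)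
        omega
      · exfalso
        rw [if_neg hp', if_pos hq'] at h
        have := eq_of_dvd h (by push_cast; omega) (by push_cast; omega)
        omega
      · rw [if_neg hp', if_neg hq'] at h
        have := eq_of_dvd h (by push_cast; omega) (by push_cast; omega)
        exact hi i j k hij' hik' (by exact_mod_cast this)
  · intro x
    obtain ⟨y, hy0, hyN, hyd⟩ := red (t := N + 1) (by omega) x
    suffices h : ∃ i j, i ≠ j ∧ (if pr u v i j then (N : ℤ) - 1 else if pr a b i j then (N : ℤ)
        else (κ i j : ℤ)) = y by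
      obtain ⟨i, j, hij, h⟩ := h
      refine ⟨i, j, hij, ?_⟩
      rw [h]
      exact hyd
    push_cast at hyN
    by_cases h1 : y = N - 1
    · exact ⟨u, v, huv, by rw [if_pos (pr_self u v), h1]⟩
    by_cases h3 : y = N
    · exact ⟨a, b, hab, by
        rw [if_neg (fun h => hnn a b h (Or.inl ⟨rfl, rfl⟩)), if_pos (pr_self a b), h3]⟩
    obtain ⟨m, rfl⟩ := Int.eq_ofNat_of_zero_le hy0
    by_cases h4 : m = 0
    · obtain ⟨j, hj, hjm⟩ := part hb hi a m (by omega)
      refine ⟨a, j, hj, ?_⟩
      have hn1 : ¬ pr u v a j := by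
        rintro (h | h)
        · exact hau h.1
        · exact hav h.1
      have hn2 : ¬ pr a b a j := by
        rintro (h | h)
        · rw [h.2] at hjm
          omega
        · exact hab h.1
      rw [if_neg hn1, if_neg hn2, hjm]
    · obtain ⟨j, hj, hjm⟩ := part hb hi u m (by omega)
      refine ⟨u, j, hj, ?_⟩
      have hn1 : ¬ pr u v u j := by
        rintro (h | h)
        · rw [h.2] at hjm
          omega
        · exact huv h.1
      have hn2 : ¬ pr a b u j := by
        rintro (h | h)
        · exact hau h.1.symm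
        · exact hbu h.1.symm
      rw [if_neg hn1, if_neg hn2, hjm]

end CN

theorem pCN : S_CN := by
  classical
  intro hCG hF1 N hN hE
  obtain ⟨κ, hs, hb, hi⟩ := hF1 N (by omega) hE
  have hi' : ∀ i j k, i ≠ j → i ≠ k → κ i j = κ i k → j = k := hi
  obtain ⟨v, huv, h0⟩ := CN.part hb hi' (⟨0, by omega⟩ : Fin N) 0 (by omega)
  set u : Fin N := ⟨0, by omega⟩ with hu
  obtain ⟨pu, hpu, hpu'⟩ := CN.part hb hi' u (N - 2) (by omega)
  obtain ⟨pv, hpv, hpv'⟩ := CN.part hb hi' v (N - 2) (by omega)
  have hcard : ∃ a : Fin N, a ∉ ({u, v, pu, pv} : Finset (Fin N)) := by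
    by_contra hcon
    push Not at hcon
    have h1 : (univ : Finset (Fin N)) ⊆ {u, v, pu, pv} := fun x _ => hcon x
    have h2 := card_le_card h1
    rw [card_univ, Fintype.card_fin] at h2
    have h3 : ({u, v, pu, pv} : Finset (Fin N)).card ≤ 4 := Finset.card_le_four
    omega
  obtain ⟨a, ha⟩ := hcard
  simp only [mem_insert, mem_singleton, not_or] at ha
  obtain ⟨hau, hav, hapu, hapv⟩ := ha
  obtain ⟨b, hab, hb2⟩ := CN.part hb hi' a (N - 2) (by omega)
  refine ⟨CN.case1 hCG hN hs hb hi' u v a huv h0 hau hav,
    CN.case2 hCG hN hs hb hi' u v a b huv h0 hab (by omega) hau hav ?_ ?_⟩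
  · rintro rfl
    exact hapu (hi' _ _ _ (Ne.symm hau) hpu (by rw [hs, hb2, hpu']))
  · rintro rfl
    exact hapv (hi' _ _ _ (Ne.symm hav) hpv (by rw [hs, hb2, hpv']))

end Pool.Agent.T2H56.IC
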