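import Pool.Agent.T2H56.IC.PF3

/-! Package F2 (helper13): pF2 is in PF3.lean. -/
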