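import Pool.Agent.T2H56.IC.Stm

/-!
# Package K3: three classes
-/

namespace Pool.Agent.T2H56.IC

namespace K3

open Finset

lemma exists_min (N : ℕ) (s : Fin N → ℤ) (u : Fin N) :
    ∃ m, A N s m = A N s u ∧ ∀ x, A N s x = A N s u → s m ≤ s x := by
  obtain ⟨m, hm, hmin⟩ := Finset.exists_min_image (univ.filter (fun x => A N s x = A N s u)) s
    ⟨u, by simp⟩
  refine ⟨m, by simpa using hm, ?_⟩
  intro x hx
  exact hmin x (by simpa using hx)

lemma Low_congr (N : ℕ) (s : Fin N → ℤ) {u v : Fin N} (h : A N s u = A N s v) :
    Low N s u = Low N s v := by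
  unfold Low
  rw [h]

lemma K_cases (N : ℕ) (s : Fin N → ℤ) (u v : Fin N) :
    K N s u v = 1 ∨ K N s u v = -1 ∨ K N s u v = 0 := by
  unfold K
  split_ifs <;> simp

lemma K_le (N : ℕ) (hN : 4 ≤ N) (s : Fin N → ℤ) (u v : Fin N) (h : s u < s v) :
    K N s u v = -1 ∨ K N s u v = 0 := by
  unfold K
  split_ifs with h1 h2
  · omega
  · simp
  · simp

end K3

open Finset in
theorem pK3 : S_K3 := by
  intro hKM hKS hKP hKG N t s p hN ht hC hcong hOS hNT hSort hLam
  obtain ⟨m1, m2, m3, m4, m5, m6⟩ := hKM N s (by omega) hOS
  obtain ⟨ks1, -, -, -, -⟩ := hKS N s (by omega)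
  have hP := hKP hKM N s hN hOS hNT
  have hG := hKG hKM N t s p hN hC hcong hOS hNT hSort
  choose m hm1 hm2 using K3.exists_min N s
  -- `K` is constant on classes
  have kc : ∀ u u' v v', A N s u = A N s u' → A N s v = A N s v' → K N s u v = K N s u' v' := by
    intro u u' v v' h1 h2
    have e1 : K N s u v = K N s u v' := (m5 v v' h2).2 u
    have e2 : K N s v' u = K N s v' u' := (m5 u u' h1).2 v'
    have e3 := ks1 u v'
    have e4 := ks1 u' v'
    omega
  have key : ∀ u v, A N s u < A N s v →
      (K N s u v = 0 ∧ (s (m v) - A N s v - Low N s v) - (s (m u) - A N s u - Low N s u) = -1) ∨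
      (K N s u v = -1 ∧ (s (m v) - A N s v - Low N s v) - (s (m u) - A N s u - Low N s u) = -2) := by
    intro u v huv
    have hA : A N s (m u) < A N s (m v) := by rw [hm1, hm1]; exact huv
    have h1 := hP (m u) (m v) hA
    have h2 := hG (m u) (m v) hA (fun x hx => hm2 u x (hx.trans (hm1 u)))
      (fun x hx => hm2 v x (hx.trans (hm1 v)))
    have h3 := m6 (m u) (m v) hA
    have h4 := kc (m u) u (m v) v (hm1 u) (hm1 v)
    have h5 := K3.Low_congr N s (hm1 u)
    have h6 := K3.Low_congr N s (hm1 v)
    have h7 := hm1 u
    have h8 := hm1 v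
    rcases K3.K_le N hN s (m u) (m v) h3 with h9 | h9
    · right
      rw [h9] at h1 h2
      rw [if_neg (by norm_num)] at h1
      refine ⟨by rw [← h4]; exact h9, ?_⟩
      have ht' : (t : ℤ) = 2 * N - 3 := by omega
      rw [ht'] at h2
      linarith
    · left
      rw [h9] at h1 h2
      rw [if_pos rfl] at h1
      refine ⟨by rw [← h4]; exact h9, ?_⟩
      linarith
  -- a pair with `K = -1`
  obtain ⟨u0, v0, huv0⟩ : ∃ u0 v0, K N s u0 v0 = -1 := by
    by_contra hne
    push Not at hne
    have h0 : ∀ u v, K N s u v = 0 := by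
      intro u v
      rcases K3.K_cases N s u v with h | h | h
      · exfalso
        apply hne v u
        rw [ks1 u v, h]
      · exact absurd h (hne u v)
      · exact h
    have : Lam N s = 0 := by
      unfold Lam
      apply Finset.sum_eq_zero
      intro u _
      apply Finset.sum_eq_zero
      intro v _
      rw [h0 u v, mul_zero]
    omega
  have hlt0 : A N s u0 < A N s v0 := by
    have hs : s u0 ≤ s v0 := by
      unfold K at huv0
      split_ifs at huv0 with h1 h2
      omega
    have h1 := m3 u0 v0 hs
    rcases lt_or_eq_of_le h1 with h2 | h2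
    · exact h2
    · exfalso
      have h3 := (m5 u0 v0 h2).1
      have h4 := ks1 u0 v0
      omega
  -- a third class
  obtain ⟨x0, hx1, hx2⟩ : ∃ x0, A N s x0 ≠ A N s u0 ∧ A N s x0 ≠ A N s v0 := by
    by_contra hne
    push Not at hne
    have hsum : A N s v0 - A N s u0 = N := by
      unfold A
      rw [← Finset.sum_sub_distrib]
      have : ∀ x ∈ (univ : Finset (Fin N)), K N s v0 x - K N s u0 x = 1 := by
        intro x _
        by_cases hx : A N s x = A N s u0
        · have e1 := kc v0 v0 x u0 rfl hx
          have e2 := (m5 x u0 hx).1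
          have e3 := ks1 u0 v0
          omega
        · have hx' := hne x hx
          have e1 := kc u0 u0 x v0 rfl hx'
          have e2 := (m5 x v0 hx').1
          omega
      rw [Finset.sum_congr rfl this]
      simp
    have := hNT v0 u0
    omega
  have hmid : A N s u0 < A N s x0 ∧ A N s x0 < A N s v0 := by
    rcases lt_or_gt_of_ne hx1 with h1 | h1
    · exfalso
      have a := key x0 u0 h1
      have b := key x0 v0 (by omega)
      have c := key u0 v0 hlt0
      omega
    · refine ⟨h1, ?_⟩
      rcases lt_or_gt_of_ne hx2 with h2 | h2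
      · exact h2
      · exfalso
        have a := key u0 x0 h1
        have b := key v0 x0 h2
        have c := key u0 v0 hlt0
        omega
  obtain ⟨hl1, hl2⟩ := hmid
  have k1 := key u0 x0 hl1
  have k2 := key x0 v0 hl2
  have k3 := key u0 v0 hlt0
  have hall : ∀ y, A N s y = A N s u0 ∨ A N s y = A N s x0 ∨ A N s y = A N s v0 := by
    intro y
    by_contra hne
    push Not at hne
    obtain ⟨n1, n2, n3⟩ := hne
    rcases lt_or_gt_of_ne n1 with h1 | h1
    · have a := key y u0 h1
      have b := key y v0 (by omega)
      omega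
    · rcases lt_or_gt_of_ne n2 with h2 | h2
      · have a := key u0 y h1
        have b := key y x0 h2
        have c := key y v0 (by omega)
        omega
      · rcases lt_or_gt_of_ne n3 with h3 | h3
        · have a := key u0 y h1
          have b := key x0 y h2
          have c := key y v0 h3
          omega
        · have b := key v0 y h3
          have c := key u0 y h1
          omega
  refine ⟨univ.filter (fun x => A N s x = A N s u0), univ.filter (fun x => A N s x = A N s x0),
    univ.filter (fun x => A N s x = A N s v0), ⟨u0, by simp⟩, ⟨x0, by simp⟩, ⟨v0, by simp⟩,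
    ?_, ?_, ?_, ?_, ?_, ?_, ?_, ?_⟩
  · rw [Finset.disjoint_filter]
    intro x _ h1 h2
    omega
  · rw [Finset.disjoint_filter]
    intro x _ h1 h2
    omega
  · rw [Finset.disjoint_filter]
    intro x _ h1 h2
    omega
  · ext y
    simp only [mem_union, mem_filter, mem_univ, true_and, iff_true]
    rcases hall y with h | h | h
    · exact Or.inl (Or.inl h)
    · exact Or.inl (Or.inr h)
    · exact Or.inr h
  · intro u hu v hv
    simp only [mem_filter, mem_univ, true_and] at hu hv
    exact (m5 v u (hv.trans hu.symm)).1
  · intro u hu v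
    simp only [mem_filter, mem_univ, true_and] at hu
    rcases hall v with h | h | h
    · have e := kc u x0 v u0 hu h
      have e2 := ks1 x0 u0
      omega
    · exact (m5 v u (h.trans hu.symm)).1
    · have e := kc u x0 v v0 hu h
      omega
  · intro u hu v hv
    simp only [mem_filter, mem_univ, true_and] at hu hv
    exact (m5 v u (hv.trans hu.symm)).1
  · intro u hu v hv
    simp only [mem_filter, mem_univ, true_and] at hu hv
    rw [kc u u0 v v0 hu hv]
    exact huv0

end Pool.Agent.T2H56.IC
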