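import Pool.Agent.T2H56.IC.Stm

/-!
# Package KC: the cost identity
-/

namespace Pool.Agent.T2H56.IC

open Finset

namespace KC

private lemma k_anti (N : ℕ) (hN : 2 ≤ N) (s : Fin N → ℤ) (u v : Fin N) :
    K N s v u = - K N s u v := by
  have h2 : (2 : ℤ) ≤ N := by exact_mod_cast hN
  unfold K
  split_ifs <;> first | rfl | (exfalso; omega)

private lemma k_self (N : ℕ) (hN : 2 ≤ N) (s : Fin N → ℤ) (u : Fin N) :
    K N s u u = 0 := by
  have h := k_anti N hN s u u
  linarith

private lemma k_val (N : ℕ) (s : Fin N → ℤ) (u v : Fin N) :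
    K N s u v = 0 ∨ K N s u v = 1 ∨ K N s u v = -1 := by
  unfold K
  split_ifs <;> simp

private lemma colsum (N : ℕ) (hN : 2 ≤ N) (s : Fin N → ℤ) (v : Fin N) :
    ∑ u, K N s u v = - A N s v := by
  unfold A
  rw [← Finset.sum_neg_distrib]
  exact Finset.sum_congr rfl fun u _ => k_anti N hN s v u

private lemma sumA (N : ℕ) (hN : 2 ≤ N) (s : Fin N → ℤ) : ∑ v, A N s v = 0 := by
  have h1 : ∑ v, A N s v = ∑ v, ∑ u, K N s v u := rfl
  have h2 : ∑ v, ∑ u, K N s v u = ∑ u, ∑ v, K N s v u := Finset.sum_comm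
  have h3 : ∑ u, ∑ v, K N s v u = ∑ u, - A N s u :=
    Finset.sum_congr rfl fun u _ => colsum N hN s u
  rw [Finset.sum_neg_distrib] at h3
  linarith

/-- `∑∑ K u v (A u - A v) = 2 ∑ A²` -/
private lemma sumKA (N : ℕ) (hN : 2 ≤ N) (s : Fin N → ℤ) :
    ∑ u, ∑ v, K N s u v * (A N s u - A N s v) = 2 * ∑ u, (A N s u) ^ 2 := by
  have h1 : ∑ u, ∑ v, K N s u v * A N s u = ∑ u, (A N s u) ^ 2 := by
    refine Finset.sum_congr rfl fun u _ => ?_
    rw [← Finset.sum_mul, sq]
    rfl
  have h2 : ∑ u, ∑ v, K N s u v * A N s v = - ∑ u, (A N s u) ^ 2 := by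
    rw [Finset.sum_comm, ← Finset.sum_neg_distrib]
    refine Finset.sum_congr rfl fun v _ => ?_
    rw [← Finset.sum_mul, colsum N hN s v]
    ring
  have h3 : ∑ u, ∑ v, K N s u v * (A N s u - A N s v)
      = ∑ u, ∑ v, K N s u v * A N s u - ∑ u, ∑ v, K N s u v * A N s v := by
    rw [← Finset.sum_sub_distrib]
    refine Finset.sum_congr rfl fun u _ => ?_
    rw [← Finset.sum_sub_distrib]
    exact Finset.sum_congr rfl fun v _ => by ring
  rw [h3, h1, h2]
  ring

private lemma lam_eq (N : ℕ) (hN : 2 ≤ N) (s : Fin N → ℤ) :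
    Lam N s = N * (∑ u, ∑ v, (K N s u v) ^ 2) - 2 * ∑ u, (A N s u) ^ 2 := by
  rw [← sumKA N hN s, Finset.mul_sum, ← Finset.sum_sub_distrib]
  unfold Lam
  refine Finset.sum_congr rfl fun u _ => ?_
  rw [Finset.mul_sum, ← Finset.sum_sub_distrib]
  refine Finset.sum_congr rfl fun v _ => ?_
  unfold W
  ring

/-- `∑∑ (A v - A v')² = 2 N B` -/
private lemma sumAA (N : ℕ) (hN : 2 ≤ N) (s : Fin N → ℤ) :
    ∑ v, ∑ v', (A N s v - A N s v') ^ 2 = 2 * N * ∑ u, (A N s u) ^ 2 := by
  have h0 := sumA N hN s
  have h1 : ∀ v, ∑ v', (A N s v - A N s v') ^ 2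
      = N * (A N s v) ^ 2 + ∑ u, (A N s u) ^ 2 := by
    intro v
    have : ∀ v', (A N s v - A N s v') ^ 2
        = (A N s v) ^ 2 - 2 * A N s v * A N s v' + (A N s v') ^ 2 := fun v' => by ring
    simp only [this, Finset.sum_add_distrib, Finset.sum_sub_distrib, ← Finset.mul_sum, h0]
    simp
  simp only [h1, Finset.sum_add_distrib, ← Finset.mul_sum]
  simp
  ring

/-- by one-sidedness the absolute differences in a row of `K` are their own squares -/
private lemma absrow (N : ℕ) (s : Fin N → ℤ) (hos : OS N s) (u v v' : Fin N) :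
    |K N s u v - K N s u v'| = (K N s u v - K N s u v') ^ 2 := by
  have h1 := k_val N s u v
  have h2 := k_val N s u v'
  have h3 := hos u v v'
  have h4 := hos u v' v
  rcases h1 with h1 | h1 | h1 <;> rcases h2 with h2 | h2 | h2 <;> rw [h1, h2] <;>
    first | exact (h3 h1 h2).elim | exact (h4 h2 h1).elim | rfl

private lemma rowsq (N : ℕ) (s : Fin N → ℤ) (u : Fin N) :
    ∑ v, ∑ v', (K N s u v - K N s u v') ^ 2
      = 2 * N * (∑ v, (K N s u v) ^ 2) - 2 * (A N s u) ^ 2 := by
  have hA : ∑ v, K N s u v = A N s u := rfl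
  have h1 : ∀ v, ∑ v', (K N s u v - K N s u v') ^ 2
      = N * (K N s u v) ^ 2 - 2 * A N s u * K N s u v + ∑ w, (K N s u w) ^ 2 := by
    intro v
    have : ∀ v', (K N s u v - K N s u v') ^ 2
        = (K N s u v) ^ 2 - 2 * K N s u v * K N s u v' + (K N s u v') ^ 2 := fun v' => by ring
    simp only [this, Finset.sum_add_distrib, Finset.sum_sub_distrib, ← Finset.mul_sum, hA]
    simp
    ring
  simp only [h1, Finset.sum_add_distrib, Finset.sum_sub_distrib, ← Finset.mul_sum, hA]
  simp
  ring

/-- `|A v - A v'| = ∑ u |K u v - K u v'|` -/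
private lemma absA (hKM : S_KM) (N : ℕ) (hN : 2 ≤ N) (s : Fin N → ℤ) (hos : OS N s)
    (v v' : Fin N) :
    |A N s v - A N s v'| = ∑ u, |K N s u v - K N s u v'| := by
  obtain ⟨m1, -, -, -, -, -⟩ := hKM N s hN hos
  have key : ∀ v v', s v ≤ s v' → |A N s v - A N s v'| = ∑ u, |K N s u v - K N s u v'| := by
    intro v v' hs
    have h1 : ∀ u, |K N s u v - K N s u v'| = K N s u v - K N s u v' := fun u =>
      abs_of_nonneg (by have := m1 v v' u hs; linarith)
    have h2 : ∑ u, |K N s u v - K N s u v'| = A N s v' - A N s v := by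
      simp only [h1, Finset.sum_sub_distrib]
      rw [colsum N hN, colsum N hN]
      ring
    have h3 : 0 ≤ A N s v' - A N s v := by
      rw [← h2]
      exact Finset.sum_nonneg fun u _ => abs_nonneg _
    rw [h2, abs_sub_comm, abs_of_nonneg h3]
  rcases le_total (s v) (s v') with h | h
  · exact key v v' h
  · have := key v' v h
    rw [abs_sub_comm, this]
    exact Finset.sum_congr rfl fun u _ => abs_sub_comm _ _

private lemma sumabsA (hKM : S_KM) (N : ℕ) (hN : 2 ≤ N) (s : Fin N → ℤ) (hos : OS N s) :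
    ∑ v, ∑ v', |A N s v - A N s v'|
      = 2 * N * (∑ u, ∑ v, (K N s u v) ^ 2) - 2 * ∑ u, (A N s u) ^ 2 := by
  have h1 : ∑ v, ∑ v', |A N s v - A N s v'|
      = ∑ u, ∑ v, ∑ v', (K N s u v - K N s u v') ^ 2 := by
    calc ∑ v, ∑ v', |A N s v - A N s v'|
        = ∑ v, ∑ v', ∑ u, (K N s u v - K N s u v') ^ 2 := by
          refine Finset.sum_congr rfl fun v _ => Finset.sum_congr rfl fun v' _ => ?_
          rw [absA hKM N hN s hos v v']
          exact Finset.sum_congr rfl fun u _ => absrow N s hos u v v'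
      _ = ∑ v, ∑ u, ∑ v', (K N s u v - K N s u v') ^ 2 :=
          Finset.sum_congr rfl fun v _ => Finset.sum_comm
      _ = ∑ u, ∑ v, ∑ v', (K N s u v - K N s u v') ^ 2 := Finset.sum_comm
  rw [h1]
  simp only [rowsq, Finset.sum_sub_distrib, ← Finset.mul_sum]

/-- the local cost -/
private lemma local_cost (hKM : S_KM) (N : ℕ) (hN : 2 ≤ N) (s : Fin N → ℤ) (hos : OS N s)
    (v v' : Fin N) :
    ∑ u, (if u ≠ v ∧ u ≠ v' then |W N s u v - W N s u v'| else 0)
      = 2 * ((N : ℤ) - 1) * |A N s v - A N s v'| - 2 * (A N s v - A N s v') ^ 2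
        - 2 * N * (K N s v v') ^ 2 + 4 * (K N s v v' * (A N s v - A N s v')) := by
  obtain ⟨m1, m2, m3, m4, -, -⟩ := hKM N s hN hos
  have key : ∀ v v', v ≠ v' → s v ≤ s v' →
      ∑ u, (if u ≠ v ∧ u ≠ v' then |W N s u v - W N s u v'| else 0)
      = 2 * ((N : ℤ) - 1) * |A N s v - A N s v'| - 2 * (A N s v - A N s v') ^ 2
        - 2 * N * (K N s v v') ^ 2 + 4 * (K N s v v' * (A N s v - A N s v')) := by
    intro v v' hne hs
    have hD0 : 0 ≤ A N s v' - A N s v := by have := m3 v v' hs; linarith
    have hDN : A N s v' - A N s v ≤ N := m4 v v'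
    have hkv : K N s v v' ≤ 0 := by
      have := m1 v v' v' hs
      rw [k_self N hN, k_anti N hN s v v'] at this
      linarith
    have hk2 : (K N s v v') ^ 2 = - K N s v v' := by
      rcases k_val N s v v' with h | h | h
      · rw [h]; norm_num
      · rw [h] at hkv; norm_num at hkv
      · rw [h]; norm_num
    have habs : |A N s v - A N s v'| = A N s v' - A N s v := by
      rw [abs_sub_comm, abs_of_nonneg hD0]
    have hterm : ∀ u, (if u ≠ v ∧ u ≠ v' then |W N s u v - W N s u v'| else 0)
        = (if u ≠ v ∧ u ≠ v' then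
          ((K N s u v - K N s u v') * ((N : ℤ) - 2 * (A N s v' - A N s v))
            + (A N s v' - A N s v)) else 0) := by
      intro u
      split_ifs with hu
      · have hd0 : 0 ≤ K N s u v - K N s u v' := by have := m1 v v' u hs; linarith
        have hd1 : K N s u v - K N s u v' ≤ 1 := by
          rcases m2 v v' u hs with h | h | h
          · exact h
          · exact (hu.1 h).elim
          · exact (hu.2 h).elim
        have hW : W N s u v - W N s u v'
            = N * (K N s u v - K N s u v') - (A N s v' - A N s v) := by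
          unfold W; ring
        have hd : K N s u v - K N s u v' = 0 ∨ K N s u v - K N s u v' = 1 := by omega
        rw [hW]
        rcases hd with hd | hd
        · rw [hd]
          simp only [mul_zero, zero_sub, abs_neg, zero_mul, zero_add]
          exact abs_of_nonneg hD0
        · rw [hd, abs_of_nonneg (by linarith)]
          ring
      · rfl
    simp only [hterm]
    rw [← Finset.sum_filter]
    have hfil : (univ.filter fun u : Fin N => u ≠ v ∧ u ≠ v') = (univ.erase v).erase v' := by
      ext u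
      simp [and_comm]
    rw [hfil, Finset.sum_add_distrib, ← Finset.sum_mul, Finset.sum_const]
    have hv' : v' ∈ univ.erase v := by simp [hne.symm]
    have hcard : ((univ.erase v).erase v').card = N - 2 := by
      rw [Finset.card_erase_of_mem hv', Finset.card_erase_of_mem (mem_univ v)]
      simp only [card_univ, Fintype.card_fin]
      omega
    have hsum : ∑ u ∈ (univ.erase v).erase v', (K N s u v - K N s u v')
        = (A N s v' - A N s v) + 2 * K N s v v' := by
      have e1 := Finset.sum_erase_add (univ.erase v) (fun u => K N s u v - K N s u v') hv'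
      have e2 := Finset.sum_erase_add univ (fun u => K N s u v - K N s u v') (mem_univ v)
      have e3 : ∑ u, (K N s u v - K N s u v') = A N s v' - A N s v := by
        rw [Finset.sum_sub_distrib, colsum N hN, colsum N hN]
        ring
      simp only [k_self N hN] at e1 e2
      have e4 := k_anti N hN s v v'
      rw [e4] at e1
      linarith
    rw [hsum, hcard, habs, nsmul_eq_mul, Nat.cast_sub hN, hk2]
    push_cast
    ring
  rcases eq_or_ne v v' with h | h
  · subst h
    simp [k_self N hN]
  · rcases le_total (s v) (s v') with hs | hs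
    · exact key v v' h hs
    · have e := key v' v h.symm hs
      have e1 : ∑ u, (if u ≠ v ∧ u ≠ v' then |W N s u v - W N s u v'| else 0)
          = ∑ u, (if u ≠ v' ∧ u ≠ v then |W N s u v' - W N s u v| else 0) := by
        refine Finset.sum_congr rfl fun u _ => ?_
        rw [abs_sub_comm]
        simp only [and_comm]
      rw [e1, e, abs_sub_comm (A N s v') (A N s v), k_anti N hN s v v']
      ring

end KC

theorem pKC : S_KC := by
  intro hKM N s hN hos
  have h1 : ∑ u, ∑ v ∈ univ.erase u, ∑ v' ∈ univ.erase u, |W N s u v - W N s u v'|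
      = ∑ v, ∑ v', ∑ u, (if u ≠ v ∧ u ≠ v' then |W N s u v - W N s u v'| else 0) := by
    have e1 : ∀ u : Fin N, ∑ v ∈ univ.erase u, ∑ v' ∈ univ.erase u, |W N s u v - W N s u v'|
        = ∑ v, ∑ v', (if u ≠ v ∧ u ≠ v' then |W N s u v - W N s u v'| else 0) := by
      intro u
      have e2 : univ.erase u = univ.filter (fun v : Fin N => u ≠ v) := by
        ext v
        simp [eq_comm]
      rw [e2, Finset.sum_filter]
      refine Finset.sum_congr rfl fun v _ => ?_
      rw [Finset.sum_filter]
      split_ifs with h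
      · refine Finset.sum_congr rfl fun v' _ => ?_
        simp [h]
      · simp [h]
    simp only [e1]
    calc ∑ u, ∑ v, ∑ v', (if u ≠ v ∧ u ≠ v' then |W N s u v - W N s u v'| else 0)
        = ∑ v, ∑ u, ∑ v', (if u ≠ v ∧ u ≠ v' then |W N s u v - W N s u v'| else 0) :=
          Finset.sum_comm
      _ = ∑ v, ∑ v', ∑ u, (if u ≠ v ∧ u ≠ v' then |W N s u v - W N s u v'| else 0) :=
          Finset.sum_congr rfl fun v _ => Finset.sum_comm
  rw [h1]
  simp only [KC.local_cost hKM N hN s hos, Finset.sum_add_distrib, Finset.sum_sub_distrib,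
    ← Finset.mul_sum]
  rw [KC.sumabsA hKM N hN s hos, KC.sumAA N hN s, KC.sumKA N hN s, KC.lam_eq N hN s]
  ring

end Pool.Agent.T2H56.IC
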