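import Pool.Agent.T2H56.IC.Stm

/-! # IC, package KE (helper21) -/

set_option autoImplicit false

namespace Pool.Agent.T2H56.IC

open Finset

theorem pKE : S_KE := by
  intro hKS N t s p hN hp
  obtain ⟨-, hW, hrow, -, -⟩ := hKS N s hN
  have hcol : ∀ v, ∑ u, W N s u v = 0 := by
    intro v
    have h1 := hrow v
    have h2 : ∑ u, W N s u v = -∑ u, W N s v u := by
      rw [← Finset.sum_neg_distrib]
      exact Finset.sum_congr rfl fun u _ => hW v u
    rw [h2, h1, neg_zero]
  have h1 : ∑ u, ∑ v, W N s u v * p u v = -∑ u, ∑ v, W N s u v * p v u := by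
    rw [Finset.sum_comm, ← Finset.sum_neg_distrib]
    refine Finset.sum_congr rfl fun v _ => ?_
    rw [← Finset.sum_neg_distrib]
    refine Finset.sum_congr rfl fun u _ => ?_
    rw [hW v u]
    ring
  have h2 : ∀ u v, W N s u v * p u v - W N s u v * p v u =
      t * (W N s u v * K N s u v) - W N s u v * s u + W N s u v * s v := by
    intro u v
    by_cases h : u = v
    · subst h
      have h3 := hW u u
      have h4 : W N s u u = 0 := by linarith
      rw [h4]
      ring
    · have h3 := hp u v h
      linear_combination (W N s u v) * h3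
  have h3 : 2 * (∑ u, ∑ v, W N s u v * p u v) =
      ∑ u, ∑ v, (W N s u v * p u v - W N s u v * p v u) := by
    simp only [Finset.sum_sub_distrib]
    linarith
  rw [h3]
  have h4 : ∑ u, ∑ v, (W N s u v * p u v - W N s u v * p v u) =
      ∑ u, ∑ v, (t * (W N s u v * K N s u v) - W N s u v * s u + W N s u v * s v) :=
    Finset.sum_congr rfl fun u _ => Finset.sum_congr rfl fun v _ => h2 u v
  rw [h4]
  simp only [Finset.sum_add_distrib, Finset.sum_sub_distrib, ← Finset.mul_sum, ← Finset.sum_mul, hrow]
  have h5 : ∑ u, ∑ v, W N s u v * s v = 0 := by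
    rw [Finset.sum_comm]
    refine Finset.sum_eq_zero fun v _ => ?_
    rw [← Finset.sum_mul, hcol v, zero_mul]
  rw [h5]
  unfold Lam
  simp

end Pool.Agent.T2H56.IC
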