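import Pool.Agent.T2H56.IC.Stm

/-!
# Package KF: the three classes have equal sizes
-/

namespace Pool.Agent.T2H56.IC

open Finset

namespace KF

/-- a bijection onto an initial interval which respects a decomposition into two parts -/
theorem block {N : ℕ} (S1 S2 : Finset (Fin N)) (f : Fin N → ℤ) (n : ℕ)
    (hd : Disjoint S1 S2) (hn : S1.card + S2.card = n)
    (hinj : ∀ v ∈ S1 ∪ S2, ∀ w ∈ S1 ∪ S2, f v = f w → v = w)
    (h0 : ∀ v ∈ S1 ∪ S2, 0 ≤ f v) (h1 : ∀ v ∈ S1 ∪ S2, f v < n)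
    (hlt : ∀ v ∈ S1, ∀ w ∈ S2, f v < f w) :
    (∀ v ∈ S1, f v < S1.card) ∧ (∀ w ∈ S2, (S1.card : ℤ) ≤ f w) ∧
    (∀ c : ℤ, 0 ≤ c → c < S1.card → ∃ v ∈ S1, f v = c) ∧
    (∀ c : ℤ, (S1.card : ℤ) ≤ c → c < n → ∃ v ∈ S2, f v = c) := by
  classical
  have himg : (S1 ∪ S2).image f = Finset.Ico (0:ℤ) n := by
    apply Finset.eq_of_subset_of_card_le
    · intro x hx
      rw [Finset.mem_image] at hx
      obtain ⟨v, hv, rfl⟩ := hx
      exact Finset.mem_Ico.mpr ⟨h0 v hv, h1 v hv⟩
    · rw [Finset.card_image_of_injOn (fun v hv w hw h => hinj v hv w hw h),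
        Finset.card_union_of_disjoint hd, hn]
      simp
  have hsurj : ∀ c : ℤ, 0 ≤ c → c < n → ∃ v ∈ S1 ∪ S2, f v = c := by
    intro c hc0 hc1
    have h : c ∈ (S1 ∪ S2).image f := by
      rw [himg]; exact Finset.mem_Ico.mpr ⟨hc0, hc1⟩
    obtain ⟨v, hv, hvc⟩ := Finset.mem_image.mp h
    exact ⟨v, hv, hvc⟩
  have a1 : ∀ v ∈ S1, f v < S1.card := by
    intro v hv
    have hsub : Finset.Icc (0:ℤ) (f v) ⊆ S1.image f := by
      intro c hc
      rw [Finset.mem_Icc] at hc
      obtain ⟨z, hz, hzc⟩ := hsurj c hc.1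
        (lt_of_le_of_lt hc.2 (h1 v (Finset.mem_union_left _ hv)))
      rcases Finset.mem_union.mp hz with h | h
      · exact Finset.mem_image.mpr ⟨z, h, hzc⟩
      · have := hlt v hv z h
        omega
    have h2 := (Finset.card_le_card hsub).trans Finset.card_image_le
    rw [Int.card_Icc] at h2
    have h0v := h0 v (Finset.mem_union_left _ hv)
    omega
  have a2 : ∀ w ∈ S2, (S1.card : ℤ) ≤ f w := by
    intro w hw
    have hsub : Finset.Ico (f w) (n:ℤ) ⊆ S2.image f := by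
      intro c hc
      rw [Finset.mem_Ico] at hc
      obtain ⟨z, hz, hzc⟩ := hsurj c
        (le_trans (h0 w (Finset.mem_union_right _ hw)) hc.1) hc.2
      rcases Finset.mem_union.mp hz with h | h
      · have := hlt z h w hw
        omega
      · exact Finset.mem_image.mpr ⟨z, h, hzc⟩
    have h2 := (Finset.card_le_card hsub).trans Finset.card_image_le
    rw [Int.card_Ico] at h2
    have h1w := h1 w (Finset.mem_union_right _ hw)
    omega
  refine ⟨a1, a2, ?_, ?_⟩
  · intro c hc0 hc1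
    obtain ⟨z, hz, hzc⟩ := hsurj c hc0 (by omega)
    rcases Finset.mem_union.mp hz with h | h
    · exact ⟨z, h, hzc⟩
    · have := a2 z h
      omega
  · intro c hc0 hc1
    obtain ⟨z, hz, hzc⟩ := hsurj c (by omega) hc1
    rcases Finset.mem_union.mp hz with h | h
    · have := a1 z h
      omega
    · exact ⟨z, h, hzc⟩

/-- the row of `u` consists of three blocks -/
structure Row {N : ℕ} (p : Fin N → Fin N → ℤ) (P O Q : Finset (Fin N)) (u : Fin N) : Prop where
  p1 : ∀ v ∈ P, p u v < P.card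
  p0 : ∀ v ∈ P, 0 ≤ p u v
  ps : ∀ c : ℤ, 0 ≤ c → c < P.card → ∃ v ∈ P, p u v = c
  o1 : ∀ v ∈ O, v ≠ u → (P.card : ℤ) ≤ p u v
  os : ∀ c : ℤ, (P.card : ℤ) ≤ c → c < P.card + O.card - 1 → ∃ v ∈ O, v ≠ u ∧ p u v = c
  q1 : ∀ v ∈ Q, (P.card : ℤ) + O.card - 1 ≤ p u v
  q2 : ∀ v ∈ Q, p u v < N - 1
  qs : ∀ c : ℤ, (P.card : ℤ) + O.card - 1 ≤ c → c < N - 1 → ∃ v ∈ Q, p u v = c

theorem row {N : ℕ} (hN : 4 ≤ N) (p : Fin N → Fin N → ℤ) (P O Q : Finset (Fin N)) (u : Fin N)
    (hPO : Disjoint P O) (hPQ : Disjoint P Q) (hOQ : Disjoint O Q) (hU : P ∪ O ∪ Q = univ)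
    (hu : u ∈ O) (hp0 : ∀ v, u ≠ v → 0 ≤ p u v) (hpN : ∀ v, u ≠ v → p u v ≤ (N : ℤ) - 2)
    (hinj : ∀ v w, u ≠ v → u ≠ w → p u v = p u w → v = w)
    (h1 : ∀ v ∈ P, ∀ w ∈ O, w ≠ u → p u v < p u w)
    (h2 : ∀ v ∈ O, v ≠ u → ∀ w ∈ Q, p u v < p u w)
    (h3 : ∀ v ∈ P, ∀ w ∈ Q, p u v < p u w) : Row p P O Q u := by
  classical
  have huP : u ∉ P := fun h => Finset.disjoint_left.mp hPO h hu
  have huQ : u ∉ Q := fun h => Finset.disjoint_left.mp hOQ hu h
  have hcard : P.card + O.card + Q.card = N := by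
    rw [← Finset.card_union_of_disjoint hPO, ← Finset.card_union_of_disjoint, hU]
    · simp
    · rw [Finset.disjoint_union_left]; exact ⟨hPQ, hOQ⟩
  have hOe : (O.erase u).card = O.card - 1 := Finset.card_erase_of_mem hu
  have hO1 : 1 ≤ O.card := Finset.card_pos.mpr ⟨u, hu⟩
  have hd1 : Disjoint P (O.erase u) :=
    Finset.disjoint_of_subset_right (Finset.erase_subset _ _) hPO
  have hd2 : Disjoint (O.erase u) Q :=
    Finset.disjoint_of_subset_left (Finset.erase_subset _ _) hOQ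
  have hne : ∀ v, v ∈ P ∨ v ∈ O.erase u ∨ v ∈ Q → u ≠ v := by
    rintro v (h | h | h) rfl
    · exact huP h
    · exact absurd rfl (Finset.ne_of_mem_erase h)
    · exact huQ h
  -- first decomposition
  have b1 := block P (O.erase u ∪ Q) (p u) (N - 1)
    (by rw [Finset.disjoint_union_right]; exact ⟨hd1, hPQ⟩)
    (by rw [Finset.card_union_of_disjoint hd2, hOe]; omega)
    (by
      intro v hv w hw h
      simp only [Finset.mem_union] at hv hw
      exact hinj v w (hne v hv) (hne w hw) h)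
    (by
      intro v hv
      simp only [Finset.mem_union] at hv
      exact hp0 v (hne v hv))
    (by
      intro v hv
      simp only [Finset.mem_union] at hv
      have := hpN v (hne v hv)
      omega)
    (by
      intro v hv w hw
      simp only [Finset.mem_union, Finset.mem_erase] at hw
      rcases hw with hw | hw
      · exact h1 v hv w hw.2 hw.1
      · exact h3 v hv w hw)
  have b2 := block (P ∪ O.erase u) Q (p u) (N - 1)
    (by rw [Finset.disjoint_union_left]; exact ⟨hPQ, hd2⟩)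
    (by rw [Finset.card_union_of_disjoint hd1, hOe]; omega)
    (by
      intro v hv w hw h
      simp only [Finset.mem_union] at hv hw
      exact hinj v w (hne v (by tauto)) (hne w (by tauto)) h)
    (by
      intro v hv
      simp only [Finset.mem_union] at hv
      exact hp0 v (hne v (by tauto)))
    (by
      intro v hv
      simp only [Finset.mem_union] at hv
      have := hpN v (hne v (by tauto))
      omega)
    (by
      intro v hv w hw
      simp only [Finset.mem_union, Finset.mem_erase] at hv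
      rcases hv with hv | hv
      · exact h3 v hv w hw
      · exact h2 v hv.2 hv.1 w hw)
  have hc2 : ((P ∪ O.erase u).card : ℤ) = (P.card : ℤ) + O.card - 1 := by
    rw [Finset.card_union_of_disjoint hd1, hOe]
    omega
  obtain ⟨b11, b12, b13, b14⟩ := b1
  obtain ⟨b21, b22, b23, b24⟩ := b2
  rw [hc2] at b22 b23 b24 b21
  refine ⟨b11, ?_, b13, ?_, ?_, b22, ?_, ?_⟩
  · intro v hv
    exact hp0 v (hne v (Or.inl hv))
  · intro v hv hvu
    exact b12 v (Finset.mem_union_left _ (Finset.mem_erase.mpr ⟨hvu, hv⟩))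
  · intro c hc1 hc2'
    obtain ⟨v, hv, hvc⟩ := b23 c (by omega) hc2'
    rcases Finset.mem_union.mp hv with h | h
    · have := b11 v h
      omega
    · exact ⟨v, Finset.mem_of_mem_erase h, Finset.ne_of_mem_erase h, hvc⟩
  · intro v hv
    have := hpN v (hne v (Or.inr (Or.inr hv)))
    omega
  · intro c hc1 hc2'
    exact b24 c hc1 (by omega)

/-- consecutive classes have equally many vertices with small starts -/
theorem pair {N : ℕ} (s : Fin N → ℤ) (p : Fin N → Fin N → ℤ) (X Y : Finset (Fin N)) (D : ℤ)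
    (hXY : ∀ x ∈ X, ∀ y ∈ Y, s x + p x y = s y + p y x)
    (hx1 : ∀ x ∈ X, ∀ y ∈ Y, D ≤ p x y)
    (hx2 : ∀ x ∈ X, ∀ c : ℤ, D ≤ c → c < D + Y.card → ∃ y ∈ Y, p x y = c)
    (hxi : ∀ x ∈ X, ∀ y ∈ Y, ∀ y' ∈ Y, p x y = p x y' → y = y')
    (hy1 : ∀ y ∈ Y, ∀ x ∈ X, 0 ≤ p y x)
    (hy2 : ∀ y ∈ Y, ∀ c : ℤ, 0 ≤ c → c < X.card → ∃ x ∈ X, p y x = c)
    (hyi : ∀ y ∈ Y, ∀ x ∈ X, ∀ x' ∈ X, p y x = p y x' → x = x')
    (x0 y0 : Fin N) (hx0 : x0 ∈ X) (hy0 : y0 ∈ Y) (hxm : ∀ x ∈ X, s x0 ≤ s x)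
    (hym : ∀ y ∈ Y, s y0 ≤ s y) (j : ℤ) (hj0 : 0 ≤ j) (hjX : j < X.card) (hjY : j < Y.card) :
    (X.filter (fun x => s x ≤ s x0 + j)).card = (Y.filter (fun y => s y ≤ s y0 + j)).card := by
  classical
  have hmu : s y0 = s x0 + D := by
    obtain ⟨y, hy, hyc⟩ := hx2 x0 hx0 D le_rfl (by omega)
    obtain ⟨x, hx, hxc⟩ := hy2 y0 hy0 0 le_rfl (by omega)
    have e1 := hXY x0 hx0 y hy
    have e2 := hXY x hx y0 hy0
    have e3 := hy1 y hy x0 hx0
    have e4 := hx1 x hx y0 hy0
    have e5 := hym y hy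
    have e6 := hxm x hx
    omega
  apply le_antisymm
  · have : Nonempty (Fin N) := ⟨x0⟩
    have hch : ∀ x ∈ X.filter (fun x => s x ≤ s x0 + j), ∃ y ∈ Y, p x y = s y0 + j - s x := by
      intro x hx
      rw [Finset.mem_filter] at hx
      have := hxm x hx.1
      exact hx2 x hx.1 _ (by omega) (by omega)
    choose! φ hφ1 hφ2 using hch
    apply Finset.card_le_card_of_injOn φ
    · intro x hx
      have hx' := Finset.mem_coe.mp hx
      have e := hXY x (Finset.mem_filter.mp hx').1 (φ x) (hφ1 x hx')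
      have e2 := hφ2 x hx'
      have e3 := hy1 (φ x) (hφ1 x hx') x (Finset.mem_filter.mp hx').1
      apply Finset.mem_coe.mpr
      rw [Finset.mem_filter]
      exact ⟨hφ1 x hx', by omega⟩
    · intro x hx x' hx' h
      have hx1' := Finset.mem_coe.mp hx
      have hx2' := Finset.mem_coe.mp hx'
      have e := hXY x (Finset.mem_filter.mp hx1').1 (φ x) (hφ1 x hx1')
      have e' := hXY x' (Finset.mem_filter.mp hx2').1 (φ x') (hφ1 x' hx2')
      have e2 := hφ2 x hx1'
      have e2' := hφ2 x' hx2'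
      rw [← h] at e' e2'
      exact hyi (φ x) (hφ1 x hx1') x (Finset.mem_filter.mp hx1').1 x'
        (Finset.mem_filter.mp hx2').1 (by omega)
  · have : Nonempty (Fin N) := ⟨x0⟩
    have hch : ∀ y ∈ Y.filter (fun y => s y ≤ s y0 + j), ∃ x ∈ X, p y x = s y0 + j - s y := by
      intro y hy
      rw [Finset.mem_filter] at hy
      have := hym y hy.1
      exact hy2 y hy.1 _ (by omega) (by omega)
    choose! φ hφ1 hφ2 using hch
    apply Finset.card_le_card_of_injOn φ
    · intro y hy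
      have hy' := Finset.mem_coe.mp hy
      have e := hXY (φ y) (hφ1 y hy') y (Finset.mem_filter.mp hy').1
      have e2 := hφ2 y hy'
      have e3 := hx1 (φ y) (hφ1 y hy') y (Finset.mem_filter.mp hy').1
      apply Finset.mem_coe.mpr
      rw [Finset.mem_filter]
      exact ⟨hφ1 y hy', by omega⟩
    · intro y hy y' hy' h
      have hy1' := Finset.mem_coe.mp hy
      have hy2' := Finset.mem_coe.mp hy'
      have e := hXY (φ y) (hφ1 y hy1') y (Finset.mem_filter.mp hy1').1
      have e' := hXY (φ y') (hφ1 y' hy2') y' (Finset.mem_filter.mp hy2').1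
      have e2 := hφ2 y hy1'
      have e2' := hφ2 y' hy2'
      rw [← h] at e' e2'
      exact hxi (φ y) (hφ1 y hy1') y (Finset.mem_filter.mp hy1').1 y'
        (Finset.mem_filter.mp hy2').1 (by omega)

/-- a class with more than `m` vertices has more than `m` vertices with small starts -/
theorem own {N : ℕ} (s : Fin N → ℤ) (p : Fin N → Fin N → ℤ) (X : Finset (Fin N)) (P : ℤ)
    (hX : ∀ x ∈ X, ∀ y ∈ X, x ≠ y → s x + p x y = s y + p y x)
    (h1 : ∀ x ∈ X, ∀ y ∈ X, y ≠ x → P ≤ p x y)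
    (h2 : ∀ x ∈ X, ∀ c : ℤ, P ≤ c → c < P + X.card - 1 → ∃ y ∈ X, y ≠ x ∧ p x y = c)
    (x0 : Fin N) (hx0 : x0 ∈ X) (m : ℕ) (hm1 : 1 ≤ m)
    (hm : m < X.card) : m + 1 ≤ (X.filter (fun x => s x ≤ s x0 + ((m : ℤ) - 1))).card := by
  classical
  have hch : ∀ j ∈ Finset.range m, ∃ y ∈ X, y ≠ x0 ∧ p x0 y = P + (j : ℤ) := by
    intro j hj
    rw [Finset.mem_range] at hj
    exact h2 x0 hx0 _ (by omega) (by omega)
  have : Nonempty (Fin N) := ⟨x0⟩
  choose! v hv1 hv2 hv3 using hch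
  have hsub : insert x0 ((Finset.range m).image v) ⊆
      X.filter (fun x => s x ≤ s x0 + ((m : ℤ) - 1)) := by
    intro y hy
    rw [Finset.mem_insert] at hy
    rw [Finset.mem_filter]
    rcases hy with rfl | hy
    · exact ⟨hx0, by omega⟩
    · obtain ⟨j, hj, rfl⟩ := Finset.mem_image.mp hy
      have e := hX x0 hx0 (v j) (hv1 j hj) (Ne.symm (hv2 j hj))
      have e2 := hv3 j hj
      have e3 := h1 (v j) (hv1 j hj) x0 hx0 (Ne.symm (hv2 j hj))
      have e4 := Finset.mem_range.mp hj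
      exact ⟨hv1 j hj, by omega⟩
  have hc := Finset.card_le_card hsub
  rw [Finset.card_insert_of_notMem, Finset.card_image_of_injOn, Finset.card_range] at hc
  · exact hc
  · intro i hi j hj h
    have e := hv3 i (Finset.mem_coe.mp hi)
    have e' := hv3 j (Finset.mem_coe.mp hj)
    have h' : v i = v j := h
    rw [h', e'] at e
    omega
  · intro h
    obtain ⟨j, hj, hj'⟩ := Finset.mem_image.mp h
    exact hv2 j hj hj'

end KF

open KF in
theorem pKF : S_KF := by
  classical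
  intro N t s p hN ht hconf hK hS C1 C2 C3 n1 n2 n3 d12 d13 d23 hU k11 k2 k33 k13
  have hN' : (4 : ℤ) ≤ N := by exact_mod_cast hN
  have kanti : ∀ u v, K N s v u = - K N s u v := by
    intro u v
    unfold K
    split_ifs <;> omega
  have k31 : ∀ u ∈ C3, ∀ v ∈ C1, K N s u v = 1 := by
    intro u hu v hv
    rw [kanti v u, k13 v hv u hu]; norm_num
  have k2' : ∀ u, ∀ v ∈ C2, K N s u v = 0 := by
    intro u v hv
    rw [kanti v u, k2 v hv u]; norm_num
  have hcard : C1.card + C2.card + C3.card = N := by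
    rw [← Finset.card_union_of_disjoint d12, ← Finset.card_union_of_disjoint, hU]
    · simp
    · rw [Finset.disjoint_union_left]; exact ⟨d13, d23⟩
  have hc : (C1.card : ℤ) + C2.card + C3.card = N := by exact_mod_cast hcard
  have c1 : (0 : ℤ) < C1.card := by exact_mod_cast Finset.card_pos.mpr n1
  have c2 : (0 : ℤ) < C2.card := by exact_mod_cast Finset.card_pos.mpr n2
  have c3 : (0 : ℤ) < C3.card := by exact_mod_cast Finset.card_pos.mpr n3
  have hsum : ∀ f : Fin N → ℤ, ∑ v, f v = ∑ v ∈ C1, f v + ∑ v ∈ C2, f v + ∑ v ∈ C3, f v := by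
    intro f
    rw [← Finset.sum_union d12, ← Finset.sum_union, hU]
    rw [Finset.disjoint_union_left]; exact ⟨d13, d23⟩
  have A1 : ∀ u ∈ C1, A N s u = - (C3.card : ℤ) := by
    intro u hu
    unfold A
    rw [hsum, Finset.sum_congr rfl (fun v hv => k11 u hu v hv),
      Finset.sum_congr rfl (fun v hv => k2' u v hv),
      Finset.sum_congr rfl (fun v hv => k13 u hu v hv)]
    simp
  have A2 : ∀ u ∈ C2, A N s u = 0 := by
    intro u hu
    unfold A
    rw [Finset.sum_congr rfl (fun v _ => k2 u hu v)]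
    simp
  have A3 : ∀ u ∈ C3, A N s u = (C1.card : ℤ) := by
    intro u hu
    unfold A
    rw [hsum, Finset.sum_congr rfl (fun v hv => k31 u hu v hv),
      Finset.sum_congr rfl (fun v hv => k2' u v hv),
      Finset.sum_congr rfl (fun v hv => k33 u hu v hv)]
    simp
  -- the rows
  have r1 : ∀ u ∈ C1, Row p C3 C1 C2 u := by
    intro u hu
    have ne2 : ∀ v ∈ C2, u ≠ v := fun v hv h => Finset.disjoint_left.mp d12 hu (h ▸ hv)
    have ne3 : ∀ v ∈ C3, u ≠ v := fun v hv h => Finset.disjoint_left.mp d13 hu (h ▸ hv)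
    have w1 : ∀ v ∈ C1, W N s u v = 0 := by
      intro v hv; unfold W; rw [k11 u hu v hv, A1 u hu, A1 v hv]; ring
    have w2 : ∀ v ∈ C2, W N s u v = C3.card := by
      intro v hv; unfold W; rw [k2' u v hv, A1 u hu, A2 v hv]; ring
    have w3 : ∀ v ∈ C3, W N s u v = - (C2.card : ℤ) := by
      intro v hv; unfold W; rw [k13 u hu v hv, A1 u hu, A3 v hv]; linarith
    apply row hN p C3 C1 C2 u d13.symm d23.symm d12 _ hu (fun v h => hconf.p0 u v h)
      (fun v h => hconf.pN u v h) (fun v w h h' e => hconf.inj u v w h h' e)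
    · intro v hv w hw hwu
      exact hS u v w (ne3 v hv) (Ne.symm hwu) (by rw [w3 v hv, w1 w hw]; omega)
    · intro v hv hvu w hw
      exact hS u v w (Ne.symm hvu) (ne2 w hw) (by rw [w1 v hv, w2 w hw]; omega)
    · intro v hv w hw
      exact hS u v w (ne3 v hv) (ne2 w hw) (by rw [w3 v hv, w2 w hw]; omega)
    · rw [← hU]
      ext x
      simp only [Finset.mem_union]
      tauto
  have r2 : ∀ u ∈ C2, Row p C1 C2 C3 u := by
    intro u hu
    have ne1 : ∀ v ∈ C1, u ≠ v := fun v hv h => Finset.disjoint_left.mp d12 hv (h ▸ hu)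
    have ne3 : ∀ v ∈ C3, u ≠ v := fun v hv h => Finset.disjoint_left.mp d23 hu (h ▸ hv)
    have w1 : ∀ v ∈ C1, W N s u v = - (C3.card : ℤ) := by
      intro v hv; unfold W; rw [k2 u hu v, A2 u hu, A1 v hv]; ring
    have w2 : ∀ v ∈ C2, W N s u v = 0 := by
      intro v hv; unfold W; rw [k2 u hu v, A2 u hu, A2 v hv]; ring
    have w3 : ∀ v ∈ C3, W N s u v = C1.card := by
      intro v hv; unfold W; rw [k2 u hu v, A2 u hu, A3 v hv]; ring
    apply row hN p C1 C2 C3 u d12 d13 d23 hU hu (fun v h => hconf.p0 u v h)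
      (fun v h => hconf.pN u v h) (fun v w h h' e => hconf.inj u v w h h' e)
    · intro v hv w hw hwu
      exact hS u v w (ne1 v hv) (Ne.symm hwu) (by rw [w1 v hv, w2 w hw]; omega)
    · intro v hv hvu w hw
      exact hS u v w (Ne.symm hvu) (ne3 w hw) (by rw [w2 v hv, w3 w hw]; omega)
    · intro v hv w hw
      exact hS u v w (ne1 v hv) (ne3 w hw) (by rw [w1 v hv, w3 w hw]; omega)
  have r3 : ∀ u ∈ C3, Row p C2 C3 C1 u := by
    intro u hu
    have ne1 : ∀ v ∈ C1, u ≠ v := fun v hv h => Finset.disjoint_left.mp d13 hv (h ▸ hu)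
    have ne2 : ∀ v ∈ C2, u ≠ v := fun v hv h => Finset.disjoint_left.mp d23 hv (h ▸ hu)
    have w1 : ∀ v ∈ C1, W N s u v = C2.card := by
      intro v hv; unfold W; rw [k31 u hu v hv, A3 u hu, A1 v hv]; linarith
    have w2 : ∀ v ∈ C2, W N s u v = - (C1.card : ℤ) := by
      intro v hv; unfold W; rw [k2' u v hv, A3 u hu, A2 v hv]; ring
    have w3 : ∀ v ∈ C3, W N s u v = 0 := by
      intro v hv; unfold W; rw [k33 u hu v hv, A3 u hu, A3 v hv]; ring
    apply row hN p C2 C3 C1 u d23 d12.symm d13.symm _ hu (fun v h => hconf.p0 u v h)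
      (fun v h => hconf.pN u v h) (fun v w h h' e => hconf.inj u v w h h' e)
    · intro v hv w hw hwu
      exact hS u v w (ne2 v hv) (Ne.symm hwu) (by rw [w2 v hv, w3 w hw]; omega)
    · intro v hv hvu w hw
      exact hS u v w (Ne.symm hvu) (ne1 w hw) (by rw [w3 v hv, w1 w hw]; omega)
    · intro v hv w hw
      exact hS u v w (ne2 v hv) (ne1 w hw) (by rw [w2 v hv, w1 w hw]; omega)
    · rw [← hU]
      ext x
      simp only [Finset.mem_union]
      tauto
  obtain ⟨u1, hu1, m1⟩ := Finset.exists_min_image C1 s n1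
  obtain ⟨u2, hu2, m2⟩ := Finset.exists_min_image C2 s n2
  obtain ⟨u3, hu3, m3⟩ := Finset.exists_min_image C3 s n3
  have ne12 : ∀ x ∈ C1, ∀ y ∈ C2, x ≠ y := fun x hx y hy h =>
    Finset.disjoint_left.mp d12 hx (h ▸ hy)
  have ne23 : ∀ x ∈ C2, ∀ y ∈ C3, x ≠ y := fun x hx y hy h =>
    Finset.disjoint_left.mp d23 hx (h ▸ hy)
  have F12 := pair s p C1 C2 ((C3.card : ℤ) + C1.card - 1)
    (by
      intro x hx y hy
      have := hK x y (ne12 x hx y hy)
      rw [k2' x y hy] at this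
      linarith)
    (fun x hx y hy => (r1 x hx).q1 y hy)
    (by
      intro x hx c h h'
      exact (r1 x hx).qs c h (by omega))
    (fun x hx y hy y' hy' h => hconf.inj x y y' (ne12 x hx y hy) (ne12 x hx y' hy') h)
    (fun y hy x hx => (r2 y hy).p0 x hx)
    (fun y hy c h h' => (r2 y hy).ps c h h')
    (fun y hy x hx x' hx' h => hconf.inj y x x' (Ne.symm (ne12 x hx y hy))
      (Ne.symm (ne12 x' hx' y hy)) h)
    u1 u2 hu1 hu2 m1 m2
  have F23 := pair s p C2 C3 ((C1.card : ℤ) + C2.card - 1)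
    (by
      intro x hx y hy
      have := hK x y (ne23 x hx y hy)
      rw [k2 x hx y] at this
      linarith)
    (fun x hx y hy => (r2 x hx).q1 y hy)
    (by
      intro x hx c h h'
      exact (r2 x hx).qs c h (by omega))
    (fun x hx y hy y' hy' h => hconf.inj x y y' (ne23 x hx y hy) (ne23 x hx y' hy') h)
    (fun y hy x hx => (r3 y hy).p0 x hx)
    (fun y hy c h h' => (r3 y hy).ps c h h')
    (fun y hy x hx x' hx' h => hconf.inj y x x' (Ne.symm (ne23 x hx y hy))
      (Ne.symm (ne23 x' hx' y hy)) h)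
    u2 u3 hu2 hu3 m2 m3
  have O1 := own s p C1 (C3.card : ℤ)
    (by
      intro x hx y hy hxy
      have := hK x y hxy
      rw [k11 x hx y hy] at this
      linarith)
    (fun x hx y hy h => (r1 x hx).o1 y hy h)
    (fun x hx c h h' => (r1 x hx).os c h h') u1 hu1
  have O2 := own s p C2 (C1.card : ℤ)
    (by
      intro x hx y hy hxy
      have := hK x y hxy
      rw [k2 x hx y] at this
      linarith)
    (fun x hx y hy h => (r2 x hx).o1 y hy h)
    (fun x hx c h h' => (r2 x hx).os c h h') u2 hu2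
  have O3 := own s p C3 (C2.card : ℤ)
    (by
      intro x hx y hy hxy
      have := hK x y hxy
      rw [k33 x hx y hy] at this
      linarith)
    (fun x hx y hy h => (r3 x hx).o1 y hy h)
    (fun x hx c h h' => (r3 x hx).os c h h') u3 hu3
  -- the minimal size
  obtain ⟨m, hm1, hmle1, hmle2, hmle3, hmor⟩ : ∃ m : ℕ, 1 ≤ m ∧ m ≤ C1.card ∧ m ≤ C2.card ∧
      m ≤ C3.card ∧ (m = C1.card ∨ m = C2.card ∨ m = C3.card) := by
    refine ⟨min C1.card (min C2.card C3.card), ?_, ?_, ?_, ?_, ?_⟩ <;> omega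
  have G12 := F12 ((m : ℤ) - 1) (by omega) (by omega) (by omega)
  have G23 := F23 ((m : ℤ) - 1) (by omega) (by omega) (by omega)
  have L1 := Finset.card_filter_le C1 (fun x => s x ≤ s u1 + ((m : ℤ) - 1))
  have L2 := Finset.card_filter_le C2 (fun x => s x ≤ s u2 + ((m : ℤ) - 1))
  have L3 := Finset.card_filter_le C3 (fun x => s x ≤ s u3 + ((m : ℤ) - 1))
  have P1 := O1 m hm1
  have P2 := O2 m hm1
  have P3 := O3 m hm1
  refine ⟨m, ?_⟩
  by_cases q1 : m < C1.card
  · have := P1 q1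
    omega
  by_cases q2 : m < C2.card
  · have := P2 q2
    omega
  by_cases q3 : m < C3.card
  · have := P3 q3
    omega
  omega

end Pool.Agent.T2H56.IC
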