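import Pool.Agent.T2H56.IC.Stm

/-!
# Package KG: minimal starts
-/

set_option autoImplicit false

namespace Pool.Agent.T2H56.IC

open Finset

namespace KG

variable {N t : ℕ} {s : Fin N → ℤ} {p : Fin N → Fin N → ℤ}

lemma Kanti (hN : 2 ≤ N) (s : Fin N → ℤ) (u v : Fin N) : K N s v u = - K N s u v := by
  unfold K
  split_ifs <;> omega

/-- the rank -/
def rk (N : ℕ) (s : Fin N → ℤ) (a b : Fin N) : ℤ :=
  (((univ.erase a).filter (fun x => W N s a x < W N s a b)).card : ℤ)

lemma rk_le (hc : Conf N t s p) (hS : Sorted N s p) (a b : Fin N) (hab : a ≠ b) :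
    rk N s a b ≤ p a b := by
  unfold rk
  have h1 : ((univ.erase a).filter (fun x => W N s a x < W N s a b)).image (p a) ⊆
      Finset.Ico 0 (p a b) := by
    intro z hz
    rw [Finset.mem_image] at hz
    obtain ⟨x, hx, rfl⟩ := hz
    rw [Finset.mem_filter, Finset.mem_erase] at hx
    rw [Finset.mem_Ico]
    exact ⟨hc.p0 a x (Ne.symm hx.1.1), hS a x b (Ne.symm hx.1.1) hab hx.2⟩
  have h2 : (((univ.erase a).filter (fun x => W N s a x < W N s a b)).image (p a)).card =
      ((univ.erase a).filter (fun x => W N s a x < W N s a b)).card := by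
    refine Finset.card_image_of_injOn ?_
    intro x hx y hy hxy
    have hx' := Finset.mem_coe.1 hx
    have hy' := Finset.mem_coe.1 hy
    rw [Finset.mem_filter, Finset.mem_erase] at hx' hy'
    exact hc.inj a x y (Ne.symm hx'.1.1) (Ne.symm hy'.1.1) hxy
  have h3 := Finset.card_le_card h1
  rw [h2, Int.card_Ico] at h3
  have h4 := hc.p0 a b hab
  omega

lemma psurj (hN : 2 ≤ N) (hc : Conf N t s p) (a : Fin N) (k : ℤ) (h0 : 0 ≤ k)
    (hk : k ≤ (N : ℤ) - 2) : ∃ x, a ≠ x ∧ p a x = k := by
  have h1 : (univ.erase a).image (p a) ⊆ Finset.Icc 0 ((N : ℤ) - 2) := by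
    intro z hz
    rw [Finset.mem_image] at hz
    obtain ⟨x, hx, rfl⟩ := hz
    rw [Finset.mem_erase] at hx
    rw [Finset.mem_Icc]
    exact ⟨hc.p0 a x (Ne.symm hx.1), hc.pN a x (Ne.symm hx.1)⟩
  have h2 : ((univ.erase a).image (p a)).card = N - 1 := by
    rw [Finset.card_image_of_injOn, Finset.card_erase_of_mem (Finset.mem_univ _),
      Finset.card_univ, Fintype.card_fin]
    intro x hx y hy hxy
    have hx' := Finset.mem_coe.1 hx
    have hy' := Finset.mem_coe.1 hy
    rw [Finset.mem_erase] at hx' hy'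
    exact hc.inj a x y (Ne.symm hx'.1) (Ne.symm hy'.1) hxy
  have h3 : (univ.erase a).image (p a) = Finset.Icc 0 ((N : ℤ) - 2) := by
    refine Finset.eq_of_subset_of_card_le h1 ?_
    rw [h2, Int.card_Icc]
    omega
  have h4 : k ∈ (univ.erase a).image (p a) := by
    rw [h3, Finset.mem_Icc]
    exact ⟨h0, hk⟩
  rw [Finset.mem_image] at h4
  obtain ⟨x, hx, hxk⟩ := h4
  rw [Finset.mem_erase] at hx
  exact ⟨x, Ne.symm hx.1, hxk⟩

/-- the element at the position of the rank has the same weight -/
lemma at_rank (hN : 2 ≤ N) (hc : Conf N t s p) (hS : Sorted N s p) (a b : Fin N) (hab : a ≠ b) :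
    ∃ x, a ≠ x ∧ p a x = rk N s a b ∧ W N s a x = W N s a b := by
  have hr0 : 0 ≤ rk N s a b := by unfold rk; positivity
  have hr1 : rk N s a b ≤ (N : ℤ) - 2 := (rk_le hc hS a b hab).trans (hc.pN a b hab)
  obtain ⟨x, hax, hx⟩ := psurj hN hc a _ hr0 hr1
  refine ⟨x, hax, hx, ?_⟩
  rcases lt_trichotomy (W N s a x) (W N s a b) with h | h | h
  · exfalso
    have h1 : Finset.Icc 0 (rk N s a b) ⊆
        ((univ.erase a).filter (fun y => W N s a y < W N s a b)).image (p a) := by
      intro k hk
      rw [Finset.mem_Icc] at hk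
      obtain ⟨y, hay, hy⟩ := psurj hN hc a k hk.1 (hk.2.trans hr1)
      rw [Finset.mem_image]
      refine ⟨y, ?_, hy⟩
      rw [Finset.mem_filter, Finset.mem_erase]
      refine ⟨⟨Ne.symm hay, Finset.mem_univ _⟩, ?_⟩
      by_contra hcon
      have h2 : W N s a x < W N s a y := by omega
      have h3 := hS a x y hax hay h2
      rw [hx, hy] at h3
      omega
    have h2 := (Finset.card_le_card h1).trans Finset.card_image_le
    rw [Int.card_Icc] at h2
    have h3 : rk N s a b = (((univ.erase a).filter (fun y => W N s a y < W N s a b)).card : ℤ) :=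
      rfl
    omega
  · exact h
  · exfalso
    have h1 := rk_le hc hS a x hax
    rw [hx] at h1
    have h2 : insert b ((univ.erase a).filter (fun y => W N s a y < W N s a b)) ⊆
        ((univ.erase a).filter (fun y => W N s a y < W N s a x)) := by
      intro y hy
      rw [Finset.mem_insert] at hy
      rw [Finset.mem_filter, Finset.mem_erase]
      rcases hy with rfl | hy
      · exact ⟨⟨Ne.symm hab, Finset.mem_univ _⟩, h⟩
      · rw [Finset.mem_filter] at hy
        exact ⟨Finset.mem_erase.1 hy.1, hy.2.trans h⟩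
    have h3 := Finset.card_le_card h2
    rw [Finset.card_insert_of_notMem (by
      rw [Finset.mem_filter]
      rintro ⟨-, h4⟩
      exact lt_irrefl _ h4)] at h3
    unfold rk at h1
    omega

/-- the rank depends only on the class of the row -/
lemma rk_class (hKM : S_KM) (hN : 2 ≤ N) (hOS : OS N s) (x b a : Fin N)
    (hA : A N s x = A N s b) : rk N s x a = rk N s b a := by
  obtain ⟨-, -, -, -, h5, -⟩ := hKM N s hN hOS
  obtain ⟨h6, h7⟩ := h5 x b hA
  have hK : ∀ y, K N s x y = K N s b y := by
    intro y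
    rw [Kanti hN s y x, Kanti hN s y b, h7 y]
  have hW : ∀ y, W N s x y = W N s b y := by
    intro y
    unfold W
    rw [hK, hA]
  have hWb : W N s b x = 0 := by
    unfold W
    rw [h6, hA]
    ring
  have hWbb : W N s b b = 0 := by
    unfold W
    have : K N s b b = 0 := by
      have := Kanti hN s b b
      omega
    rw [this]
    ring
  unfold rk
  have hset : ∀ c, (univ.erase c).filter (fun y => W N s b y < W N s b a) =
      (univ.filter (fun y => W N s b y < W N s b a)).erase c := by
    intro c
    ext y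
    simp only [Finset.mem_filter, Finset.mem_erase, Finset.mem_univ, and_true, true_and]
  have hx : (univ.erase x).filter (fun y => W N s x y < W N s x a) =
      (univ.filter (fun y => W N s b y < W N s b a)).erase x := by
    rw [← hset]
    refine Finset.filter_congr fun y _ => ?_
    rw [hW, hW]
  rw [hx, hset]
  congr 1
  rw [Finset.card_erase_eq_ite, Finset.card_erase_eq_ite]
  have : x ∈ univ.filter (fun y => W N s b y < W N s b a) ↔
      b ∈ univ.filter (fun y => W N s b y < W N s b a) := by
    rw [Finset.mem_filter, Finset.mem_filter, hWb, hWbb]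
    simp
  simp only [this]

lemma key (hKM : S_KM) (hN : 2 ≤ N) (hc : Conf N t s p)
    (hex : ∀ u v, u ≠ v → (s u + p u v) - (s v + p v u) = t * K N s u v)
    (hOS : OS N s) (hT : NoTie N s) (hS : Sorted N s p) (a b : Fin N) (hab : a ≠ b)
    (hb : ∀ x, A N s x = A N s b → s b ≤ s x) :
    s b + rk N s b a + t * K N s a b ≤ s a + rk N s a b := by
  obtain ⟨x, hax, hx, hW⟩ := at_rank hN hc hS a b hab
  have h1 : (N : ℤ) * K N s a x + A N s x = N * K N s a b + A N s b := by
    unfold W at hW
    linarith
  have h2 := hT x b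
  have h3 := hT b x
  have hN0 : (0 : ℤ) < N := by exact_mod_cast (by omega : 0 < N)
  have hK : K N s a x = K N s a b := by
    by_contra hne
    rcases lt_or_gt_of_ne hne with h | h
    · nlinarith
    · nlinarith
  have hA : A N s x = A N s b := by
    rw [hK] at h1
    linarith
  have h4 := hex a x hax
  have h5 := hb x hA
  have h6 := rk_le hc hS x a (Ne.symm hax)
  rw [rk_class hKM hN hOS x b a hA] at h6
  rw [hx, hK] at h4
  linarith

end KG

theorem pKG : S_KG := by
  intro hKM N t s p hN hc hex hOS hT hS u v hA hu hv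
  have hN2 : 2 ≤ N := by omega
  have huv : u ≠ v := by
    rintro rfl
    exact lt_irrefl _ hA
  have h1 := KG.key hKM hN2 hc hex hOS hT hS u v huv hv
  have h2 := KG.key hKM hN2 hc hex hOS hT hS v u (Ne.symm huv) hu
  have h3 := KG.Kanti hN2 s u v
  rw [h3] at h2
  unfold KG.rk at h1 h2
  linarith

end Pool.Agent.T2H56.IC
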