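import Pool.Agent.T2H56.IC.Stm

/-!
# Package KL: the liftable case
-/

namespace Pool.Agent.T2H56.IC

open Finset

/-- the row `p u` takes all the values `0, ..., N-2` -/
theorem kl_row {N t : ℕ} {s : Fin N → ℤ} {p : Fin N → Fin N → ℤ} (hc : Conf N t s p)
    (u : Fin N) (k : ℤ) (hk0 : 0 ≤ k) (hk : k ≤ (N : ℤ) - 2) : ∃ v, u ≠ v ∧ p u v = k := by
  have hN : 0 < N := Fin.pos u
  have himg : (univ.erase u).image (p u) = Finset.Ico (0 : ℤ) ((N : ℤ) - 1) := by
    refine Finset.eq_of_subset_of_card_le (fun x hx => ?_) ?_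
    · obtain ⟨v, hv, rfl⟩ := Finset.mem_image.1 hx
      have hne : u ≠ v := (Finset.ne_of_mem_erase hv).symm
      have h1 := hc.p0 u v hne
      have h2 := hc.pN u v hne
      exact Finset.mem_Ico.2 ⟨h1, by omega⟩
    · rw [Finset.card_image_of_injOn, Int.card_Ico, Finset.card_erase_of_mem (mem_univ u),
        Finset.card_univ, Fintype.card_fin]
      · omega
      · intro a ha b hb h
        exact hc.inj u a b (Finset.ne_of_mem_erase (Finset.mem_coe.1 ha)).symm
          (Finset.ne_of_mem_erase (Finset.mem_coe.1 hb)).symm h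
  have hmem : k ∈ (univ.erase u).image (p u) := by
    rw [himg, Finset.mem_Ico]
    omega
  obtain ⟨v, hv, h⟩ := Finset.mem_image.1 hmem
  exact ⟨v, (Finset.ne_of_mem_erase hv).symm, h⟩

theorem pKL : S_KL := by
  intro N t s p hN ht hc hw hW
  have hNpos : 0 < N := by omega
  let o : Fin N := ⟨0, hNpos⟩
  have hK : ∀ u v, K N s u v = K N s u o - K N s v o := by
    intro u v
    have h1 := hW u v
    have h2 := hW u o
    have h3 := hW v o
    unfold W at h1 h2 h3
    have h4 : (N : ℤ) * K N s u v = N * (K N s u o - K N s v o) := by linarith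
    have h5 : (N : ℤ) ≠ 0 := by exact_mod_cast hNpos.ne'
    exact mul_left_cancel₀ h5 h4
  -- the lifted starts
  obtain ⟨S, hS⟩ : ∃ S : Fin N → ℤ, ∀ u, S u = s u - t * K N s u o := ⟨_, fun _ => rfl⟩
  have hsym : ∀ u v, u ≠ v → S u + p u v = S v + p v u := by
    intro u v huv
    have h1 := hw u v huv
    rw [hK u v] at h1
    rw [hS, hS]
    linarith
  obtain ⟨u₁, -, hu₁⟩ := Finset.exists_min_image univ S ⟨o, mem_univ o⟩
  obtain ⟨u₂, -, hu₂⟩ := Finset.exists_max_image univ S ⟨o, mem_univ o⟩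
  -- all residues are hit
  have hbig : (t : ℤ) ≤ S u₂ - S u₁ + N - 1 := by
    obtain ⟨u, v, huv, j, hj⟩ := hc.surj (S u₂ + N - 1)
    by_contra hcon
    have h1 : S u₁ ≤ S u := hu₁ u (mem_univ u)
    have h2 : S u ≤ S u₂ := hu₂ u (mem_univ u)
    have h3 := hc.p0 u v huv
    have h4 := hc.pN u v huv
    have h5 : S u + p u v - (S u₂ + N - 1) = t * (j - K N s u o) := by
      rw [hS u]
      linarith
    have ht0 : (0 : ℤ) < t := by
      have : 0 < t := by omega
      exact_mod_cast this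
    have h6 : (t : ℤ) * (j - K N s u o) < 0 := by linarith
    have h7 : j - K N s u o < 0 := by
      by_contra h
      have := mul_nonneg ht0.le (not_lt.1 h)
      linarith
    have h8 : (t : ℤ) * (j - K N s u o) ≤ t * (-1) :=
      mul_le_mul_of_nonneg_left (by omega) ht0.le
    linarith
  have hdist : ∀ u v, S u - S v ≤ N - 2 := by
    intro u v
    by_cases huv : u = v
    · rw [huv]
      omega
    · have h1 := hsym u v huv
      have h2 := hc.p0 u v huv
      have h3 := hc.pN v u (Ne.symm huv)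
      linarith
  have heq : S u₂ = S u₁ + N - 2 := by
    have := hdist u₂ u₁
    omega
  obtain ⟨v₂, hv₂, hp₂⟩ := kl_row hc u₂ ((N : ℤ) - 2) (by omega) le_rfl
  have hSv₂ : S v₂ = S u₂ := by
    have h1 := hsym u₂ v₂ hv₂
    have h2 := hc.pN v₂ u₂ (Ne.symm hv₂)
    have h3 : S v₂ ≤ S u₂ := hu₂ v₂ (mem_univ _)
    linarith
  have hne₂ : u₁ ≠ u₂ := by
    intro h
    rw [← h] at heq
    omega
  have hne₃ : u₁ ≠ v₂ := by
    intro h
    rw [← hSv₂, ← h] at heq
    omega
  have e1 : p u₁ u₂ = N - 2 := by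
    have h1 := hsym u₁ u₂ hne₂
    have h2 := hc.p0 u₂ u₁ (Ne.symm hne₂)
    have h3 := hc.pN u₁ u₂ hne₂
    linarith
  have e2 : p u₁ v₂ = N - 2 := by
    have h1 := hsym u₁ v₂ hne₃
    have h2 := hc.p0 v₂ u₁ (Ne.symm hne₃)
    have h3 := hc.pN u₁ v₂ hne₃
    linarith
  exact hv₂ (hc.inj u₁ u₂ v₂ hne₂ hne₃ (e1.trans e2.symm))

end Pool.Agent.T2H56.IC
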