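import Pool.Agent.T2H56.IC.Stm

namespace Pool.Agent.T2H56.IC

open Finset

namespace KM

theorem Kneg (N : ℕ) (s : Fin N → ℤ) (hN : 2 ≤ N) (u v : Fin N) : K N s v u = - K N s u v := by
  unfold K
  have : (2 : ℤ) ≤ N := by exact_mod_cast hN
  split_ifs <;> first | rfl | omega | simp

theorem Kmono (N : ℕ) (s : Fin N → ℤ) (hN : 2 ≤ N) (u v x : Fin N) (h : s u ≤ s v) :
    K N s x v ≤ K N s x u := by
  unfold K
  have : (2 : ℤ) ≤ N := by exact_mod_cast hN
  split_ifs <;> omega

theorem Kdiff (N : ℕ) (s : Fin N → ℤ) (hos : OS N s) (u v x : Fin N) :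
    K N s x u - K N s x v ≤ 1 := by
  by_contra h
  push Not at h
  have h1 : ∀ y, K N s x y = 1 ∨ K N s x y = -1 ∨ K N s x y = 0 := by
    intro y
    unfold K
    split_ifs <;> simp
  rcases h1 u with h2 | h2 | h2 <;> rcases h1 v with h3 | h3 | h3 <;>
    first | exact hos x u v h2 h3 | omega

theorem Aeq (N : ℕ) (s : Fin N → ℤ) (hN : 2 ≤ N) (u : Fin N) :
    A N s u = - ∑ x, K N s x u := by
  unfold A
  rw [← sum_neg_distrib]
  exact sum_congr rfl (fun x _ => Kneg N s hN x u)

theorem Adiff (N : ℕ) (s : Fin N → ℤ) (hN : 2 ≤ N) (u v : Fin N) :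
    A N s v - A N s u = ∑ x, (K N s x u - K N s x v) := by
  rw [Aeq N s hN u, Aeq N s hN v, sum_sub_distrib]
  ring

theorem Amono (N : ℕ) (s : Fin N → ℤ) (hN : 2 ≤ N) (u v : Fin N) (h : s u ≤ s v) :
    A N s u ≤ A N s v := by
  have h1 := Adiff N s hN u v
  have h2 : 0 ≤ ∑ x, (K N s x u - K N s x v) :=
    sum_nonneg (fun x _ => sub_nonneg.mpr (Kmono N s hN u v x h))
  linarith

theorem zero (N : ℕ) (s : Fin N → ℤ) (hN : 2 ≤ N) (u v : Fin N) (h : s u ≤ s v)
    (hA : A N s u = A N s v) (x : Fin N) : K N s x u = K N s x v := by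
  have h1 := Adiff N s hN u v
  rw [hA, sub_self] at h1
  have h2 := (sum_eq_zero_iff_of_nonneg (fun x _ => sub_nonneg.mpr (Kmono N s hN u v x h))).mp
    h1.symm x (mem_univ x)
  linarith

theorem Kself (N : ℕ) (s : Fin N → ℤ) (hN : 2 ≤ N) (u : Fin N) : K N s u u = 0 := by
  have := Kneg N s hN u u
  omega

end KM

theorem pKM : S_KM := by
  intro N s hN hos
  refine ⟨fun u v x h => KM.Kmono N s hN u v x h, fun u v x _ => Or.inl (KM.Kdiff N s hos u v x),
    fun u v h => KM.Amono N s hN u v h, ?_, ?_, ?_⟩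
  · intro u v
    rw [KM.Adiff N s hN u v]
    calc ∑ x, (K N s x u - K N s x v) ≤ ∑ x : Fin N, (1 : ℤ) :=
          sum_le_sum (fun x _ => KM.Kdiff N s hos u v x)
      _ = N := by simp
  · intro u v hA
    have hall : ∀ x, K N s x u = K N s x v := by
      intro x
      rcases le_total (s u) (s v) with h | h
      · exact KM.zero N s hN u v h hA x
      · exact (KM.zero N s hN v u h hA.symm x).symm
    refine ⟨?_, hall⟩
    rw [hall v, KM.Kself N s hN v]
  · intro u v hA
    by_contra h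
    push Not at h
    have := KM.Amono N s hN v u h
    linarith

end Pool.Agent.T2H56.IC
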