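import Pool.Agent.T2H56.IC.Stm

/-!
# Package KN: rotation removing the ties
-/

namespace Pool.Agent.T2H56.IC

open Finset

theorem kn_diag {N : ℕ} (hN : 4 ≤ N) (s : Fin N → ℤ) (u : Fin N) : K N s u u = 0 := by
  unfold K
  rw [sub_self, if_neg (by omega), if_neg (by omega)]

theorem pKN : S_KN := by
  intro hKT hKM N t s p hN ht hc
  obtain ⟨hw, hOS⟩ := hKT N t s p hN (by omega) hc
  obtain ⟨-, -, h3, h4, -, -⟩ := hKM N s (by omega) hOS
  have ht0 : (0 : ℤ) < t := by
    have : 0 < t := by omega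
    exact_mod_cast this
  have hne : (univ : Finset (Fin N)).Nonempty := ⟨⟨0, by omega⟩, mem_univ _⟩
  obtain ⟨v₁, -, hv₁⟩ := Finset.exists_max_image univ (A N s) hne
  obtain ⟨v₀, hv₀, hmin⟩ := Finset.exists_min_image (univ.filter (fun v => A N s v = A N s v₁)) s
    ⟨v₁, by simp⟩
  have ha₀ : A N s v₀ = A N s v₁ := (Finset.mem_filter.1 hv₀).2
  obtain ⟨c, hcdef⟩ : ∃ c, c = s v₀ := ⟨_, rfl⟩
  have hmax : ∀ v, A N s v ≤ A N s v₀ := fun v => by
    rw [ha₀]
    exact hv₁ v (mem_univ v)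
  have hc1 : ∀ v, A N s v = A N s v₀ → c ≤ s v := fun v hv => by
    rw [hcdef]
    exact hmin v (Finset.mem_filter.2 ⟨mem_univ v, hv.trans ha₀⟩)
  have hc2 : ∀ v, c ≤ s v → A N s v = A N s v₀ := fun v hv =>
    le_antisymm (hmax v) (h3 v₀ v (by rw [← hcdef]; exact hv))
  obtain ⟨e, he⟩ : ∃ e : Fin N → ℤ, ∀ v, e v = if c ≤ s v then 0 else 1 := ⟨_, fun _ => rfl⟩
  obtain ⟨s', hs'⟩ : ∃ s' : Fin N → ℤ, ∀ v, s' v = s v - c + t * e v := ⟨_, fun _ => rfl⟩
  have hc0 : 0 ≤ c := by rw [hcdef]; exact hc.s0 v₀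
  have hct : c < t := by rw [hcdef]; exact hc.st v₀
  have hconf : Conf N t s' p := by
    refine ⟨fun v => ?_, fun v => ?_, hc.p0, hc.pN, hc.inj, fun u v huv => ?_, fun x => ?_⟩
    · have h5 := hc.s0 v
      rw [hs', he]
      split_ifs <;> omega
    · have h5 := hc.st v
      rw [hs', he]
      split_ifs <;> omega
    · obtain ⟨j, hj⟩ := hc.cong u v huv
      refine ⟨j + (e u - e v), ?_⟩
      rw [hs', hs']
      linear_combination hj
    · obtain ⟨u, v, huv, j, hj⟩ := hc.surj (x + c)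
      refine ⟨u, v, huv, j + e u, ?_⟩
      rw [hs']
      linear_combination hj
  obtain ⟨hw', -⟩ := hKT N t s' p hN (by omega) hconf
  have hK : ∀ u v, K N s' u v = K N s u v + (e u - e v) := by
    intro u v
    by_cases huv : u = v
    · rw [huv, kn_diag hN, kn_diag hN]
      ring
    · have h5 := hw u v huv
      have h6 := hw' u v huv
      rw [hs', hs'] at h6
      have h7 : (t : ℤ) * K N s' u v = t * (K N s u v + (e u - e v)) := by linarith
      exact mul_left_cancel₀ ht0.ne' h7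
  have hA : ∀ u, A N s' u = A N s u + N * e u - ∑ v, e v := by
    intro u
    unfold A
    simp only [hK]
    rw [Finset.sum_add_distrib, Finset.sum_sub_distrib, Finset.sum_const, Finset.card_univ,
      Fintype.card_fin, nsmul_eq_mul]
    ring
  refine ⟨s', hconf, fun u v => ?_⟩
  rw [hA, hA]
  have h5 := h4 v u
  have h6 := h4 v v₀
  have hN0 : (0 : ℤ) < N := by
    have : 0 < N := by omega
    exact_mod_cast this
  by_cases hu : c ≤ s u
  · have hu1 := hc2 u hu
    by_cases hv : c ≤ s v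
    · have hv1 := hc2 v hv
      rw [he, he, if_pos hu, if_pos hv]
      linarith
    · rw [he, he, if_pos hu, if_neg hv]
      linarith
  · have hu1 : A N s u < A N s v₀ := lt_of_le_of_ne (hmax u) (fun h => hu (hc1 u h))
    by_cases hv : c ≤ s v
    · have hv1 := hc2 v hv
      rw [he, he, if_neg hu, if_pos hv]
      linarith
    · rw [he, he, if_neg hu, if_neg hv]
      linarith

end Pool.Agent.T2H56.IC
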