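import Pool.Agent.T2H56.IC.Stm

/-!
# Package KP: ranks in a sorted configuration without ties
-/

namespace Pool.Agent.T2H56.IC

open Finset

namespace KP

private lemma cardE {N : ℕ} (u : Fin N) (q : Fin N → Prop) [DecidablePred q] :
    (((univ.erase u).filter q).card : ℤ) = ∑ x, if (x ≠ u ∧ q x) then (1 : ℤ) else 0 := by
  have : (univ.erase u).filter q = univ.filter (fun x => x ≠ u ∧ q x) := by
    ext x; simp
  rw [this, Finset.sum_boole]

private lemma lowE {N : ℕ} (s : Fin N → ℤ) (v : Fin N) :
    Low N s v = ∑ x, if A N s x < A N s v then (1 : ℤ) else 0 := by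
  unfold Low
  rw [Finset.sum_boole]

private lemma kvals {N : ℕ} (s : Fin N → ℤ) (u x : Fin N) :
    (K N s u x = 1 ∧ (N : ℤ) - 1 ≤ s u - s x) ∨
    (K N s u x = -1 ∧ (N : ℤ) - 1 ≤ s x - s u) ∨
    (K N s u x = 0 ∧ s u - s x < (N : ℤ) - 1 ∧ s x - s u < (N : ℤ) - 1) := by
  unfold K
  split_ifs with h1 h2
  · left; exact ⟨rfl, h1⟩
  · right; left; exact ⟨rfl, h2⟩
  · right; right; exact ⟨rfl, by omega, by omega⟩

end KP

open KP in
/-- PACKAGE KP -/
theorem pKP : S_KP := by
  intro hKM N s hN hOS hNT u v huv
  obtain ⟨-, -, hmono, -, heq, hlt⟩ := hKM N s (by omega) hOS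
  have hsuv := hlt u v huv
  have hNZ : (4 : ℤ) ≤ N := by exact_mod_cast hN
  have hsum1 : ∀ w : Fin N, (∑ x : Fin N, if x = w then (1 : ℤ) else 0) = 1 := by
    intro w; simp
  have hsumN : (∑ _x : Fin N, (1 : ℤ)) = N := by simp
  have hA : ∀ w, A N s w = ∑ x, K N s w x := fun w => rfl
  have hW : ∀ a b c, (W N s a b < W N s a c ↔
      N * K N s a b + A N s b < N * K N s a c + A N s c) := by
    intro a b c
    unfold W
    constructor <;> intro h <;> linarith
  rw [cardE, cardE, lowE, lowE]
  rcases kvals s u v with ⟨_, h⟩ | ⟨hk, hks⟩ | ⟨hk, hk1, hk2⟩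
  · omega
  · -- `K u v = -1`
    have hkv : K N s v u = 1 := by
      rcases kvals s v u with ⟨h, _⟩ | ⟨_, h⟩ | ⟨_, h, _⟩
      · exact h
      · omega
      · omega
    have hP : ∀ x, (if (x ≠ u ∧ W N s u x < W N s u v) then (1 : ℤ) else 0)
        = (if A N s x < A N s v then (1 : ℤ) else 0) - 1 - K N s u x := by
      intro x
      simp only [hW, hk]
      have t1 := hNT v x
      rcases kvals s u x with ⟨hx, hxs⟩ | ⟨hx, hxs⟩ | ⟨hx, hx1, hx2⟩
      · exact absurd hk (fun h => hOS u x v hx h)
      · have hxu : x ≠ u := by rintro rfl; omega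
        rw [hx]
        by_cases hlt' : A N s x < A N s v
        · rw [if_pos hlt', if_pos ⟨hxu, by linarith⟩]; norm_num
        · rw [if_neg hlt', if_neg (fun h => hlt' (by linarith [h.2]))]; norm_num
      · have hlt' : A N s x < A N s v := by
          by_contra hc
          rcases lt_or_eq_of_le (not_lt.mp hc) with h | h
          · have := hlt v x h
            omega
          · have := (heq v x h).2 u
            omega
        rw [hx, if_pos hlt', if_neg (fun h => by have := h.2; nlinarith)]
        norm_num
    have hR : ∀ x, (if (x ≠ v ∧ W N s v x < W N s v u) then (1 : ℤ) else 0)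
        = (if A N s x < A N s u then (1 : ℤ) else 0) + 1
          - (if x = v then (1 : ℤ) else 0) - K N s v x := by
      intro x
      simp only [hW, hkv]
      have t1 := hNT x u
      rcases kvals s v x with ⟨hx, hxs⟩ | ⟨hx, hxs⟩ | ⟨hx, hx1, hx2⟩
      · have hxv : x ≠ v := by rintro rfl; omega
        rw [hx, if_neg hxv]
        by_cases hlt' : A N s x < A N s u
        · rw [if_pos hlt', if_pos ⟨hxv, by linarith⟩]; norm_num
        · rw [if_neg hlt', if_neg (fun h => hlt' (by linarith [h.2]))]; norm_num
      · exact absurd hx (fun h => hOS v u x hkv h)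
      · have hlt' : ¬ A N s x < A N s u := by
          intro hc
          have := hlt x u hc
          omega
        rw [hx, if_neg hlt']
        by_cases hxv : x = v
        · rw [if_pos hxv, if_neg (fun h => h.1 hxv)]; norm_num
        · rw [if_neg hxv, if_pos ⟨hxv, by linarith⟩]; norm_num
    rw [Finset.sum_congr rfl (fun x _ => hP x), Finset.sum_congr rfl (fun x _ => hR x)]
    simp only [Finset.sum_sub_distrib, Finset.sum_add_distrib]
    rw [hsum1, hsumN, ← hA, ← hA, hk, if_neg (by norm_num)]
    ring
  · -- `K u v = 0`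
    have hkv : K N s v u = 0 := by
      rcases kvals s v u with ⟨_, h⟩ | ⟨_, h⟩ | ⟨h, _, _⟩
      · omega
      · omega
      · exact h
    have hP : ∀ x, (if (x ≠ u ∧ W N s u x < W N s u v) then (1 : ℤ) else 0)
        = (if A N s x < A N s v then (1 : ℤ) else 0)
          - (if x = u then (1 : ℤ) else 0) - K N s u x := by
      intro x
      simp only [hW, hk]
      have t1 := hNT v x
      have t2 := hNT x v
      rcases kvals s u x with ⟨hx, hxs⟩ | ⟨hx, hxs⟩ | ⟨hx, hx1, hx2⟩
      · have hxu : x ≠ u := by rintro rfl; omega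
        have hAx : A N s x < A N s v := lt_of_le_of_lt (hmono x u (by omega)) huv
        rw [hx, if_neg hxu, if_pos hAx, if_neg (fun h => by have := h.2; linarith)]
        norm_num
      · have hxu : x ≠ u := by rintro rfl; omega
        have hAx : ¬ A N s x < A N s v := not_lt.mpr (hmono v x (by omega))
        rw [hx, if_neg hxu, if_neg hAx, if_pos ⟨hxu, by linarith⟩]
        norm_num
      · rw [hx]
        by_cases hxu : x = u
        · rw [if_pos hxu, if_neg (fun h => h.1 hxu), hxu, if_pos huv]; norm_num
        · by_cases hlt' : A N s x < A N s v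
          · rw [if_neg hxu, if_pos hlt', if_pos ⟨hxu, by linarith⟩]; norm_num
          · rw [if_neg hxu, if_neg hlt', if_neg (fun h => hlt' (by linarith [h.2]))]; norm_num
    have hR : ∀ x, (if (x ≠ v ∧ W N s v x < W N s v u) then (1 : ℤ) else 0)
        = (if A N s x < A N s u then (1 : ℤ) else 0) - K N s v x := by
      intro x
      simp only [hW, hkv]
      have t1 := hNT u x
      have t2 := hNT x u
      rcases kvals s v x with ⟨hx, hxs⟩ | ⟨hx, hxs⟩ | ⟨hx, hx1, hx2⟩
      · have hxv : x ≠ v := by rintro rfl; omega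
        have hAx : A N s x < A N s u := by
          rcases lt_or_eq_of_le (hmono x u (by omega)) with h | h
          · exact h
          · have := (heq x u h).2 v
            omega
        rw [hx, if_pos hAx, if_neg (fun h => by have := h.2; linarith)]
        norm_num
      · have hxv : x ≠ v := by rintro rfl; omega
        have hAx : ¬ A N s x < A N s u := not_lt.mpr (hmono u x (by omega))
        rw [hx, if_neg hAx, if_pos ⟨hxv, by linarith⟩]
        norm_num
      · rw [hx]
        by_cases hxv : x = v
        · rw [if_neg (fun h => h.1 hxv), hxv, if_neg (by linarith)]; norm_num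
        · by_cases hlt' : A N s x < A N s u
          · rw [if_pos hlt', if_pos ⟨hxv, by linarith⟩]; norm_num
          · rw [if_neg hlt', if_neg (fun h => hlt' (by linarith [h.2]))]; norm_num
    rw [Finset.sum_congr rfl (fun x _ => hP x), Finset.sum_congr rfl (fun x _ => hR x)]
    simp only [Finset.sum_sub_distrib]
    rw [hsum1, ← hA, ← hA, hk, if_pos rfl]
    ring

end Pool.Agent.T2H56.IC
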