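import Pool.Agent.T2H56.IC.Stm

/-!
# Package KR: rearrangement
-/

namespace Pool.Agent.T2H56.IC

open Finset

theorem kr_count {α : Type} [DecidableEq α] (S : Finset α) (p : α → ℤ)
    (h0 : ∀ v ∈ S, 0 ≤ p v) (h1 : ∀ v ∈ S, p v < S.card)
    (hinj : ∀ v ∈ S, ∀ v' ∈ S, p v = p v' → v = v') (v : α) (hv : v ∈ S) :
    ∑ v' ∈ S, ((if p v' < p v then (1 : ℤ) else 0) - (if p v < p v' then 1 else 0)) =
      2 * p v - (S.card - 1) := by
  have himg : S.image p = Finset.Ico (0 : ℤ) S.card := by
    refine Finset.eq_of_subset_of_card_le (fun x hx => ?_) ?_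
    · obtain ⟨u, hu, rfl⟩ := Finset.mem_image.1 hx
      exact Finset.mem_Ico.2 ⟨h0 u hu, h1 u hu⟩
    · rw [Finset.card_image_of_injOn (fun a ha b hb h => hinj a ha b hb h), Int.card_Ico]
      simp
  have key : ∀ f : ℤ → ℤ, ∑ v' ∈ S, f (p v') = ∑ k ∈ Finset.Ico (0 : ℤ) S.card, f k := by
    intro f
    rw [← himg, Finset.sum_image (fun a ha b hb h => hinj a ha b hb h)]
  have hv0 := h0 v hv
  have hv1 := h1 v hv
  rw [key (fun k => (if k < p v then (1 : ℤ) else 0) - (if p v < k then 1 else 0)),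
    Finset.sum_sub_distrib]
  have e1 : ∑ k ∈ Finset.Ico (0 : ℤ) S.card, (if k < p v then (1 : ℤ) else 0) = p v := by
    rw [Finset.sum_boole]
    have : (Finset.Ico (0 : ℤ) S.card).filter (fun k => k < p v) = Finset.Ico 0 (p v) := by
      ext k
      simp only [Finset.mem_filter, Finset.mem_Ico]
      omega
    rw [this, Int.card_Ico]
    omega
  have e2 : ∑ k ∈ Finset.Ico (0 : ℤ) S.card, (if p v < k then (1 : ℤ) else 0) =
      S.card - 1 - p v := by
    rw [Finset.sum_boole]
    have : (Finset.Ico (0 : ℤ) S.card).filter (fun k => p v < k) = Finset.Ico (p v + 1) S.card := by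
      ext k
      simp only [Finset.mem_filter, Finset.mem_Ico]
      omega
    rw [this, Int.card_Ico]
    omega
  rw [e1, e2]
  ring

theorem pKR : S_KR := by
  intro α _ S w p h0 h1 hinj hw
  have hS : 4 * ∑ v ∈ S, w v * p v = ∑ v ∈ S, ∑ v' ∈ S, (w v - w v') *
      ((if p v' < p v then (1 : ℤ) else 0) - (if p v < p v' then 1 else 0)) := by
    have e1 : ∑ v ∈ S, ∑ v' ∈ S, w v *
        ((if p v' < p v then (1 : ℤ) else 0) - (if p v < p v' then 1 else 0)) =
        2 * ∑ v ∈ S, w v * p v := by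
      have : ∀ v ∈ S, ∑ v' ∈ S, w v *
          ((if p v' < p v then (1 : ℤ) else 0) - (if p v < p v' then 1 else 0)) =
          2 * (w v * p v) - (S.card - 1) * w v := by
        intro v hv
        rw [← Finset.mul_sum, kr_count S p h0 h1 hinj v hv]
        ring
      rw [Finset.sum_congr rfl this, Finset.sum_sub_distrib, ← Finset.mul_sum, ← Finset.mul_sum,
        hw, mul_zero, sub_zero]
    have e2 : ∑ v ∈ S, ∑ v' ∈ S, w v' *
        ((if p v' < p v then (1 : ℤ) else 0) - (if p v < p v' then 1 else 0)) =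
        - (2 * ∑ v ∈ S, w v * p v) := by
      rw [Finset.sum_comm, ← e1, ← Finset.sum_neg_distrib]
      refine Finset.sum_congr rfl fun v _ => ?_
      rw [← Finset.sum_neg_distrib]
      refine Finset.sum_congr rfl fun v' _ => ?_
      ring
    simp only [sub_mul]
    simp only [Finset.sum_sub_distrib]
    rw [e1, e2]
    ring
  have hle : ∀ v ∈ S, ∀ v' ∈ S, (w v - w v') *
      ((if p v' < p v then (1 : ℤ) else 0) - (if p v < p v' then 1 else 0)) ≤ |w v - w v'| := by
    intro v _ v' _
    have h1 := le_abs_self (w v - w v')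
    have h2 := neg_abs_le (w v - w v')
    have h3 := abs_nonneg (w v - w v')
    split_ifs <;> linarith
  refine ⟨?_, fun heq v hv v' hv' hlt => ?_⟩
  · rw [hS]
    exact Finset.sum_le_sum fun v hv => Finset.sum_le_sum fun v' hv' => hle v hv v' hv'
  · rw [hS] at heq
    have h2 := (Finset.sum_eq_sum_iff_of_le
      (fun v hv => Finset.sum_le_sum fun v' hv' => hle v hv v' hv')).1 heq v hv
    have h3 := (Finset.sum_eq_sum_iff_of_le (fun v' hv' => hle v hv v' hv')).1 h2 v' hv'
    by_contra hcon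
    have h4 : |w v - w v'| = w v' - w v := by
      rw [abs_of_neg (by linarith)]
      ring
    rw [h4, if_neg hcon] at h3
    split_ifs at h3 <;> linarith

end Pool.Agent.T2H56.IC
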