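import Pool.Agent.T2H56.IC.Stm

namespace Pool.Agent.T2H56.IC

open Finset

theorem pKS : S_KS := by
  intro N s hN
  have hKa : ∀ u v, K N s v u = - K N s u v := by
    intro u v
    unfold K
    have : (2 : ℤ) ≤ N := by exact_mod_cast hN
    split_ifs <;> first | rfl | omega | simp
  have hWa : ∀ u v, W N s v u = - W N s u v := by
    intro u v
    unfold W
    rw [hKa u v]
    ring
  have hA0 : ∑ u, A N s u = 0 := by
    have h1 : ∑ u, A N s u = ∑ u, ∑ v, K N s u v := rfl
    have h2 : ∑ u, ∑ v, K N s u v = ∑ v, ∑ u, K N s u v := sum_comm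
    have h3 : ∑ v, ∑ u, K N s u v = ∑ v, ∑ u, - K N s v u :=
      sum_congr rfl (fun v _ => sum_congr rfl (fun u _ => hKa v u))
    simp only [sum_neg_distrib] at h3
    rw [h1]
    linarith
  have hrow : ∀ u, ∑ v, W N s u v = 0 := by
    intro u
    unfold W
    rw [sum_add_distrib, sum_sub_distrib, ← mul_sum, hA0]
    simp only [sum_const, card_univ, Fintype.card_fin, nsmul_eq_mul, A]
    ring
  have hcol : ∀ v, ∑ u, W N s u v = 0 := by
    intro v
    have : ∑ u, W N s u v = ∑ u, - W N s v u := sum_congr rfl (fun u _ => hWa v u)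
    rw [this, sum_neg_distrib, hrow v, neg_zero]
  have hkey : (N : ℤ) * Lam N s = ∑ u, ∑ v, W N s u v ^ 2 := by
    have h1 : ∀ u v, W N s u v ^ 2 = N * (W N s u v * K N s u v) - A N s u * W N s u v
        + A N s v * W N s u v := by
      intro u v
      have : W N s u v ^ 2 = W N s u v * (N * K N s u v - A N s u + A N s v) := by
        rw [sq]; rfl
      rw [this]; ring
    simp only [h1, sum_add_distrib, sum_sub_distrib]
    have h2 : ∑ u, ∑ v, A N s u * W N s u v = 0 := by
      refine sum_eq_zero (fun u _ => ?_)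
      rw [← mul_sum, hrow u, mul_zero]
    have h3 : ∑ u, ∑ v, A N s v * W N s u v = 0 := by
      rw [sum_comm]
      refine sum_eq_zero (fun v _ => ?_)
      rw [← mul_sum, hcol v, mul_zero]
    rw [h2, h3]
    unfold Lam
    rw [mul_sum]
    simp only [mul_sum]
    ring
  have hNpos : (0 : ℤ) < N := by exact_mod_cast (by omega : 0 < N)
  refine ⟨hKa, hWa, hrow, ?_, ?_⟩
  · have h1 : 0 ≤ (N : ℤ) * Lam N s := by
      rw [hkey]
      exact sum_nonneg (fun u _ => sum_nonneg (fun v _ => sq_nonneg _))
    by_contra h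
    push Not at h
    have := mul_neg_of_pos_of_neg hNpos h
    linarith
  · intro h u v
    rw [h, mul_zero] at hkey
    have h1 := (sum_eq_zero_iff_of_nonneg (fun u _ => sum_nonneg (fun v _ => sq_nonneg
      (W N s u v)))).mp hkey.symm u (mem_univ u)
    have h2 := (sum_eq_zero_iff_of_nonneg (fun v _ => sq_nonneg (W N s u v))).mp h1 v (mem_univ v)
    exact pow_eq_zero_iff (two_ne_zero) |>.mp h2

end Pool.Agent.T2H56.IC
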