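import Pool.Agent.T2H56.IC.Stm

/-!
# Package KT: threshold form of the winding numbers
-/

namespace Pool.Agent.T2H56.IC

open Finset

namespace KT

theorem mul_cases {t k D : ℤ} (ht : 0 < t) (hD : D = t * k) (h1 : -t < D) (h2 : D < 2 * t) :
    D = 0 ∨ D = t := by
  have hk1 : -1 < k := by
    by_contra hcon
    have h3 : k ≤ -1 := by omega
    have h4 : t * k ≤ t * (-1) := mul_le_mul_of_nonneg_left h3 ht.le
    linarith
  have hk2 : k < 2 := by
    by_contra hcon
    have h3 : 2 ≤ k := by omega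
    have h4 : t * 2 ≤ t * k := mul_le_mul_of_nonneg_left h3 ht.le
    linarith
  have hk : k = 0 ∨ k = 1 := by omega
  rcases hk with rfl | rfl
  · left; rw [hD, mul_zero]
  · right; rw [hD, mul_one]

theorem key {N t : ℕ} {s : Fin N → ℤ} {p : Fin N → Fin N → ℤ} (hN : 4 ≤ N)
    (ht : 2 * N ≤ t + 3) (h : Conf N t s p) {u v : Fin N} (huv : u ≠ v) (hs : s v ≤ s u) :
    (s u + p u v) - (s v + p v u) = t * K N s u v := by
  have hN' : (4 : ℤ) ≤ N := by exact_mod_cast hN
  have ht' : (2 : ℤ) * N ≤ t + 3 := by exact_mod_cast ht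
  obtain ⟨k, hk⟩ := h.cong u v huv
  have h1 := h.p0 u v huv
  have h2 := h.pN u v huv
  have h3 := h.p0 v u huv.symm
  have h4 := h.pN v u huv.symm
  have h5 := h.s0 v
  have h6 := h.st u
  rcases mul_cases (t := (t : ℤ)) (by omega) hk (by omega) (by omega) with h7 | h7
  · have hK : K N s u v = 0 := by
      unfold K
      rw [if_neg (by omega), if_neg (by omega)]
    rw [hK, mul_zero]
    exact h7
  · have hK : K N s u v = 1 := by
      unfold K
      rw [if_pos (by omega)]
    rw [hK, mul_one]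
    exact h7

theorem K_neg {N : ℕ} (hN : 4 ≤ N) (s : Fin N → ℤ) (u v : Fin N) :
    K N s v u = - K N s u v := by
  have hN' : (4 : ℤ) ≤ N := by exact_mod_cast hN
  unfold K
  split_ifs <;> omega

theorem all {N t : ℕ} {s : Fin N → ℤ} {p : Fin N → Fin N → ℤ} (hN : 4 ≤ N)
    (ht : 2 * N ≤ t + 3) (h : Conf N t s p) (u v : Fin N) (huv : u ≠ v) :
    (s u + p u v) - (s v + p v u) = t * K N s u v := by
  rcases le_total (s v) (s u) with h1 | h1
  · exact key hN ht h huv h1
  · have h2 := key hN ht h huv.symm h1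
    rw [K_neg hN s u v] at h2
    linarith

end KT

open KT in
theorem pKT : S_KT := by
  intro N t s p hN ht h
  refine ⟨fun u v huv => all hN ht h u v huv, ?_⟩
  intro u v w h1 h2
  have hN' : (4 : ℤ) ≤ N := by exact_mod_cast hN
  have ht' : (2 : ℤ) * N ≤ t + 3 := by exact_mod_cast ht
  have huv : u ≠ v := by
    rintro rfl
    have := K_neg hN s u u
    omega
  have huw : u ≠ w := by
    rintro rfl
    have := K_neg hN s u u
    omega
  have e1 := all hN ht h u v huv
  have e2 := all hN ht h u w huw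
  rw [h1, mul_one] at e1
  rw [h2] at e2
  have b1 := h.p0 u v huv
  have b2 := h.pN u v huv
  have b3 := h.p0 v u huv.symm
  have b4 := h.pN v u huv.symm
  have b5 := h.p0 u w huw
  have b6 := h.pN u w huw
  have b7 := h.p0 w u huw.symm
  have b8 := h.pN w u huw.symm
  have b9 := h.s0 v
  have b10 := h.st w
  linarith

end Pool.Agent.T2H56.IC
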