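import Pool.Agent.T2H56.IC.Stm

namespace Pool.Agent.T2H56.IC

open Finset

theorem pKU : S_KU := by
  intro hKT hKS hKE hKR hKM hKC hKL N t s p hN ht hconf
  obtain ⟨hk, hos⟩ := hKT N t s p hN ht hconf
  obtain ⟨hKa, hWa, hrow, hL0, hLz⟩ := hKS N s (by omega)
  have hE := hKE hKS N t s p (by omega) hk
  have hC := hKC hKM N s (by omega) hos
  have hLpos : 0 < Lam N s := by
    rcases lt_or_eq_of_le hL0 with h | h
    · exact h
    · exact (hKL N t s p hN ht hconf hk (hLz h.symm)).elim
  have hdiag : ∀ u, W N s u u = 0 := by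
    intro u
    have := hWa u u
    omega
  have hcard : ∀ u : Fin N, ((univ.erase u).card : ℤ) = (N : ℤ) - 1 := by
    intro u
    rw [card_erase_of_mem (mem_univ u), card_univ, Fintype.card_fin]
    push_cast [Nat.cast_sub (show 1 ≤ N by omega)]
    ring
  have hR : ∀ u : Fin N, 4 * ∑ v ∈ univ.erase u, W N s u v * p u v
        ≤ ∑ v ∈ univ.erase u, ∑ v' ∈ univ.erase u, |W N s u v - W N s u v'| ∧
      (4 * ∑ v ∈ univ.erase u, W N s u v * p u v
        = ∑ v ∈ univ.erase u, ∑ v' ∈ univ.erase u, |W N s u v - W N s u v'| →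
        ∀ v ∈ univ.erase u, ∀ v' ∈ univ.erase u, W N s u v < W N s u v' → p u v < p u v') := by
    intro u
    refine hKR (Fin N) (univ.erase u) (W N s u) (p u) ?_ ?_ ?_ ?_
    · intro v hv
      exact hconf.p0 u v (ne_of_mem_erase hv).symm
    · intro v hv
      rw [hcard]
      have := hconf.pN u v (ne_of_mem_erase hv).symm
      linarith
    · intro v hv v' hv' h
      exact hconf.inj u v v' (ne_of_mem_erase hv).symm (ne_of_mem_erase hv').symm h
    · have h1 := add_sum_erase univ (W N s u) (mem_univ u)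
      rw [hdiag u, hrow u] at h1
      linarith
  have hsum : ∀ u : Fin N, ∑ v ∈ univ.erase u, W N s u v * p u v = ∑ v, W N s u v * p u v := by
    intro u
    have h1 := add_sum_erase univ (fun v => W N s u v * p u v) (mem_univ u)
    simp only [hdiag u, zero_mul, zero_add] at h1
    exact h1
  have htot : ∑ u, 4 * ∑ v ∈ univ.erase u, W N s u v * p u v = 2 * (t * Lam N s) := by
    rw [← hE, ← mul_sum]
    simp only [hsum]
    ring
  have hle : 2 * (t * Lam N s) ≤ 2 * (2 * N - 3) * Lam N s := by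
    rw [← htot, ← hC]
    exact sum_le_sum (fun u _ => (hR u).1)
  have htN : (t : ℤ) = 2 * N - 3 := by
    have h1 : (t : ℤ) ≤ 2 * N - 3 := by
      by_contra hlt
      push Not at hlt
      have h2 : 0 < ((t : ℤ) - (2 * N - 3)) * Lam N s := mul_pos (by linarith) hLpos
      linarith
    have h3 : (2 : ℤ) * N ≤ t + 3 := by exact_mod_cast ht
    linarith
  refine ⟨by omega, ?_, hLpos⟩
  have heq : ∀ u ∈ (univ : Finset (Fin N)), 4 * ∑ v ∈ univ.erase u, W N s u v * p u v
      = ∑ v ∈ univ.erase u, ∑ v' ∈ univ.erase u, |W N s u v - W N s u v'| := by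
    refine (sum_eq_sum_iff_of_le (fun u _ => (hR u).1)).mp ?_
    rw [htot, hC, htN]
    ring
  intro u v w huv huw hlt
  exact (hR u).2 (heq u (mem_univ u)) v (mem_erase.mpr ⟨huv.symm, mem_univ v⟩) w
    (mem_erase.mpr ⟨huw.symm, mem_univ w⟩) hlt

end Pool.Agent.T2H56.IC
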