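import Pool.Agent.T2H56.IC.Stm

/-!
# Package Q37: `7 ∈ FS (Q 3)` (and the passage from colour tables to feasible sets of cubes)
-/

namespace Pool.Agent.T2H56.IC

open Finset

namespace QTab

lemma flip_self_ne {n : ℕ} (i : Fin n) (x : Fin n → Bool) : flip i x i ≠ x i := by
  unfold flip
  rw [Function.update_self]
  cases x i <;> decide

lemma flip_other {n : ℕ} (i j : Fin n) (x : Fin n → Bool) (h : j ≠ i) : flip i x j = x j := by
  unfold flip
  rw [Function.update_of_ne h]

lemma flip_inj {n : ℕ} (i j : Fin n) (x : Fin n → Bool) (h : flip i x = flip j x) : i = j := by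
  by_contra hne
  have h1 := flip_self_ne i x
  rw [h, flip_other j i x hne] at h1
  exact h1 rfl

lemma flip_flip {n : ℕ} (i : Fin n) (x : Fin n → Bool) : flip i (flip i x) = x := by
  funext j
  by_cases hj : j = i
  · subst hj
    unfold flip
    rw [Function.update_self, Function.update_self, Bool.not_not]
  · rw [flip_other _ _ _ hj, flip_other _ _ _ hj]

lemma adj_iff {n : ℕ} (x y : Fin n → Bool) : (Q n).Adj x y ↔ ∃ i, y = flip i x := by
  constructor
  · rintro ⟨i, h1, h2⟩
    refine ⟨i, ?_⟩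
    funext j
    by_cases hj : j = i
    · subst hj
      unfold flip
      rw [Function.update_self]
      revert h1
      cases x j <;> cases y j <;> decide
    · rw [flip_other _ _ _ hj, h2 j hj]
  · rintro ⟨i, rfl⟩
    exact ⟨i, (flip_self_ne i x).symm, fun j hj => (flip_other i j x hj).symm⟩

lemma card_nbr {n : ℕ} (x : Fin n → Bool) : Nat.card ((Q n).neighborSet x) = n := by
  have : Function.Bijective
      (fun i : Fin n => (⟨flip i x, (adj_iff x _).2 ⟨i, rfl⟩⟩ : (Q n).neighborSet x)) := by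
    constructor
    · intro i j h
      exact flip_inj i j x (congrArg Subtype.val h)
    · rintro ⟨y, hy⟩
      obtain ⟨i, hi⟩ := (adj_iff x y).1 hy
      exact ⟨i, Subtype.ext hi.symm⟩
  rw [← Nat.card_eq_of_bijective _ this, Nat.card_fin]

open Classical in
/-- the colour function of a table -/
noncomputable def colOf {n : ℕ} (c : (Fin n → Bool) → Fin n → ℤ) (x y : Fin n → Bool) : ℤ :=
  if h : ∃ i, y = flip i x then c x h.choose else 0

lemma colOf_flip {n : ℕ} (c : (Fin n → Bool) → Fin n → ℤ) (x : Fin n → Bool) (i : Fin n) :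
    colOf c x (flip i x) = c x i := by
  have h : ∃ j, flip i x = flip j x := ⟨i, rfl⟩
  unfold colOf
  rw [dif_pos h, flip_inj _ _ x h.choose_spec.symm]

/-- from a colour table to the feasible set of the cube -/
theorem mem_FS (hCG : S_CG) (n t : ℕ) (ht : 1 ≤ t) (c : (Fin n → Bool) → Fin n → ℤ)
    (S : (Fin n → Bool) → ℤ)
    (h1 : ∀ x i, c x i = c (flip i x) i)
    (h3 : ∀ x i, (c x i - S x) % t < n)
    (h4 : ∀ x i j, (c x i - c x j) % t = 0 → i = j)
    (h5 : ∀ r : Fin t, ∃ x i, c x i = (r : ℕ)) : t ∈ FS (Q n) := by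
  have htZ : (0 : ℤ) < t := by exact_mod_cast ht
  refine hCG (Fin n → Bool) (Q n) t (colOf c) S (fun _ => n) ht ?_ (fun x => card_nbr x) ?_ ?_ ?_
  · intro u v huv
    obtain ⟨i, rfl⟩ := (adj_iff u v).1 huv
    have : colOf c (flip i u) u = c (flip i u) i := by
      have h := colOf_flip c (flip i u) i
      rwa [flip_flip] at h
    rw [this, colOf_flip, ← h1]
    simp
  · intro v u hvu
    obtain ⟨i, rfl⟩ := (adj_iff v u).1 hvu
    refine ⟨(c v i - S v) % t, Int.emod_nonneg _ htZ.ne', h3 v i, ?_⟩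
    rw [colOf_flip]
    have := Int.emod_add_mul_ediv (c v i - S v) t
    exact ⟨(c v i - S v) / t, by linarith⟩
  · intro v u w hu hw hd
    obtain ⟨i, rfl⟩ := (adj_iff v u).1 hu
    obtain ⟨j, rfl⟩ := (adj_iff v w).1 hw
    rw [colOf_flip, colOf_flip] at hd
    rw [h4 v i j (Int.emod_eq_zero_of_dvd hd)]
  · intro x
    have hr0 := Int.emod_nonneg x htZ.ne'
    have hr1 := Int.emod_lt_of_pos x htZ
    obtain ⟨y, i, hy⟩ := h5 ⟨(x % t).toNat, by omega⟩
    refine ⟨y, flip i y, (adj_iff _ _).2 ⟨i, rfl⟩, ?_⟩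
    rw [colOf_flip, hy]
    have h2 : (((x % t).toNat : ℕ) : ℤ) = x % t := Int.toNat_of_nonneg hr0
    simp only [h2]
    have := Int.emod_add_mul_ediv x t
    exact ⟨-(x / t), by linarith⟩

end QTab

namespace Q37

def code (x : Fin 3 → Bool) : ℕ := (x 0).toNat + 2 * (x 1).toNat + 4 * (x 2).toNat

def tab : List (List ℕ) :=
  [[2, 0, 1], [2, 4, 3], [6, 0, 1], [6, 4, 5], [2, 0, 1], [2, 4, 3], [6, 0, 1], [6, 4, 5]]

def starts : List ℕ := [0, 2, 6, 4, 0, 2, 6, 4]

def c (x : Fin 3 → Bool) (i : Fin 3) : ℤ := (((tab.getD (code x) []).getD i 0 : ℕ) : ℤ)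

def S (x : Fin 3 → Bool) : ℤ := ((starts.getD (code x) 0 : ℕ) : ℤ)

end Q37

/-- PACKAGE Q37 -/
theorem pQ37 : S_Q37 := fun hCG =>
  QTab.mem_FS hCG 3 7 (by norm_num) Q37.c Q37.S (by decide +kernel) (by decide +kernel)
    (by decide +kernel) (by decide +kernel)

end Pool.Agent.T2H56.IC
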