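import Pool.Agent.T2H56.IC.Stm

set_option autoImplicit false

/-! Package QC: exact data on the cube can be read modulo every smaller modulus. -/

namespace Pool.Agent.T2H56.IC

open Finset

namespace QC

theorem flip_self {n : ℕ} (i : Fin n) (x : Fin n → Bool) : flip i x i = ! x i := by
  unfold flip
  rw [Function.update_self]

theorem flip_ne {n : ℕ} {i j : Fin n} (h : j ≠ i) (x : Fin n → Bool) : flip i x j = x j := by
  unfold flip
  rw [Function.update_of_ne h]

theorem flip_inj {n : ℕ} {i j : Fin n} {x : Fin n → Bool} (h : flip i x = flip j x) : i = j := by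
  by_contra hne
  have h1 := congrFun h i
  rw [flip_self, flip_ne hne] at h1
  cases hx : x i <;> simp [hx] at h1

theorem flip2 {n : ℕ} (i : Fin n) (x : Fin n → Bool) : flip i (flip i x) = x := by
  funext j
  by_cases h : j = i
  · subst h
    rw [flip_self, flip_self, Bool.not_not]
  · rw [flip_ne h, flip_ne h]

theorem adj_iff {n : ℕ} (x y : Fin n → Bool) : (Q n).Adj x y ↔ ∃ i, y = flip i x := by
  constructor
  · rintro ⟨i, h1, h2⟩
    refine ⟨i, ?_⟩
    funext j
    by_cases h : j = i
    · subst h
      rw [flip_self]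
      cases hx : x j <;> cases hy : y j <;> simp_all
    · rw [flip_ne h, h2 j h]
  · rintro ⟨i, rfl⟩
    refine ⟨i, ?_, fun j hj => (flip_ne hj x).symm⟩
    rw [flip_self]
    cases x i <;> simp

theorem card_nbr {n : ℕ} (v : Fin n → Bool) : Nat.card ((Q n).neighborSet v) = n := by
  have e : Function.Bijective (fun i : Fin n => (⟨flip i v, (adj_iff v _).2 ⟨i, rfl⟩⟩ : (Q n).neighborSet v)) := by
    constructor
    · intro i j h
      exact flip_inj (congrArg Subtype.val h)
    · rintro ⟨y, hy⟩
      obtain ⟨i, hi⟩ := (adj_iff v y).1 hy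
      exact ⟨i, Subtype.ext hi.symm⟩
  rw [← Nat.card_congr (Equiv.ofBijective _ e), Nat.card_fin]

theorem conn {n : ℕ} (P : (Fin n → Bool) → Prop) (hP : ∀ x i, P x → P (flip i x)) (x y : Fin n → Bool) (hx : P x) : P y := by
  classical
  have key : ∀ S : Finset (Fin n), P (fun j => if j ∈ S then y j else x j) := by
    intro S
    induction S using Finset.induction_on with
    | empty => simpa using hx
    | insert a S ha ih =>
      by_cases hxy : y a = x a
      · have : (fun j => if j ∈ insert a S then y j else x j) = (fun j => if j ∈ S then y j else x j) := by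
          funext j
          by_cases hj : j = a
          · subst hj
            rw [if_pos (mem_insert_self _ _), if_neg ha, hxy]
          · simp only [mem_insert, hj, false_or]
        rw [this]
        exact ih
      · have : (fun j => if j ∈ insert a S then y j else x j) = flip a (fun j => if j ∈ S then y j else x j) := by
          funext j
          by_cases hj : j = a
          · subst hj
            rw [flip_self, if_pos (mem_insert_self _ _), if_neg ha]
            cases h1 : x j <;> cases h2 : y j <;> simp_all
          · rw [flip_ne hj]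
            simp only [mem_insert, hj, false_or]
        rw [this]
        exact hP _ _ ih
  have := key univ
  simpa using this

theorem surj_of_inj {n : ℕ} (p : Fin n → ℤ) (p0 : ∀ i, 0 ≤ p i) (pn : ∀ i, p i < n) (hinj : ∀ i j, p i = p j → i = j)
    (k : ℤ) (hk0 : 0 ≤ k) (hkn : k < n) : ∃ i, p i = k := by
  classical
  have h1 : univ.image p = Finset.Ico (0 : ℤ) n := by
    apply Finset.eq_of_subset_of_card_le
    · intro z hz
      rw [mem_image] at hz
      obtain ⟨i, _, rfl⟩ := hz
      rw [Finset.mem_Ico]
      exact ⟨p0 i, pn i⟩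
    · rw [card_image_of_injective _ (fun i j h => hinj i j h), card_univ, Fintype.card_fin, Int.card_Ico]
      simp
  have h2 : k ∈ univ.image p := by
    rw [h1, Finset.mem_Ico]
    exact ⟨hk0, hkn⟩
  rw [mem_image] at h2
  obtain ⟨i, _, hi⟩ := h2
  exact ⟨i, hi⟩

end QC

open QC in
theorem pQC : S_QC := by
  classical
  intro hCG n t t' s p hn hc hex hnt htt ht
  have hn0 : (0 : ℤ) < n := by exact_mod_cast hn
  have hnt' : (n : ℤ) ≤ t' := by exact_mod_cast hnt
  have htt' : (t' : ℤ) ≤ t := by exact_mod_cast htt
  -- the colour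
  obtain ⟨col, hcol⟩ : ∃ col : (Fin n → Bool) → (Fin n → Bool) → ℤ, ∀ x i, col x (flip i x) = s x + p x i := by
    refine ⟨fun x y => if h : ∃ i, y = flip i x then s x + p x h.choose else 0, fun x i => ?_⟩
    have h : ∃ j, flip i x = flip j x := ⟨i, rfl⟩
    simp only
    rw [dif_pos h]
    have := flip_inj h.choose_spec
    rw [← this]
  -- the union of the arcs is an interval
  have hgap : ∀ y : ℤ, (∀ x, ¬ (s x ≤ y ∧ y ≤ s x + n - 1)) → (∀ x, y < s x) ∨ (∀ x, s x + n - 1 < y) := by
    intro y hy
    by_cases h0 : y < s (fun _ => false)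
    · left
      intro x
      refine conn (fun x => y < s x) ?_ (fun _ => false) x h0
      intro x i hx
      have h1 := hex x i
      have h2 := hc.p0 x i
      have h3 := hc.pn (flip i x) i
      have h4 := hy (flip i x)
      by_contra h5
      apply h4
      constructor
      · omega
      · omega
    · right
      intro x
      have h0' : s (fun _ => false) + n - 1 < y := by
        have := hy (fun _ => false)
        omega
      refine conn (fun x => s x + n - 1 < y) ?_ (fun _ => false) x h0'
      intro x i hx
      have h1 := hex x i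
      have h2 := hc.p0 (flip i x) i
      have h3 := hc.pn x i
      have h4 := hy (flip i x)
      by_contra h5
      apply h4
      constructor
      · omega
      · omega
  obtain ⟨a, _, ha⟩ := Finset.exists_min_image (univ : Finset (Fin n → Bool)) s ⟨fun _ => false, mem_univ _⟩
  obtain ⟨b, _, hb⟩ := Finset.exists_max_image (univ : Finset (Fin n → Bool)) s ⟨fun _ => false, mem_univ _⟩
  have hU : ∀ y : ℤ, s a ≤ y → y ≤ s b + n - 1 → ∃ x, s x ≤ y ∧ y ≤ s x + n - 1 := by
    intro y h1 h2
    by_contra hcon
    push Not at hcon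
    rcases hgap y (fun x hx => by have := hcon x hx.1; omega) with h | h
    · have := h a
      omega
    · have := h b
      omega
  have hlen : (t : ℤ) ≤ s b + n - s a := by
    by_contra hcon
    push Not at hcon
    obtain ⟨x, i, k, hk⟩ := hc.surj (s b + n)
    have h1 := ha x (mem_univ _)
    have h2 := hb x (mem_univ _)
    have h3 := hc.p0 x i
    have h4 := hc.pn x i
    have h5 : k < 0 := by
      by_contra h6
      push Not at h6
      have : 0 ≤ (t : ℤ) * k := by positivity
      omega
    have h6 : (t : ℤ) * k ≤ - t := by nlinarith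
    omega
  refine hCG (Fin n → Bool) (Q n) t' col s (fun _ => n) (by omega) ?_ (fun v => card_nbr v) ?_ ?_ ?_
  · intro u v huv
    obtain ⟨i, rfl⟩ := (adj_iff u v).1 huv
    have h1 := hcol u i
    have h2 := hcol (flip i u) i
    rw [flip2] at h2
    rw [h1, h2, hex u i, sub_self]
    exact dvd_zero _
  · intro v u huv
    obtain ⟨i, rfl⟩ := (adj_iff v u).1 huv
    refine ⟨p v i, hc.p0 v i, hc.pn v i, ?_⟩
    rw [hcol, sub_self]
    exact dvd_zero _
  · intro v u w h1 h2 h3
    obtain ⟨i, rfl⟩ := (adj_iff v u).1 h1
    obtain ⟨j, rfl⟩ := (adj_iff v w).1 h2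
    rw [hcol, hcol] at h3
    have e : s v + p v i - (s v + p v j) = p v i - p v j := by ring
    rw [e] at h3
    have b1 := hc.p0 v i
    have b2 := hc.pn v i
    have b3 := hc.p0 v j
    have b4 := hc.pn v j
    have h4 : p v i - p v j = 0 := by
      apply Int.eq_zero_of_abs_lt_dvd h3
      rw [abs_lt]
      constructor <;> omega
    have h5 := hc.inj v i j (by omega)
    rw [h5]
  · intro x
    obtain ⟨y, hy⟩ : ∃ y : ℤ, y = s a + (x - s a) % t' := ⟨_, rfl⟩
    have ht'0 : (0 : ℤ) < t' := by omega
    have h1 := Int.emod_nonneg (x - s a) ht'0.ne'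
    have h2 := Int.emod_lt_of_pos (x - s a) ht'0
    obtain ⟨z, hz1, hz2⟩ := hU y (by omega) (by omega)
    obtain ⟨i, hi⟩ := surj_of_inj (p z) (hc.p0 z) (hc.pn z) (hc.inj z) (y - s z) (by omega) (by omega)
    refine ⟨z, flip i z, (adj_iff _ _).2 ⟨i, rfl⟩, ?_⟩
    rw [hcol, hi]
    have h3 : s z + (y - s z) - x = - ((x - s a) - (x - s a) % t') := by rw [hy]; ring
    rw [h3]
    exact (Int.dvd_self_sub_emod).neg_right

end Pool.Agent.T2H56.IC
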