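import Pool.Agent.T2H56.IC.Stm

set_option autoImplicit false

namespace Pool.Agent.T2H56.IC

namespace QE

/-- put the value `b` in front -/
def cns {n : ℕ} (b : Bool) (y : Fin n → Bool) : Fin (n + 1) → Bool :=
  Fin.cons (α := fun _ => Bool) b y

lemma flip_zero {n : ℕ} (b : Bool) (y : Fin n → Bool) : flip 0 (cns b y) = cns (!b) y := by
  funext i
  refine Fin.cases ?_ (fun j => ?_) i
  · simp [flip, cns]
  · simp [flip, cns]

lemma flip_succ {n : ℕ} (b : Bool) (y : Fin n → Bool) (j : Fin n) :
    flip j.succ (cns b y) = cns b (flip j y) := by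
  funext i
  refine Fin.cases ?_ (fun k => ?_) i
  · simp [flip, cns, Function.update_of_ne (Fin.succ_ne_zero j).symm]
  · by_cases h : k = j
    · subst h
      simp [flip, cns]
    · have h' : k.succ ≠ j.succ := fun e => h (Fin.succ_injective _ e)
      simp [flip, cns, Function.update_of_ne h, Function.update_of_ne h']

lemma ex_cns {n : ℕ} (x : Fin (n + 1) → Bool) : ∃ b y, x = cns b y :=
  ⟨x 0, Fin.tail x, (Fin.cons_self_tail x).symm⟩

end QE

open QE in
theorem pQE : S_QE := by
  intro n
  induction n with
  | zero =>
    intro δ _ _
    exact ⟨fun _ => 0, fun x i => i.elim0⟩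
  | succ n ih =>
    intro δ hanti hsq
    obtain ⟨F0, hF0⟩ := ih (fun y i => δ (cns false y) i.succ)
      (by
        intro y i
        rw [← flip_succ, hanti])
      (by
        intro y i j hij
        rw [← flip_succ, ← flip_succ]
        exact hsq _ _ _ (fun e => hij (Fin.succ_injective _ e)))
    have hF : ∀ b y, (fun x : Fin (n + 1) → Bool =>
        F0 (Fin.tail x) + if x 0 then δ (cns false (Fin.tail x)) 0 else 0) (cns b y) =
        F0 y + if b then δ (cns false y) 0 else 0 := by
      intro b y
      have h1 : Fin.tail (cns b y) = y := Fin.tail_cons (α := fun _ => Bool) b y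
      have h2 : cns b y 0 = b := rfl
      beta_reduce
      rw [h1, h2]
    refine ⟨(fun x : Fin (n + 1) → Bool =>
        F0 (Fin.tail x) + if x 0 then δ (cns false (Fin.tail x)) 0 else 0), fun x i => ?_⟩
    obtain ⟨b, y, rfl⟩ := ex_cns x
    refine Fin.cases ?_ (fun j => ?_) i
    · rw [flip_zero, hF, hF]
      cases b
      · simp
      · have h := hanti (cns false y) 0
        rw [flip_zero, Bool.not_false] at h
        rw [h]
        simp
    · rw [flip_succ, hF, hF]
      have h := hF0 y j
      cases b
      · simp only [Bool.false_eq_true, if_false]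
        beta_reduce at h
        linarith
      · have h3 := hsq (cns false y) j.succ 0 (Fin.succ_ne_zero j)
        rw [flip_succ, flip_zero, Bool.not_false] at h3
        simp only [if_true]
        beta_reduce at h
        linarith

end Pool.Agent.T2H56.IC
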