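import Pool.Agent.T2H56.IC.Stm

/-! # Package QL: lifting on the cube -/

set_option autoImplicit false

namespace Pool.Agent.T2H56.IC

open Finset

namespace QL

private lemma flip2 {n : ℕ} (i : Fin n) (x : Fin n → Bool) : flip i (flip i x) = x := by
  unfold flip
  simp

private lemma flip_comm {n : ℕ} {i j : Fin n} (h : i ≠ j) (x : Fin n → Bool) :
    flip i (flip j x) = flip j (flip i x) := by
  unfold flip
  rw [Function.update_of_ne h, Function.update_of_ne h.symm, Function.update_comm h]

private lemma conn {n : ℕ} (t : ℤ) (D : (Fin n → Bool) → ℤ) (h : ∀ x i, t ∣ D (flip i x) - D x) :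
    ∀ (k : ℕ) (x : Fin n → Bool), (univ.filter fun i => x i = true).card = k →
      t ∣ D x - D (fun _ => false) := by
  intro k
  induction k with
  | zero =>
    intro x hx
    rw [Finset.card_eq_zero, Finset.filter_eq_empty_iff] at hx
    have : x = fun _ => false := by
      funext i
      have := hx (Finset.mem_univ i)
      simpa using this
    rw [this]
    simp
  | succ k ih =>
    intro x hx
    have hne : (univ.filter fun i => x i = true).Nonempty := by
      rw [← Finset.card_pos, hx]
      omega
    obtain ⟨i, hi⟩ := hne
    rw [Finset.mem_filter] at hi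
    have hc : (univ.filter fun j => flip i x j = true) = (univ.filter fun j => x j = true).erase i := by
      ext j
      simp only [Finset.mem_filter, Finset.mem_univ, true_and, Finset.mem_erase, flip]
      by_cases hj : j = i
      · subst hj
        simp [hi.2]
      · rw [Function.update_of_ne hj]
        simp [hj]
    have h1 := ih (flip i x) (by
      rw [hc, Finset.card_erase_of_mem (by rw [Finset.mem_filter]; exact hi), hx]
      omega)
    have h2 := h x i
    have e : D x - D (fun _ => false) = (D (flip i x) - D (fun _ => false)) - (D (flip i x) - D x) := by ring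
    rw [e]
    exact dvd_sub h1 h2

end QL

open QL in
theorem pQL : S_QL := by
  intro hQE n t s p hn ht h
  set δ : (Fin n → Bool) → Fin n → ℤ := fun x i => p x i - p (flip i x) i with hδ
  have ha : ∀ x i, δ (flip i x) i = - δ x i := by
    intro x i
    simp only [hδ]
    rw [flip2]
    ring
  have hs : ∀ x i, (t : ℤ) ∣ s (flip i x) - s x - δ x i := by
    intro x i
    have := h.cong x i
    have e : s (flip i x) - s x - δ x i = -((s x + p x i) - (s (flip i x) + p (flip i x) i)) := by
      simp only [hδ]
      ring
    rw [e]
    exact (dvd_neg).2 this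
  have hb : ∀ x i, |δ x i| ≤ (n : ℤ) - 1 := by
    intro x i
    simp only [hδ]
    have h1 := h.p0 x i
    have h2 := h.pn x i
    have h3 := h.p0 (flip i x) i
    have h4 := h.pn (flip i x) i
    rw [abs_le]
    constructor <;> linarith
  have hsq : ∀ x i j, i ≠ j → δ x i + δ (flip i x) j = δ x j + δ (flip j x) i := by
    intro x i j hij
    have e1 := hs x i
    have e2 := hs (flip i x) j
    have e3 := hs x j
    have e4 := hs (flip j x) i
    rw [flip_comm hij] at e4
    have hd : (t : ℤ) ∣ (δ x i + δ (flip i x) j) - (δ x j + δ (flip j x) i) := by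
      have e : (δ x i + δ (flip i x) j) - (δ x j + δ (flip j x) i) =
          (s (flip j x) - s x - δ x j) + (s (flip j (flip i x)) - s (flip j x) - δ (flip j x) i) -
          (s (flip i x) - s x - δ x i) - (s (flip j (flip i x)) - s (flip i x) - δ (flip i x) j) := by
        ring
      rw [e]
      exact dvd_sub (dvd_sub (dvd_add e3 e4) e1) e2
    have h0 : (δ x i + δ (flip i x) j) - (δ x j + δ (flip j x) i) = 0 := by
      apply Int.eq_zero_of_abs_lt_dvd hd
      have b1 := abs_le.1 (hb x i)
      have b2 := abs_le.1 (hb (flip i x) j)
      have b3 := abs_le.1 (hb x j)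
      have b4 := abs_le.1 (hb (flip j x) i)
      have ht' : 4 * ((n : ℤ) - 1) < t := by
        have : ((4 * (n - 1) : ℕ) : ℤ) < t := by exact_mod_cast ht
        push_cast [Nat.cast_sub hn] at this
        exact this
      rw [abs_lt]
      constructor <;> linarith [b1.1, b1.2, b2.1, b2.2, b3.1, b3.2, b4.1, b4.2]
    linarith
  obtain ⟨F, hF⟩ := hQE n δ ha hsq
  set x0 : Fin n → Bool := fun _ => false with hx0
  set s' : (Fin n → Bool) → ℤ := fun x => F x - F x0 + s x0 with hs'
  have hD : ∀ x, (t : ℤ) ∣ s' x - s x := by
    intro x
    have := conn (t : ℤ) (fun x => F x - s x) (by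
      intro x i
      have h1 := hs x i
      have h2 := hF x i
      have e : F (flip i x) - s (flip i x) - (F x - s x) = -(s (flip i x) - s x - δ x i) := by
        rw [← h2]
        ring
      show (t : ℤ) ∣ F (flip i x) - s (flip i x) - (F x - s x)
      rw [e]
      exact (dvd_neg).2 h1) _ x rfl
    have e : s' x - s x = F x - s x - (F x0 - s x0) := by
      simp only [hs']
      ring
    rw [e]
    exact this
  have hex : ∀ x i, s' x + p x i = s' (flip i x) + p (flip i x) i := by
    intro x i
    have h2 := hF x i
    simp only [hs', hδ] at h2 ⊢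
    linarith
  refine ⟨s', ⟨h.p0, h.pn, h.inj, ?_, ?_⟩, hex⟩
  · intro x i
    rw [hex x i]
    simp
  · intro y
    obtain ⟨x, i, hxi⟩ := h.surj y
    refine ⟨x, i, ?_⟩
    have e : s' x + p x i - y = (s x + p x i - y) + (s' x - s x) := by ring
    rw [e]
    exact dvd_add hxi (hD x)

end Pool.Agent.T2H56.IC
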