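import Pool.Agent.T2H56.IC.Stm

set_option autoImplicit false

namespace Pool.Agent.T2H56.IC

open Finset

namespace QT

variable {n : ℕ}

/-- the start -/
def sq (x : Fin n → Bool) : ℤ := ∑ j, if x j = true then ((j : ℕ) : ℤ) else 0

/-- number of ones above -/
def up (x : Fin n → Bool) (m : Fin n) : ℤ := ∑ k, if m < k ∧ x k = true then 1 else 0

/-- positions -/
def pq (x : Fin n → Bool) (m : Fin n) : ℤ := (if x m = true then 0 else ((m : ℕ) : ℤ)) + up x m

lemma up_nonneg (x : Fin n → Bool) (m : Fin n) : 0 ≤ up x m :=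
  sum_nonneg fun k _ => by split_ifs <;> norm_num

lemma up_le (x : Fin n → Bool) (m : Fin n) : up x m ≤ (n : ℤ) - 1 - (m : ℕ) := by
  have h1 : up x m ≤ ∑ k : Fin n, if m < k then (1 : ℤ) else 0 := by
    refine sum_le_sum fun k _ => ?_
    split_ifs with h1 h2 h2
    · exact le_rfl
    · exact absurd h1.1 h2
    · norm_num
    · exact le_rfl
  have h2 : ∑ k : Fin n, (if m < k then (1 : ℤ) else 0) = ((Ioi m).card : ℤ) := by
    rw [← sum_filter, sum_const, nsmul_eq_mul, mul_one]
    congr 2
    ext k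
    simp
  rw [h2, Fin.card_Ioi] at h1
  have := m.2
  omega

lemma up_split (x : Fin n → Bool) {i j : Fin n} (hij : i < j) :
    ∃ c : ℤ, 0 ≤ c ∧ c ≤ (j : ℕ) - (i : ℕ) - 1 ∧
      up x i = c + (if x j = true then 1 else 0) + up x j := by
  refine ⟨∑ k, if (i < k ∧ k < j) ∧ x k = true then 1 else 0,
    sum_nonneg fun k _ => by split_ifs <;> norm_num, ?_, ?_⟩
  · have h1 : (∑ k : Fin n, if (i < k ∧ k < j) ∧ x k = true then (1 : ℤ) else 0) ≤
        ∑ k : Fin n, if (i < k ∧ k < j) then (1 : ℤ) else 0 := by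
      refine sum_le_sum fun k _ => ?_
      split_ifs with h1 h2 h2
      · exact le_rfl
      · exact absurd h1.1 h2
      · norm_num
      · exact le_rfl
    have h2 : ∑ k : Fin n, (if (i < k ∧ k < j) then (1 : ℤ) else 0) = ((Ioo i j).card : ℤ) := by
      rw [← sum_filter, sum_const, nsmul_eq_mul, mul_one]
      congr 2
      ext k
      simp
    rw [h2, Fin.card_Ioo] at h1
    have h3 : (i : ℕ) < j := hij
    omega
  · have h4 : (if x j = true then (1 : ℤ) else 0) =
        ∑ k, if k = j ∧ x k = true then (1 : ℤ) else 0 := by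
      rw [sum_eq_single j]
      · simp
      · intro k _ hk
        rw [if_neg]
        exact fun h => hk h.1
      · exact fun h => absurd (mem_univ j) h
    rw [h4, up, up, ← sum_add_distrib, ← sum_add_distrib]
    refine sum_congr rfl fun k _ => ?_
    by_cases hx : x k = true
    · simp only [hx, and_true]
      rcases lt_trichotomy k j with h | h | h
      · rw [if_neg (ne_of_lt h), if_neg (not_lt.2 h.le)]
        by_cases h5 : i < k
        · simp [h5, h]
        · simp [h5]
      · subst h
        simp [hij]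
      · have h6 : i < k := hij.trans h
        rw [if_pos h6, if_neg (fun h7 => absurd h7.2 (not_lt.2 h.le)), if_neg (ne_of_gt h),
          if_pos h]
        norm_num
    · simp [hx]

lemma pq_ne (x : Fin n → Bool) {i j : Fin n} (hij : i < j) : pq x i ≠ pq x j := by
  obtain ⟨c, h0, h1, h2⟩ := up_split x hij
  have h3 : (i : ℕ) < j := hij
  unfold pq
  rw [h2]
  split_ifs <;> omega

lemma pq_inj (x : Fin n → Bool) (i j : Fin n) (h : pq x i = pq x j) : i = j := by
  rcases lt_trichotomy i j with h1 | h1 | h1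
  · exact absurd h (pq_ne x h1)
  · exact h1
  · exact absurd h.symm (pq_ne x h1)

lemma pq_nonneg (x : Fin n → Bool) (i : Fin n) : 0 ≤ pq x i := by
  have := up_nonneg x i
  unfold pq
  split_ifs <;> omega

lemma pq_lt (x : Fin n → Bool) (i : Fin n) : pq x i < n := by
  have := up_le x i
  have h2 := i.2
  unfold pq
  split_ifs <;> omega

lemma pq_surj (x : Fin n → Bool) (k : ℕ) (hk : k < n) : ∃ i, pq x i = k := by
  have hinj : Function.Injective fun i : Fin n => (⟨(pq x i).toNat, by
      have h1 := pq_nonneg x i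
      have h2 := pq_lt x i
      omega⟩ : Fin n) := by
    intro i j h
    have h3 := Fin.mk.inj_iff.1 h
    refine pq_inj x i j ?_
    have h1 := pq_nonneg x i
    have h2 := pq_nonneg x j
    omega
  obtain ⟨i, hi⟩ := (Finite.injective_iff_surjective.1 hinj) ⟨k, hk⟩
  refine ⟨i, ?_⟩
  have h3 := Fin.mk.inj_iff.1 hi
  have h1 := pq_nonneg x i
  omega

lemma flip_same (i : Fin n) (x : Fin n → Bool) : flip i x i = ! x i := by
  simp [flip]

lemma flip_other {i j : Fin n} (h : j ≠ i) (x : Fin n → Bool) : flip i x j = x j := by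
  simp [flip, h]

lemma sp (x : Fin n → Bool) (i : Fin n) :
    sq x + pq x i = (∑ j ∈ univ.erase i, if x j = true then ((j : ℕ) : ℤ) else 0) +
      ((i : ℕ) : ℤ) + up x i := by
  unfold sq pq
  rw [← add_sum_erase _ _ (mem_univ i)]
  split_ifs <;> ring

lemma exact_eq (x : Fin n → Bool) (i : Fin n) :
    sq x + pq x i = sq (flip i x) + pq (flip i x) i := by
  rw [sp, sp]
  congr 1
  · congr 1
    refine sum_congr rfl fun j hj => ?_
    rw [flip_other (ne_of_mem_erase hj)]
  · unfold up
    refine sum_congr rfl fun k _ => ?_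
    by_cases hk : i < k
    · rw [flip_other (ne_of_gt hk)]
    · simp [hk]

lemma subset_sum : ∀ (n r : ℕ), 2 * r ≤ n * (n - 1) → ∃ S : Finset ℕ, S ⊆ range n ∧ ∑ j ∈ S, j = r
  | 0, r, h => ⟨∅, by simp, by simp at h; simp [h]⟩
  | (n + 1), r, h => by
    by_cases h1 : 2 * r ≤ n * (n - 1)
    · obtain ⟨S, hS, hs⟩ := subset_sum n r h1
      exact ⟨S, hS.trans (range_subset_range.2 (Nat.le_succ n)), hs⟩
    · have h2 : n ≤ r := by
        rcases Nat.eq_zero_or_pos n with h0 | h0
        · omega
        · obtain ⟨m, rfl⟩ : ∃ m, n = m + 1 := ⟨n - 1, by omega⟩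
          simp only [Nat.add_sub_cancel] at h1 h
          by_contra h3
          have h4 : r ≤ m := by omega
          apply h1
          rcases Nat.eq_zero_or_pos m with h7 | h7
          · subst h7
            omega
          · nlinarith
      have h5 : 2 * (r - n) ≤ n * (n - 1) := by
        rcases Nat.eq_zero_or_pos n with h0 | h0
        · subst h0
          simp at h
          omega
        · obtain ⟨m, rfl⟩ : ∃ m, n = m + 1 := ⟨n - 1, by omega⟩
          simp only [Nat.add_sub_cancel] at h ⊢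
          have h6 : 2 * (r - (m + 1)) + 2 * (m + 1) = 2 * r := by omega
          nlinarith
      obtain ⟨S, hS, hs⟩ := subset_sum n (r - n) h5
      refine ⟨insert n S, ?_, ?_⟩
      · intro k hk
        rcases mem_insert.1 hk with rfl | hk
        · simp
        · have := mem_range.1 (hS hk)
          exact mem_range.2 (by omega)
      · rw [sum_insert (fun hn => by simpa using hS hn), hs]
        omega

lemma sq_of (S : Finset ℕ) (hS : S ⊆ range n) :
    sq (n := n) (fun j => decide ((j : ℕ) ∈ S)) = ((∑ j ∈ S, j : ℕ) : ℤ) := by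
  unfold sq
  simp only [decide_eq_true_eq]
  rw [Fin.sum_univ_eq_sum_range (fun j => if j ∈ S then (j : ℤ) else 0) n, ← sum_filter]
  have : (range n).filter (· ∈ S) = S := by
    ext k
    simp only [mem_filter, mem_range]
    exact ⟨fun h => h.2, fun h => ⟨mem_range.1 (hS h), h⟩⟩
  rw [this]
  push_cast
  rfl

end QT

open QT in
theorem pQT : S_QT := by
  intro n hn
  refine ⟨QT.sq, pq, ⟨pq_nonneg, pq_lt, pq_inj, fun x i => ?_, fun y => ?_⟩, exact_eq⟩
  · rw [exact_eq, sub_self]
    exact dvd_zero _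
  · set t : ℕ := n * (n + 1) / 2 with ht
    have h2t : 2 * t = n * (n + 1) := Nat.mul_div_cancel' (Nat.even_mul_succ_self n).two_dvd
    have htpos : 0 < t := by
      have : 0 < n * (n + 1) := by positivity
      omega
    obtain ⟨r, hr, hy⟩ : ∃ r : ℕ, r < t ∧ (t : ℤ) ∣ (r : ℤ) - y := by
      refine ⟨(y % t).toNat, ?_, ?_⟩
      · have h1 := Int.emod_nonneg y (by exact_mod_cast htpos.ne' : (t : ℤ) ≠ 0)
        have h2 := Int.emod_lt_of_pos y (by exact_mod_cast htpos : (0 : ℤ) < t)
        omega
      · have h1 := Int.emod_nonneg y (by exact_mod_cast htpos.ne' : (t : ℤ) ≠ 0)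
        rw [Int.toNat_of_nonneg h1]
        refine ⟨-(y / t), ?_⟩
        have := Int.emod_add_mul_ediv y t
        linarith
    suffices h : ∃ (x : Fin n → Bool) (i : Fin n), QT.sq x + pq x i = r by
      obtain ⟨x, i, h⟩ := h
      exact ⟨x, i, by rw [h]; exact hy⟩
    by_cases hr1 : 2 * r ≤ n * (n - 1)
    · obtain ⟨S, hS, hs⟩ := subset_sum n r hr1
      obtain ⟨i, hi⟩ := pq_surj (fun j : Fin n => decide ((j : ℕ) ∈ S)) 0 (by omega)
      refine ⟨fun j : Fin n => decide ((j : ℕ) ∈ S), i, ?_⟩
      rw [hi, sq_of S hS, hs]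
      simp
    · obtain ⟨m, rfl⟩ : ∃ m, n = m + 1 := ⟨n - 1, by omega⟩
      have h3 : 2 * ((m * (m + 1)) / 2) = m * (m + 1) :=
        Nat.mul_div_cancel' (Nat.even_mul_succ_self m).two_dvd
      simp only [Nat.add_sub_cancel] at hr1
      obtain ⟨i, hi⟩ := pq_surj (fun j : Fin (m + 1) => decide ((j : ℕ) ∈ range (m + 1)))
        (r - m * (m + 1) / 2) (by
          have : (m + 1) * (m + 1 + 1) = m * (m + 1) + 2 * (m + 1) := by ring
          omega)
      refine ⟨fun j : Fin (m + 1) => decide ((j : ℕ) ∈ range (m + 1)), i, ?_⟩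
      rw [hi, sq_of _ (Subset.refl _), sum_range_id, Nat.add_sub_cancel]
      have h5 : (m + 1) * m / 2 = m * (m + 1) / 2 := by rw [Nat.mul_comm]
      rw [h5]
      have h6 : m * (m + 1) / 2 ≤ r := by
        have : (m + 1) * m = m * (m + 1) := Nat.mul_comm _ _
        omega
      push_cast [Nat.cast_sub h6]
      omega

end Pool.Agent.T2H56.IC
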