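import Pool.Agent.T2H56.IC.Stm

/-! # Package TR: transfer along a bijection -/

set_option autoImplicit false

namespace Pool.Agent.T2H56.IC

open Finset

theorem pTR : S_TR := by
  intro V _ N t hN ht
  obtain ⟨h1, c, hc⟩ := ht
  have e : Fin N ≃ V := (Fintype.equivFinOfCardEq hN).symm
  refine ⟨h1, fun z => c (z.map e), ?_, ?_, ?_⟩
  · intro x
    obtain ⟨z, hz, hx⟩ := hc.surj x
    refine ⟨z.map e.symm, ?_, ?_⟩
    · induction z with
      | _ a b =>
        rw [Sym2.map_mk, SimpleGraph.mem_edgeSet] at *
        simp only [SimpleGraph.top_adj] at hz ⊢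
        exact fun h => hz (e.symm.injective h)
    · show c ((z.map e.symm).map e) = x
      rw [Sym2.map_map, e.self_comp_symm, Sym2.map_id, id]
      exact hx
  · intro v u w hvu hvw h
    simp only [SimpleGraph.top_adj] at hvu hvw
    have := hc.inj (e v) (e u) (e w) (by simpa using hvu) (by simpa using hvw) (by
      simpa [Sym2.map_mk] using h)
    exact e.injective this
  · intro v
    obtain ⟨a, ha⟩ := hc.arc (e v)
    refine ⟨a, ?_⟩
    have hcard : Nat.card ((KG N).neighborSet v) = Nat.card ((⊤ : SimpleGraph V).neighborSet (e v)) := by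
      refine Nat.card_congr ?_
      refine e.subtypeEquiv fun u => ?_
      simp [SimpleGraph.mem_neighborSet]
    rw [hcard, ← ha]
    ext x
    simp only [Set.mem_setOf_eq]
    constructor
    · rintro ⟨u, hu, hx⟩
      refine ⟨e u, by simpa using hu, ?_⟩
      simpa [Sym2.map_mk] using hx
    · rintro ⟨u, hu, hx⟩
      refine ⟨e.symm u, ?_, ?_⟩
      · simp only [SimpleGraph.top_adj] at hu ⊢
        intro h
        apply hu
        rw [h, e.apply_symm_apply]
      · simpa [Sym2.map_mk] using hx

end Pool.Agent.T2H56.IC
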