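import Pool.Agent.T2H56.IC.PXK

/-!
# Package XB: integer data of a colouring of the complete bipartite graph
-/

namespace Pool.Agent.T2H56.IC

namespace XB

theorem card_row (m n : ℕ) (i : Fin m) :
    Nat.card ((KB m n).neighborSet (Sum.inl i)) = n := by
  classical
  have e : (KB m n).neighborSet (Sum.inl i) ≃ Fin n :=
    { toFun := fun x => match x with
        | ⟨Sum.inl j, h⟩ => absurd h (by simp [SimpleGraph.mem_neighborSet])
        | ⟨Sum.inr j, _⟩ => j
      invFun := fun j => ⟨Sum.inr j, by simp [SimpleGraph.mem_neighborSet]⟩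
      left_inv := by
        rintro ⟨x | x, h⟩
        · exact absurd h (by simp [SimpleGraph.mem_neighborSet])
        · rfl
      right_inv := fun j => rfl }
  rw [Nat.card_congr e, Nat.card_eq_fintype_card, Fintype.card_fin]

theorem card_col (m n : ℕ) (j : Fin n) :
    Nat.card ((KB m n).neighborSet (Sum.inr j)) = m := by
  classical
  have e : (KB m n).neighborSet (Sum.inr j) ≃ Fin m :=
    { toFun := fun x => match x with
        | ⟨Sum.inr i, h⟩ => absurd h (by simp [SimpleGraph.mem_neighborSet])
        | ⟨Sum.inl i, _⟩ => i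
      invFun := fun i => ⟨Sum.inl i, by simp [SimpleGraph.mem_neighborSet]⟩
      left_inv := by
        rintro ⟨x | x, h⟩
        · rfl
        · exact absurd h (by simp [SimpleGraph.mem_neighborSet])
      right_inv := fun j => rfl }
  rw [Nat.card_congr e, Nat.card_eq_fintype_card, Fintype.card_fin]

end XB

open XK XB

theorem pXB : S_XB := by
  intro m n t hm hn ht
  obtain ⟨ht1, c, hc⟩ := ht
  obtain ⟨s, k, _, hk⟩ := data (KB m n) t ht1 c hc
  have hadj : ∀ (i : Fin m) (j : Fin n), (KB m n).Adj (Sum.inl i) (Sum.inr j) := by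
    intro i j
    simp
  refine ⟨?_, ?_, fun i => s (Sum.inl i), fun j => s (Sum.inr j),
    fun i j => k (Sum.inl i) (Sum.inr j), fun i j => k (Sum.inr j) (Sum.inl i), ?_⟩
  · have h1 := deg_le (KB m n) t ht1 c hc (Sum.inr ⟨0, by omega⟩)
    rwa [card_col] at h1
  · have h1 := deg_le (KB m n) t ht1 c hc (Sum.inl ⟨0, by omega⟩)
    rwa [card_row] at h1
  · refine ⟨fun i j => (hk _ _ (hadj i j)).1, ?_, fun i j => (hk _ _ (hadj i j).symm).1,
      ?_, ?_, ?_, ?_, ?_⟩
    · intro i j
      have h1 := (hk _ _ (hadj i j)).2.1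
      rwa [card_row] at h1
    · intro i j
      have h1 := (hk _ _ (hadj i j).symm).2.1
      rwa [card_col] at h1
    · intro i j j' h
      have h1 := hc.inj (Sum.inl i) (Sum.inr j) (Sum.inr j') (hadj i j) (hadj i j') (by
        rw [← (hk _ _ (hadj i j)).2.2, ← (hk _ _ (hadj i j')).2.2, h])
      exact Sum.inr.inj h1
    · intro i i' j h
      have h1 := hc.inj (Sum.inr j) (Sum.inl i) (Sum.inl i') (hadj i j).symm (hadj i' j).symm (by
        rw [← (hk _ _ (hadj i j).symm).2.2, ← (hk _ _ (hadj i' j).symm).2.2, h])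
      exact Sum.inl.inj h1
    · intro i j
      apply dvdOf
      rw [(hk _ _ (hadj i j)).2.2, (hk _ _ (hadj i j).symm).2.2, Sym2.eq_swap]
    · intro x
      obtain ⟨e, he, hx⟩ := hc.surj (x : ZMod t)
      induction e using Sym2.ind with
      | _ u v =>
        have huv : (KB m n).Adj u v := he
        rcases u with i | j <;> rcases v with i' | j'
        · simp at huv
        · refine ⟨i, j', ?_⟩
          apply dvdOf
          rw [(hk _ _ (hadj i j')).2.2, hx]
        · refine ⟨i', j, ?_⟩
          apply dvdOf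
          rw [(hk _ _ (hadj i' j)).2.2, Sym2.eq_swap, hx]
        · simp at huv

end Pool.Agent.T2H56.IC
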