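import Pool.Agent.T2H56.IC.Stm

/-!
# Packages XK: integer data of a colouring of the complete graph

Also the general extraction lemmas `XK.data`, `XK.deg_le` and `XK.dvdOf`, used in `PXB`, `PXQ`.
-/

namespace Pool.Agent.T2H56.IC

namespace XK

/-- integer data of an interval cyclic colouring of any graph -/
theorem data {V : Type} (G : SimpleGraph V) (t : ℕ) (ht : 1 ≤ t) (c : Sym2 V → ZMod t)
    (h : IsIC G t c) :
    ∃ (s : V → ℤ) (k : V → V → ℤ), (∀ v, 0 ≤ s v ∧ s v < t) ∧
      ∀ v u, G.Adj v u → 0 ≤ k v u ∧ k v u < (Nat.card (G.neighborSet v) : ℤ) ∧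
        ((s v + k v u : ℤ) : ZMod t) = c s(v, u) := by
  classical
  have : NeZero t := ⟨by omega⟩
  choose a ha using h.arc
  have hk : ∀ v u, ∃ k : ℕ, G.Adj v u →
      k < Nat.card (G.neighborSet v) ∧ c s(v, u) = a v + k := by
    intro v u
    by_cases hvu : G.Adj v u
    · have hm : c s(v, u) ∈ {x | ∃ u, G.Adj v u ∧ c s(v, u) = x} := ⟨u, hvu, rfl⟩
      rw [ha v] at hm
      obtain ⟨k, hk1, hk2⟩ := hm
      exact ⟨k, fun _ => ⟨hk1, hk2⟩⟩
    · exact ⟨0, fun h' => absurd h' hvu⟩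
  choose k hk using hk
  refine ⟨fun v => ((a v).val : ℤ), fun v u => (k v u : ℤ), ?_, ?_⟩
  · intro v
    refine ⟨Int.natCast_nonneg _, ?_⟩
    have h1 := ZMod.val_lt (a v)
    show ((a v).val : ℤ) < t
    exact_mod_cast h1
  · intro v u hvu
    obtain ⟨h1, h2⟩ := hk v u hvu
    refine ⟨Int.natCast_nonneg _, ?_, ?_⟩
    · show ((k v u : ℕ) : ℤ) < _
      exact_mod_cast h1
    rw [h2]
    push_cast
    rw [ZMod.natCast_zmod_val]

/-- degrees are at most `t` -/
theorem deg_le {V : Type} (G : SimpleGraph V) (t : ℕ) (ht : 1 ≤ t) (c : Sym2 V → ZMod t)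
    (h : IsIC G t c) (v : V) : Nat.card (G.neighborSet v) ≤ t := by
  classical
  have : NeZero t := ⟨by omega⟩
  have hinj : Function.Injective (fun u : G.neighborSet v => c s(v, (u : V))) := by
    rintro ⟨u, hu⟩ ⟨w, hw⟩ huw
    exact Subtype.ext (h.inj v u w hu hw huw)
  have h1 := Nat.card_le_card_of_injective _ hinj
  rwa [Nat.card_zmod] at h1

theorem dvdOf {t : ℕ} {a b : ℤ} (h : (a : ZMod t) = (b : ZMod t)) : (t : ℤ) ∣ a - b := by
  rw [← ZMod.intCast_zmod_eq_zero_iff_dvd] at *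
  push_cast
  rw [h, sub_self]

end XK

open XK

theorem pXK : S_XK := by
  intro N t hN ht
  obtain ⟨ht1, c, hc⟩ := ht
  have hdeg : ∀ v : Fin N, Nat.card ((KG N).neighborSet v) = N - 1 := by
    intro v
    classical
    rw [Nat.card_eq_fintype_card, SimpleGraph.card_neighborSet_eq_degree]
    simp
  obtain ⟨s, k, hs, hk⟩ := data (KG N) t ht1 c hc
  refine ⟨?_, s, k, ?_⟩
  · have h1 := deg_le (KG N) t ht1 c hc ⟨0, by omega⟩
    rw [hdeg] at h1
    omega
  · have hadj : ∀ u v : Fin N, u ≠ v → (KG N).Adj u v := fun u v h => h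
    refine ⟨fun v => (hs v).1, fun v => (hs v).2, fun u v h => (hk u v (hadj u v h)).1,
      ?_, ?_, ?_, ?_⟩
    · intro u v h
      have h1 := (hk u v (hadj u v h)).2.1
      rw [hdeg] at h1
      omega
    · intro u v w huv huw h
      apply hc.inj u v w (hadj u v huv) (hadj u w huw)
      rw [← (hk u v (hadj u v huv)).2.2, ← (hk u w (hadj u w huw)).2.2, h]
    · intro u v h
      apply dvdOf
      rw [(hk u v (hadj u v h)).2.2, (hk v u (hadj v u h.symm)).2.2, Sym2.eq_swap]
    · intro x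
      obtain ⟨e, he, hx⟩ := hc.surj (x : ZMod t)
      induction e using Sym2.ind with
      | _ u v =>
        have huv : (KG N).Adj u v := he
        refine ⟨u, v, huv.ne, ?_⟩
        apply dvdOf
        rw [(hk u v huv).2.2, hx]

end Pool.Agent.T2H56.IC
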