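import Pool.Agent.T2H56.IC.PXK

/-!
# Package XQ: integer data of a colouring of the hypercube
-/

namespace Pool.Agent.T2H56.IC

namespace XQ

theorem flip_self {n : ℕ} (i : Fin n) (x : Fin n → Bool) : flip i x i = ! x i := by
  simp [flip]

theorem flip_ne {n : ℕ} (i j : Fin n) (x : Fin n → Bool) (h : j ≠ i) : flip i x j = x j := by
  simp [flip, h]

theorem flip_inj {n : ℕ} (x : Fin n → Bool) (i j : Fin n) (h : flip i x = flip j x) : i = j := by
  by_contra hij
  have h1 := congrFun h i
  rw [flip_self, flip_ne j i x hij] at h1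
  simp at h1

theorem flip_flip {n : ℕ} (i : Fin n) (x : Fin n → Bool) : flip i (flip i x) = x := by
  funext j
  by_cases h : j = i
  · subst h
    rw [flip_self, flip_self, Bool.not_not]
  · rw [flip_ne _ _ _ h, flip_ne _ _ _ h]

theorem adj_flip {n : ℕ} (i : Fin n) (x : Fin n → Bool) : (Q n).Adj x (flip i x) := by
  refine ⟨i, ?_, fun j hj => (flip_ne i j x hj).symm⟩
  rw [flip_self]
  cases x i <;> simp

theorem eq_flip {n : ℕ} {x y : Fin n → Bool} (h : (Q n).Adj x y) : ∃ i, y = flip i x := by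
  obtain ⟨i, h1, h2⟩ := h
  refine ⟨i, ?_⟩
  funext j
  by_cases hj : j = i
  · subst hj
    rw [flip_self]
    revert h1
    cases x j <;> cases y j <;> simp
  · rw [flip_ne _ _ _ hj, h2 j hj]

theorem card_nb {n : ℕ} (x : Fin n → Bool) : Nat.card ((Q n).neighborSet x) = n := by
  classical
  have hb : Function.Bijective (fun i : Fin n =>
      (⟨flip i x, adj_flip i x⟩ : (Q n).neighborSet x)) := by
    constructor
    · intro i j h
      exact flip_inj x i j (congrArg Subtype.val h)
    · rintro ⟨y, hy⟩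
      obtain ⟨i, hi⟩ := eq_flip hy
      exact ⟨i, Subtype.ext hi.symm⟩
  rw [← Nat.card_congr (Equiv.ofBijective _ hb), Nat.card_eq_fintype_card, Fintype.card_fin]

end XQ

open XK XQ

theorem pXQ : S_XQ := by
  intro n t hn ht
  obtain ⟨ht1, c, hc⟩ := ht
  obtain ⟨s, k, _, hk⟩ := data (Q n) t ht1 c hc
  refine ⟨?_, s, fun x i => k x (flip i x), ?_⟩
  · have h1 := deg_le (Q n) t ht1 c hc (fun _ => false)
    rwa [card_nb] at h1
  · refine ⟨fun x i => (hk _ _ (adj_flip i x)).1, ?_, ?_, ?_, ?_⟩
    · intro x i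
      have h1 := (hk _ _ (adj_flip i x)).2.1
      rwa [card_nb] at h1
    · intro x i j h
      apply flip_inj x i j
      apply hc.inj x _ _ (adj_flip i x) (adj_flip j x)
      rw [← (hk _ _ (adj_flip i x)).2.2, ← (hk _ _ (adj_flip j x)).2.2]
      rw [h]
    · intro x i
      apply dvdOf
      rw [XQ.flip_flip, (hk _ _ (adj_flip i x)).2.2]
      rw [(hk _ _ (adj_flip i x).symm).2.2, Sym2.eq_swap]
    · intro y
      obtain ⟨e, he, hx⟩ := hc.surj (y : ZMod t)
      induction e using Sym2.ind with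
      | _ u v =>
        have huv : (Q n).Adj u v := he
        obtain ⟨i, rfl⟩ := eq_flip huv
        refine ⟨u, i, ?_⟩
        apply dvdOf
        rw [(hk _ _ (adj_flip i u)).2.2, hx]

end Pool.Agent.T2H56.IC
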