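import Pool.Agent.T2H56.IC.Stm

/-!
# Interval cyclic edge colourings: the general three part construction (helper34)
-/

namespace Pool.Agent.T2H56.IC

open Finset

namespace CGen

/-- position of a colour in the arc: kind `0`: first block, kind `1`: second block, kind `2`:
the rest -/
def pos (g a b : ℕ) (k : Fin 3) (r : ℕ) : ℕ :=
  if k = 0 then r else if k = 1 then g + r else if r < g - a then a + r else a + r + b

lemma pos_lt (g a b c : ℕ) (hgc : g ≤ a + c) (k : Fin 3) (r : ℕ)
    (h0 : k = 0 → r < a) (h1 : k = 1 → r < b) (h2 : k = 2 → r < c) :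
    pos g a b k r < a + b + c := by
  unfold pos
  fin_cases k
  · have := h0 rfl
    simp
    omega
  · have := h1 rfl
    simp
    omega
  · have := h2 rfl
    simp
    split_ifs <;> omega

lemma pos_inj (g a b : ℕ) (hag : a ≤ g) (k k' : Fin 3) (r r' : ℕ)
    (h0 : k = 0 → r < a) (h1 : k = 1 → r < b) 
    (h0' : k' = 0 → r' < a) (h1' : k' = 1 → r' < b) 
    (h : pos g a b k r = pos g a b k' r') : k = k' ∧ r = r' := by
  unfold pos at h
  fin_cases k <;> fin_cases k' <;> simp at h h0 h1 h0' h1' ⊢ <;>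
    (try split_ifs at h) <;> omega

end CGen

open CGen in
theorem gen (hCG : S_CG) {V : Type} [Fintype V] (N t : ℕ) (hN : Fintype.card V = N) (hN2 : 2 ≤ N)
    (part : V → Fin 3) (g a b c : Fin 3 → ℕ) (kd : V → V → Fin 3) (r : V → V → ℕ)
    (hpart : ∀ i, ∃ v, part v = i)
    (ht : g 0 + g 1 + g 2 = t) (hNt : N ≤ t + 1)
    (habc : ∀ i, a i + b i + c i + 1 = N)
    (hag : ∀ i, a i ≤ g i) (hgc : ∀ i, g i ≤ a i + c i)
    (hr : ∀ u v, u ≠ v → r u v = r v u)
    (hk : ∀ u v, u ≠ v → part u = part v → kd u v = kd v u)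
    (hk1 : ∀ u v, part v = part u + 1 → kd u v = 1 ∧ kd v u = 0)
    (hb0 : ∀ u v, u ≠ v → kd u v = 0 → r u v < a (part u))
    (hb1 : ∀ u v, u ≠ v → kd u v = 1 → r u v < b (part u))
    (hb2 : ∀ u v, u ≠ v → kd u v = 2 → r u v < c (part u))
    (hinj : ∀ u v w, u ≠ v → u ≠ w → kd u v = kd u w → r u v = r u w → v = w) :
    t ∈ FS (⊤ : SimpleGraph V) := by
  classical
  obtain ⟨S, hS⟩ : ∃ S : Fin 3 → ℤ, S = ![0, (g 0 : ℤ), (g 0 : ℤ) + g 1] := ⟨_, rfl⟩
  have hS0 : S 0 = 0 := by rw [hS]; rfl
  have hS1 : S 1 = g 0 := by rw [hS]; rfl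
  have hS2 : S 2 = g 0 + g 1 := by rw [hS]; rfl
  obtain ⟨p, hp⟩ : ∃ p : V → V → ℕ, ∀ u v, p u v = pos (g (part u)) (a (part u)) (b (part u))
    (kd u v) (r u v) := ⟨_, fun _ _ => rfl⟩
  have hplt : ∀ u v, u ≠ v → p u v < N - 1 := by
    intro u v huv
    have h := pos_lt (g (part u)) (a (part u)) (b (part u)) (c (part u)) (hgc _) (kd u v) (r u v)
      (hb0 u v huv) (hb1 u v huv) (hb2 u v huv)
    have := habc (part u)
    rw [hp]
    omega
  have hpinj : ∀ u v w, u ≠ v → u ≠ w → p u v = p u w → v = w := by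
    intro u v w huv huw h
    rw [hp, hp] at h
    obtain ⟨h1, h2⟩ := pos_inj _ _ _ (hag _) _ _ _ _ (hb0 u v huv) (hb1 u v huv) (hb0 u w huw)
      (hb1 u w huw) h
    exact hinj u v w huv huw h1 h2
  have hnx : ∀ u v, part v = part u + 1 → u ≠ v →
      (t : ℤ) ∣ (S (part u) + p u v) - (S (part v) + p v u) := by
    intro u v h huv
    obtain ⟨h1, h2⟩ := hk1 u v h
    have e1 : p u v = g (part u) + r u v := by
      rw [hp, h1]
      simp [pos]
    have e2 : p v u = r u v := by
      rw [hp, h2, hr u v huv]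
      simp [pos]
    rw [e1, e2, h]
    have htZ : (t : ℤ) = g 0 + g 1 + g 2 := by exact_mod_cast ht.symm
    generalize part u = i
    fin_cases i
    · refine ⟨0, ?_⟩
      simp [hS0, hS1]
    · refine ⟨0, ?_⟩
      show S 1 + ((g 1 + r u v : ℕ) : ℤ) - (S 2 + (r u v : ℤ)) = (t : ℤ) * 0
      rw [hS1, hS2]
      push_cast
      ring
    · refine ⟨1, ?_⟩
      show S 2 + ((g 2 + r u v : ℕ) : ℤ) - (S 0 + (r u v : ℤ)) = (t : ℤ) * 1
      rw [hS2, hS0, htZ]
      push_cast
      ring
  have hcong : ∀ u v, u ≠ v → (t : ℤ) ∣ (S (part u) + p u v) - (S (part v) + p v u) := by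
    intro u v huv
    have h3 : part v = part u ∨ part v = part u + 1 ∨ part u = part v + 1 := by
      generalize part u = i
      generalize part v = j
      revert i j
      decide
    rcases h3 with h | h | h
    · have : p u v = p v u := by
        rw [hp, hp, hk u v huv h.symm, hr u v huv, h]
      rw [this, h]
      simp
    · exact hnx u v h huv
    · have h5 := (dvd_neg.2 (hnx v u h huv.symm))
      rw [neg_sub] at h5
      exact h5
  have hcard : ∀ v : V, (univ.erase v).card = N - 1 := by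
    intro v
    rw [card_erase_of_mem (mem_univ v), card_univ, hN]
  have hfill : ∀ (v : V) (k : ℕ), k < N - 1 → ∃ u, u ≠ v ∧ p v u = k := by
    intro v k hk'
    have him : (univ.erase v).image (p v) = range (N - 1) := by
      apply eq_of_subset_of_card_le
      · intro x hx
        obtain ⟨u, hu, rfl⟩ := mem_image.1 hx
        exact mem_range.2 (hplt v u (ne_of_mem_erase hu).symm)
      · rw [card_range, card_image_of_injOn, hcard]
        intro x hx y hy hxy
        exact hpinj v x y (ne_of_mem_erase (mem_coe.1 hx)).symm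
          (ne_of_mem_erase (mem_coe.1 hy)).symm hxy
    have : k ∈ (univ.erase v).image (p v) := by
      rw [him]
      exact mem_range.2 hk'
    obtain ⟨u, hu, h⟩ := mem_image.1 this
    exact ⟨u, ne_of_mem_erase hu, h⟩
  refine hCG V ⊤ t (fun u v => S (part u) + p u v) (fun v => S (part v)) (fun _ => N - 1)
    (by omega) ?_ ?_ ?_ ?_ ?_
  · intro u v huv
    exact hcong u v huv
  · intro v
    have : (⊤ : SimpleGraph V).neighborSet v = ((univ.erase v : Finset V) : Set V) := by
      ext u
      simp [SimpleGraph.neighborSet, eq_comm]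
    rw [this, Nat.card_coe_set_eq, Set.ncard_coe_finset, hcard]
  · intro v u huv
    refine ⟨p v u, by positivity, ?_, ?_⟩
    · exact_mod_cast hplt v u huv
    · simp
  · intro v u w hu hw hd
    apply hpinj v u w hu hw
    have h1 := hplt v u hu
    have h2 := hplt v w hw
    have hd' : (t : ℤ) ∣ (p v u : ℤ) - p v w := by
      convert hd using 1
      ring
    have h3 : (p v u : ℤ) - p v w = 0 := by
      apply Int.eq_zero_of_abs_lt_dvd hd'
      rw [abs_lt]
      constructor <;> omega
    omega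
  · intro x
    have ht0 : (0 : ℤ) < t := by
      have : 0 < t := by omega
      exact_mod_cast this
    have hx0 := Int.emod_nonneg x (ne_of_gt ht0)
    have hx1 := Int.emod_lt_of_pos x ht0
    have hd : (t : ℤ) ∣ x % t - x := by
      rw [Int.emod_def]
      exact ⟨-(x / t), by ring⟩
    have htZ : (t : ℤ) = g 0 + g 1 + g 2 := by exact_mod_cast ht.symm
    have key : ∃ i : Fin 3, S i ≤ x % t ∧ x % t < S i + g i := by
      rcases lt_or_ge (x % t) (g 0) with h0 | h0
      · exact ⟨0, by rw [hS0]; omega, by rw [hS0]; omega⟩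
      · rcases lt_or_ge (x % t) (g 0 + g 1) with h1 | h1
        · exact ⟨1, by rw [hS1]; omega, by rw [hS1]; omega⟩
        · exact ⟨2, by rw [hS2]; omega, by rw [hS2]; omega⟩
    obtain ⟨i, hi1, hi2⟩ := key
    obtain ⟨v, hv⟩ := hpart i
    have hgi : g i ≤ N - 1 := by
      have := hgc i
      have := habc i
      omega
    obtain ⟨u, hu, hpu⟩ := hfill v (x % t - S i).toNat (by omega)
    refine ⟨v, u, hu.symm, ?_⟩
    show (t : ℤ) ∣ S (part v) + (p v u : ℤ) - x
    rw [hpu, hv, Int.toNat_of_nonneg (by omega)]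
    convert hd using 1
    ring

end Pool.Agent.T2H56.IC
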