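import Mathlib

/-!
# Interval cyclic edge colourings: definitions

`FS G` is the feasible set of the graph `G` (problem MP_2596c2_co).
-/

namespace Pool.Agent.T2H56.IC

open Finset

/-- `c` is an interval cyclic `t`-colouring of `G`: all colours are used, the colouring is proper,
and the colours at every vertex `v` are `deg v` consecutive residues modulo `t`. -/
structure IsIC {V : Type} (G : SimpleGraph V) (t : ℕ) (c : Sym2 V → ZMod t) : Prop where
  surj : ∀ x : ZMod t, ∃ e ∈ G.edgeSet, c e = x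
  inj : ∀ v u w, G.Adj v u → G.Adj v w → c s(v, u) = c s(v, w) → u = w
  arc : ∀ v, ∃ a : ZMod t,
    {x | ∃ u, G.Adj v u ∧ c s(v, u) = x} =
      {x | ∃ k : ℕ, k < Nat.card (G.neighborSet v) ∧ x = a + k}

/-- the feasible set of `G` -/
def FS {V : Type} (G : SimpleGraph V) : Set ℕ := {t | 1 ≤ t ∧ ∃ c, IsIC G t c}

/-- gap-free sets -/
def GapFree (S : Set ℕ) : Prop := ∀ a b c, a ∈ S → c ∈ S → a < b → b < c → b ∈ S

/-- flip coordinate `i` -/
def flip {n : ℕ} (i : Fin n) (x : Fin n → Bool) : Fin n → Bool := Function.update x i (! x i)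

/-- the hypercube graph: adjacent when differing in exactly one coordinate -/
def Q (n : ℕ) : SimpleGraph (Fin n → Bool) where
  Adj x y := ∃ i, x i ≠ y i ∧ ∀ j, j ≠ i → x j = y j
  symm := ⟨by
    rintro x y ⟨i, h1, h2⟩
    exact ⟨i, h1.symm, fun j hj => (h2 j hj).symm⟩⟩
  loopless := ⟨by
    rintro x ⟨i, h1, _⟩
    exact h1 rfl⟩

/-- complete graph on `Fin N` -/
abbrev KG (N : ℕ) : SimpleGraph (Fin N) := ⊤

/-- complete bipartite graph -/
abbrev KB (m n : ℕ) : SimpleGraph (Fin m ⊕ Fin n) := completeBipartiteGraph (Fin m) (Fin n)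

/-- the main statement -/
def Main : Prop := ∀ m n : ℕ, 1 ≤ m → 1 ≤ n →
  GapFree (FS (KG (2 * n))) ∧ GapFree (FS (KB m n)) ∧ GapFree (FS (Q n))

/-! ## Working configurations -/

/-- integer data of an interval cyclic `t`-colouring of `K_N`: the colours at `v` are
`s v + (0, ..., N-2)` modulo `t`, the edge `uv` has the colour `s u + p u v = s v + p v u` -/
structure Conf (N t : ℕ) (s : Fin N → ℤ) (p : Fin N → Fin N → ℤ) : Prop where
  s0 : ∀ v, 0 ≤ s v
  st : ∀ v, s v < t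
  p0 : ∀ u v, u ≠ v → 0 ≤ p u v
  pN : ∀ u v, u ≠ v → p u v ≤ (N : ℤ) - 2
  inj : ∀ u v w, u ≠ v → u ≠ w → p u v = p u w → v = w
  cong : ∀ u v, u ≠ v → (t : ℤ) ∣ (s u + p u v) - (s v + p v u)
  surj : ∀ x : ℤ, ∃ u v, u ≠ v ∧ (t : ℤ) ∣ (s u + p u v) - x

/-- winding pattern (threshold form) -/
def K (N : ℕ) (s : Fin N → ℤ) (u v : Fin N) : ℤ :=
  if (N : ℤ) - 1 ≤ s u - s v then 1 else if (N : ℤ) - 1 ≤ s v - s u then -1 else 0

/-- row sums of the pattern -/
def A (N : ℕ) (s : Fin N → ℤ) (u : Fin N) : ℤ := ∑ v, K N s u v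

/-- the certificate matrix -/
def W (N : ℕ) (s : Fin N → ℤ) (u v : Fin N) : ℤ := N * K N s u v - A N s u + A N s v

/-- twice the value of the certificate -/
def Lam (N : ℕ) (s : Fin N → ℤ) : ℤ := ∑ u, ∑ v, W N s u v * K N s u v

/-- one-sidedness: no vertex winds in both directions -/
def OS (N : ℕ) (s : Fin N → ℤ) : Prop :=
  ∀ u v w, K N s u v = 1 → K N s u w = -1 → False

/-- the colours at `u` are sorted as the entries of the certificate -/
def Sorted (N : ℕ) (s : Fin N → ℤ) (p : Fin N → Fin N → ℤ) : Prop :=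
  ∀ u v w, u ≠ v → u ≠ w → W N s u v < W N s u w → p u v < p u w

/-- no ties between different classes -/
def NoTie (N : ℕ) (s : Fin N → ℤ) : Prop := ∀ u v, A N s u - A N s v < N

/-- number of vertices in lower classes -/
def Low (N : ℕ) (s : Fin N → ℤ) (v : Fin N) : ℤ :=
  ((univ.filter (fun x => A N s x < A N s v)).card : ℤ)

/-- integer data of an interval cyclic `t`-colouring of `K_{m,n}` -/
structure Conf2 (m n t : ℕ) (s : Fin m → ℤ) (r : Fin n → ℤ) (p q : Fin m → Fin n → ℤ) : Prop where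
  p0 : ∀ i j, 0 ≤ p i j
  pn : ∀ i j, p i j < n
  q0 : ∀ i j, 0 ≤ q i j
  qm : ∀ i j, q i j < m
  pinj : ∀ i j j', p i j = p i j' → j = j'
  qinj : ∀ i i' j, q i j = q i' j → i = i'
  cong : ∀ i j, (t : ℤ) ∣ (s i + p i j) - (r j + q i j)
  surj : ∀ x : ℤ, ∃ i j, (t : ℤ) ∣ (s i + p i j) - x

/-- integer data of an interval cyclic `t`-colouring of the cube `Q_n` -/
structure Conf3 (n t : ℕ) (s : (Fin n → Bool) → ℤ) (p : (Fin n → Bool) → Fin n → ℤ) : Prop where
  p0 : ∀ x i, 0 ≤ p x i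
  pn : ∀ x i, p x i < n
  inj : ∀ x i j, p x i = p x j → i = j
  cong : ∀ x i, (t : ℤ) ∣ (s x + p x i) - (s (flip i x) + p (flip i x) i)
  surj : ∀ y : ℤ, ∃ x i, (t : ℤ) ∣ (s x + p x i) - y

/-- a 1-factorization of `K_q` (colours `0, ..., q-2`) -/
def OneFac (q : ℕ) (κ : Fin q → Fin q → ℕ) : Prop :=
  (∀ i j, κ i j = κ j i) ∧ (∀ i j, i ≠ j → κ i j + 1 < q) ∧
    ∀ i j k, i ≠ j → i ≠ k → κ i j = κ i k → j = k

/-- `j` is a cyclic neighbour of `i` in `Fin q` -/
def CycAdj (q : ℕ) (i j : Fin q) : Prop :=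
  ((i : ℕ) + 1) % q = (j : ℕ) ∨ ((j : ℕ) + 1) % q = (i : ℕ)

end Pool.Agent.T2H56.IC
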