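import Pool.Agent.T2H56.IC.Stm

/-!
# Package CG: construction of interval cyclic colourings from integer data
-/

set_option autoImplicit false

namespace Pool.Agent.T2H56.IC

namespace CG

lemma cast_eq {t : ℕ} {a b : ℤ} (h : (t : ℤ) ∣ a - b) : (a : ZMod t) = (b : ZMod t) := by
  rw [eq_comm, ZMod.intCast_eq_intCast_iff_dvd_sub]
  exact h

lemma dvd_of_cast_eq {t : ℕ} {a b : ℤ} (h : (a : ZMod t) = (b : ZMod t)) : (t : ℤ) ∣ a - b := by
  rw [eq_comm, ZMod.intCast_eq_intCast_iff_dvd_sub] at h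
  exact h

/-- the colour function -/
noncomputable def cl {V : Type} (t : ℕ) (col : V → V → ℤ) (e : Sym2 V) : ZMod t :=
  ((col (Quot.out e).1 (Quot.out e).2 : ℤ) : ZMod t)

lemma cl_adj {V : Type} {G : SimpleGraph V} {t : ℕ} {col : V → V → ℤ}
    (hs : ∀ u v, G.Adj u v → (t : ℤ) ∣ col u v - col v u) {u v : V} (h : G.Adj u v) :
    cl t col s(u, v) = (col u v : ZMod t) := by
  have h1 : s((Quot.out s(u, v)).1, (Quot.out s(u, v)).2) = s(u, v) := Quot.out_eq s(u, v)
  unfold cl
  rcases Sym2.eq_iff.1 h1 with ⟨h2, h3⟩ | ⟨h2, h3⟩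
  · rw [h2, h3]
  · rw [h2, h3]
    exact cast_eq (hs v u h.symm)

end CG

open CG in
theorem pCG : S_CG := by
  classical
  intro V _ G t col S d ht hsym hdeg harc hinj hsurj
  haveI : NeZero t := ⟨by omega⟩
  refine ⟨ht, cl t col, ?_, ?_, ?_⟩
  · intro x
    obtain ⟨x', rfl⟩ := ZMod.intCast_surjective x
    obtain ⟨u, v, huv, hd⟩ := hsurj x'
    exact ⟨s(u, v), huv, by rw [cl_adj hsym huv]; exact cast_eq hd⟩
  · intro v u w hu hw h
    rw [cl_adj hsym hu, cl_adj hsym hw] at h
    exact hinj v u w hu hw (dvd_of_cast_eq h)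
  · intro v
    refine ⟨(S v : ZMod t), ?_⟩
    have hL : {x | ∃ u, G.Adj v u ∧ cl t col s(v, u) = x} =
        (fun u => cl t col s(v, u)) '' G.neighborSet v := by
      ext x
      constructor
      · rintro ⟨u, hu, rfl⟩
        exact ⟨u, hu, rfl⟩
      · rintro ⟨u, hu, rfl⟩
        exact ⟨u, hu, rfl⟩
    have hR : {x : ZMod t | ∃ k : ℕ, k < Nat.card (G.neighborSet v) ∧ x = (S v : ZMod t) + k} =
        (fun k : ℕ => (S v : ZMod t) + k) '' (Finset.range (Nat.card (G.neighborSet v)) : Set ℕ) := by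
      ext x
      constructor
      · rintro ⟨k, hk, rfl⟩
        exact ⟨k, by simpa using hk, rfl⟩
      · rintro ⟨k, hk, rfl⟩
        exact ⟨k, by simpa using hk, rfl⟩
    refine Set.eq_of_subset_of_ncard_le ?_ ?_ (Set.toFinite _)
    · rintro x ⟨u, hu, rfl⟩
      obtain ⟨k, hk0, hkd, hdv⟩ := harc v u hu
      refine ⟨k.toNat, ?_, ?_⟩
      · rw [hdeg v]
        omega
      · rw [cl_adj hsym hu, cast_eq hdv]
        push_cast
        congr 1
        have h1 : ((k.toNat : ℤ) : ZMod t) = (k : ZMod t) := by rw [Int.toNat_of_nonneg hk0]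
        rw [← h1]
        push_cast
        rfl
    · rw [hL, hR]
      refine (Set.ncard_image_le (Finset.finite_toSet _)).trans ?_
      rw [Set.ncard_coe_finset, Finset.card_range, Set.ncard_image_of_injOn]
      · exact le_of_eq rfl
      · intro u hu w hw h
        have h' : cl t col s(v, u) = cl t col s(v, w) := h
        rw [cl_adj hsym hu, cl_adj hsym hw] at h'
        exact hinj v u w hu hw (dvd_of_cast_eq h')

end Pool.Agent.T2H56.IC
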