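import Pool.Agent.T2H56.IC.Stm

/-! Packages F1, F2, F3 (helper13): 1-factorizations of complete graphs. -/

set_option autoImplicit false

namespace Pool.Agent.T2H56.IC
namespace F3

open Finset

variable {h : ℕ}

/-- the labels -/
def lab (h : ℕ) (i : Fin (2 * h + 2)) : Option (ZMod (2 * h + 1)) :=
  if (i : ℕ) = 0 then none
  else if (i : ℕ) % 2 = 0 then some (((i : ℕ) / 2 : ℕ) : ZMod (2 * h + 1))
  else some (-(((i : ℕ) / 2 : ℕ) : ZMod (2 * h + 1)))

/-- the colour, as a residue -/
def col {M : ℕ} : Option (ZMod M) → Option (ZMod M) → ZMod M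
  | none, none => 0
  | none, some x => 2 * x
  | some x, none => 2 * x
  | some x, some y => x + y

theorem col_comm {M : ℕ} (a b : Option (ZMod M)) : col a b = col b a := by
  rcases a with _ | a <;> rcases b with _ | b <;> simp only [col]
  exact add_comm _ _

theorem two_inj {x y : ZMod (2 * h + 1)} (e : 2 * x = 2 * y) : x = y := by
  have h1 : ((h : ZMod (2 * h + 1)) + 1) * 2 = 1 := by
    have h2 : ((2 * h + 1 : ℕ) : ZMod (2 * h + 1)) = 0 := ZMod.natCast_self _
    push_cast at h2
    linear_combination h2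
  calc x = ((h : ZMod (2 * h + 1)) + 1) * 2 * x := by rw [h1, one_mul]
    _ = ((h : ZMod (2 * h + 1)) + 1) * (2 * x) := by ring
    _ = ((h : ZMod (2 * h + 1)) + 1) * (2 * y) := by rw [e]
    _ = ((h : ZMod (2 * h + 1)) + 1) * 2 * y := by ring
    _ = y := by rw [h1, one_mul]

theorem col_inj {a b c : Option (ZMod (2 * h + 1))} (hab : a ≠ b) (hac : a ≠ c)
    (e : col a b = col a c) : b = c := by
  rcases a with _ | a <;> rcases b with _ | b <;> rcases c with _ | c <;> simp only [col] at e
  · rfl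
  · exact absurd rfl hab
  · exact absurd rfl hac
  · rw [two_inj e]
  · rfl
  · exfalso
    apply hac
    have : a = c := by linear_combination e
    rw [this]
  · exfalso
    apply hab
    have : a = b := by linear_combination -e
    rw [this]
  · rw [add_left_cancel e]

theorem cast_inj {a b : ℕ} (ha : a < 2 * h + 1) (hb : b < 2 * h + 1)
    (e : (a : ZMod (2 * h + 1)) = b) : a = b := by
  rw [ZMod.natCast_eq_natCast_iff', Nat.mod_eq_of_lt ha, Nat.mod_eq_of_lt hb] at e
  exact e

theorem cast_sum {a b : ℕ} (h0 : 0 < a + b) (h1 : a + b < 2 * h + 1)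
    (e : (a : ZMod (2 * h + 1)) = -(b : ZMod (2 * h + 1))) : False := by
  have h2 : ((a + b : ℕ) : ZMod (2 * h + 1)) = ((0 : ℕ) : ZMod (2 * h + 1)) := by
    push_cast
    rw [e]
    ring
  have := cast_inj h1 (by omega) h2
  omega

theorem lab_inj : Function.Injective (lab h) := by
  intro i j e
  have hi := i.isLt
  have hj := j.isLt
  apply Fin.ext
  unfold lab at e
  by_cases i0 : (i : ℕ) = 0 <;> by_cases j0 : (j : ℕ) = 0
  · rw [i0, j0]
  · rw [if_pos i0, if_neg j0] at e
    split_ifs at e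
  · rw [if_neg i0, if_pos j0] at e
    split_ifs at e
  · rw [if_neg i0, if_neg j0] at e
    by_cases i1 : (i : ℕ) % 2 = 0 <;> by_cases j1 : (j : ℕ) % 2 = 0
    · rw [if_pos i1, if_pos j1, Option.some.injEq] at e
      have := cast_inj (by omega) (by omega) e
      omega
    · rw [if_pos i1, if_neg j1, Option.some.injEq] at e
      exact (cast_sum (by omega) (by omega) e).elim
    · rw [if_neg i1, if_pos j1, Option.some.injEq] at e
      exact (cast_sum (by omega) (by omega) e.symm).elim
    · rw [if_neg i1, if_neg j1, Option.some.injEq, neg_inj] at e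
      have := cast_inj (by omega) (by omega) e
      omega

/-- the colouring -/
def kap (h : ℕ) (i j : Fin (2 * h + 2)) : ℕ := (col (lab h i) (lab h j)).val

theorem kap_fac (h : ℕ) : OneFac (2 * h + 2) (kap h) := by
  refine ⟨fun i j => ?_, fun i j _ => ?_, fun i j k hij hik e => ?_⟩
  · unfold kap
    rw [col_comm]
  · have := ZMod.val_lt (col (lab h i) (lab h j))
    unfold kap
    omega
  · unfold kap at e
    exact lab_inj (col_inj (lab_inj.ne hij) (lab_inj.ne hik) (ZMod.val_injective _ e))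

theorem succ0 {i j : Fin (2 * h + 2)} (h0 : (i : ℕ) % 2 = 0) (h1 : (j : ℕ) = i + 1) :
    col (lab h i) (lab h j) = 0 := by
  have hj : ¬ (j : ℕ) = 0 := by omega
  have hj2 : ¬ (j : ℕ) % 2 = 0 := by omega
  have e : (j : ℕ) / 2 = (i : ℕ) / 2 := by omega
  unfold lab
  rw [if_neg hj, if_neg hj2, e]
  by_cases i0 : (i : ℕ) = 0
  · rw [if_pos i0, i0]
    simp [col]
  · rw [if_neg i0, if_pos h0]
    simp [col]

theorem succ1 {i j : Fin (2 * h + 2)} (h0 : ¬ (i : ℕ) % 2 = 0)
    (h1 : (j : ℕ) = (i + 1) % (2 * h + 2)) : col (lab h i) (lab h j) = 1 := by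
  have hi := i.isLt
  have i0 : ¬ (i : ℕ) = 0 := by omega
  unfold lab
  rw [if_neg i0, if_neg h0]
  by_cases j0 : (j : ℕ) = 0
  · rw [if_pos j0]
    have h2 : (i : ℕ) = 2 * h + 1 := by
      by_contra hcon
      rw [Nat.mod_eq_of_lt (by omega)] at h1
      omega
    have h3 : (i : ℕ) / 2 = h := by omega
    rw [h3]
    simp only [col]
    have h4 : ((2 * h + 1 : ℕ) : ZMod (2 * h + 1)) = 0 := ZMod.natCast_self _
    push_cast at h4
    linear_combination -h4
  · have h2 : (i : ℕ) + 1 < 2 * h + 2 := by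
      by_contra hcon
      have : (i : ℕ) + 1 = 2 * h + 2 := by omega
      rw [this, Nat.mod_self] at h1
      omega
    rw [Nat.mod_eq_of_lt h2] at h1
    have hj2 : (j : ℕ) % 2 = 0 := by omega
    rw [if_neg j0, if_pos hj2]
    have e : (j : ℕ) / 2 = (i : ℕ) / 2 + 1 := by omega
    rw [e]
    simp only [col]
    push_cast
    ring

/-- cyclic neighbours have the colours 0 and 1 -/
theorem cyc_col {i j : Fin (2 * h + 2)} (e : ((i : ℕ) + 1) % (2 * h + 2) = j) :
    col (lab h i) (lab h j) = if (i : ℕ) % 2 = 0 then 0 else 1 := by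
  have hi := i.isLt
  split_ifs with h0
  · refine succ0 h0 ?_
    rw [← e, Nat.mod_eq_of_lt (by omega)]
  · exact succ1 h0 e.symm

theorem msucc {i N : ℕ} (hi : i < N) : (i + 1) % N = i + 1 ∧ i + 1 < N ∨ (i + 1) % N = 0 ∧ i + 1 = N := by
  rcases Nat.lt_or_ge (i + 1) N with e | e
  · exact Or.inl ⟨Nat.mod_eq_of_lt e, e⟩
  · right
    have : i + 1 = N := by omega
    exact ⟨by rw [this, Nat.mod_self], this⟩

theorem mpred {i m : ℕ} (hi : i < m + 1) :
    (i + m) % (m + 1) = m ∧ i = 0 ∨ (i + m) % (m + 1) + 1 = i ∧ 0 < i := by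
  rcases Nat.eq_zero_or_pos i with e | e
  · left
    rw [e, zero_add]
    exact ⟨Nat.mod_eq_of_lt (by omega), rfl⟩
  · right
    have h1 : i + m = (i - 1) + (m + 1) := by omega
    rw [h1, Nat.add_mod_right, Nat.mod_eq_of_lt (by omega)]
    omega

theorem kap_cyc (hh : 1 ≤ h) (i j : Fin (2 * h + 2)) (hij : i ≠ j) :
    (col (lab h i) (lab h j) = 0 ∨ col (lab h i) (lab h j) = 1) ↔ CycAdj (2 * h + 2) i j := by
  have hi := i.isLt
  constructor
  · intro e
    -- the two neighbours
    let s : Fin (2 * h + 2) := ⟨((i : ℕ) + 1) % (2 * h + 2), Nat.mod_lt _ (by omega)⟩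
    let r : Fin (2 * h + 2) := ⟨((i : ℕ) + (2 * h + 1)) % (2 * h + 2), Nat.mod_lt _ (by omega)⟩
    have hs : col (lab h i) (lab h s) = if (i : ℕ) % 2 = 0 then 0 else 1 := cyc_col rfl
    have hsv : (s : ℕ) = i + 1 ∧ (i : ℕ) + 1 < 2 * h + 2 ∨ (s : ℕ) = 0 ∧ (i : ℕ) + 1 = 2 * h + 2 :=
      msucc hi
    have hrv : (r : ℕ) = 2 * h + 1 ∧ (i : ℕ) = 0 ∨ (r : ℕ) + 1 = i ∧ 0 < (i : ℕ) := mpred hi
    have hrl := r.isLt
    have hr0 : ((r : ℕ) + 1) % (2 * h + 2) = i := by
      rcases msucc hrl with g | g <;> omega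
    have hr : col (lab h i) (lab h r) = if (i : ℕ) % 2 = 0 then 1 else 0 := by
      rw [col_comm, cyc_col hr0]
      have : (r : ℕ) % 2 = 0 ↔ ¬ (i : ℕ) % 2 = 0 := by omega
      by_cases h0 : (i : ℕ) % 2 = 0
      · rw [if_pos h0, if_neg (by omega)]
      · rw [if_neg h0, if_pos (by omega)]
    have his : i ≠ s := fun e => by
      have := congrArg Fin.val e
      omega
    have hir : i ≠ r := fun e => by
      have := congrArg Fin.val e
      omega
    have key : j = s ∨ j = r := by
      by_cases h0 : (i : ℕ) % 2 = 0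
      · rw [if_pos h0] at hs hr
        rcases e with e | e
        · exact Or.inl (lab_inj (col_inj (lab_inj.ne hij) (lab_inj.ne his) (e.trans hs.symm)))
        · exact Or.inr (lab_inj (col_inj (lab_inj.ne hij) (lab_inj.ne hir) (e.trans hr.symm)))
      · rw [if_neg h0] at hs hr
        rcases e with e | e
        · exact Or.inr (lab_inj (col_inj (lab_inj.ne hij) (lab_inj.ne hir) (e.trans hr.symm)))
        · exact Or.inl (lab_inj (col_inj (lab_inj.ne hij) (lab_inj.ne his) (e.trans hs.symm)))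
    rcases key with rfl | rfl
    · exact Or.inl rfl
    · exact Or.inr hr0
  · rintro (e | e)
    · rw [cyc_col e]
      split_ifs
      · exact Or.inl rfl
      · exact Or.inr rfl
    · rw [col_comm, cyc_col e]
      split_ifs
      · exact Or.inl rfl
      · exact Or.inr rfl

theorem kap_le (hh : 1 ≤ h) (i j : Fin (2 * h + 2)) (hij : i ≠ j) :
    kap h i j ≤ 1 ↔ CycAdj (2 * h + 2) i j := by
  rw [← kap_cyc hh i j hij]
  unfold kap
  have : Fact (1 < 2 * h + 1) := ⟨by omega⟩
  constructor
  · intro e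
    have h1 := Nat.le_one_iff_eq_zero_or_eq_one.1 e
    rcases h1 with h1 | h1
    · exact Or.inl ((ZMod.val_eq_zero _).1 h1)
    · right
      apply ZMod.val_injective
      rw [h1, ZMod.val_one]
  · rintro (e | e)
    · rw [e, ZMod.val_zero]; omega
    · rw [e, ZMod.val_one]

/-- adding one -/
def shift {M : ℕ} : Option (ZMod M) → Option (ZMod M) := Option.map fun x => x + 1

theorem shift_bij {M : ℕ} : Function.Bijective (shift (M := M)) := by
  constructor
  · intro a b e
    exact Option.map_injective (fun x y hxy => add_right_cancel hxy) e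
  · intro b
    rcases b with _ | b
    · exact ⟨none, rfl⟩
    · refine ⟨some (b - 1), ?_⟩
      simp [shift]

theorem col_shift {M : ℕ} {a b : Option (ZMod M)} (hab : a ≠ b) :
    col (shift a) (shift b) = col a b + 2 := by
  rcases a with _ | a <;> rcases b with _ | b <;> simp only [shift, Option.map, col]
  · exact absurd rfl hab
  · ring
  · ring
  · ring

theorem lab_bij : Function.Bijective (lab h) := by
  rw [Fintype.bijective_iff_injective_and_card]
  refine ⟨lab_inj, ?_⟩
  rw [Fintype.card_fin, Fintype.card_option, ZMod.card]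

end F3

open F3

theorem pF1 : S_F1 := by
  intro q hq he
  obtain ⟨m, hm⟩ := he
  obtain ⟨h, rfl⟩ : ∃ h, q = 2 * h + 2 := ⟨m - 1, by omega⟩
  exact ⟨kap h, kap_fac h⟩

theorem pF2 : S_F2 := by
  intro q hq he
  obtain ⟨m, hm⟩ := he
  obtain ⟨h, rfl⟩ : ∃ h, q = 2 * h + 2 := ⟨m - 1, by omega⟩
  exact ⟨kap h, kap_fac h, kap_le (by omega)⟩

theorem pF3 : S_F3 := by
  intro q hq he
  obtain ⟨m, hm⟩ := he
  obtain ⟨h, rfl⟩ : ∃ h, q = 2 * h + 2 := ⟨m - 1, by omega⟩
  let L : Fin (2 * h + 2) ≃ Option (ZMod (2 * h + 1)) := Equiv.ofBijective (lab h) lab_bij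
  let T : Option (ZMod (2 * h + 1)) ≃ Option (ZMod (2 * h + 1)) :=
    Equiv.ofBijective shift shift_bij
  let σ : Equiv.Perm (Fin (2 * h + 2)) := (L.trans T).trans L.symm
  have hσ : ∀ i, lab h (σ i) = shift (lab h i) := fun i => L.apply_symm_apply (shift (lab h i))
  refine ⟨kap h, σ, kap_fac h, kap_le (by omega), fun i j hij => ?_⟩
  rw [← kap_cyc (by omega) i j hij]
  unfold kap
  rw [hσ, hσ, col_shift (lab_inj.ne hij)]
  have h2 : ((2 : ZMod (2 * h + 1))).val = 2 := by
    have : ((2 : ℕ) : ZMod (2 * h + 1)).val = 2 := ZMod.val_natCast_of_lt (by omega)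
    exact_mod_cast this
  have h3 : ((3 : ZMod (2 * h + 1))).val = 3 := by
    have : ((3 : ℕ) : ZMod (2 * h + 1)).val = 3 := ZMod.val_natCast_of_lt (by omega)
    exact_mod_cast this
  constructor
  · rintro (e | e)
    · left
      have := ZMod.val_injective _ (e.trans h2.symm)
      linear_combination this
    · right
      have := ZMod.val_injective _ (e.trans h3.symm)
      linear_combination this
  · rintro (e | e)
    · left
      rw [e, zero_add, h2]
    · right
      rw [e, show (1 : ZMod (2 * h + 1)) + 2 = 3 by ring, h3]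

end Pool.Agent.T2H56.IC
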