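import Pool.Agent.T2H56.IC.PQ37

/-!
# Package Q411: `11 ∈ FS (Q 4)`
-/

namespace Pool.Agent.T2H56.IC

open Finset

namespace Q411

def code (x : Fin 4 → Bool) : ℕ :=
  (x 0).toNat + 2 * (x 1).toNat + 4 * (x 2).toNat + 8 * (x 3).toNat

def tab : List (List ℕ) :=
  [[1, 0, 3, 2], [1, 0, 2, 10], [10, 0, 9, 1], [10, 0, 8, 9], [4, 6, 3, 5], [4, 5, 2, 3],
   [7, 6, 9, 8], [7, 5, 8, 6], [1, 0, 3, 2], [1, 0, 2, 10], [10, 0, 9, 1], [10, 0, 8, 9],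
   [4, 6, 3, 5], [4, 5, 2, 3], [7, 6, 9, 8], [7, 5, 8, 6]]

def starts : List ℕ := [0, 10, 9, 8, 3, 2, 6, 5, 0, 10, 9, 8, 3, 2, 6, 5]

def c (x : Fin 4 → Bool) (i : Fin 4) : ℤ := (((tab.getD (code x) []).getD i 0 : ℕ) : ℤ)

def S (x : Fin 4 → Bool) : ℤ := ((starts.getD (code x) 0 : ℕ) : ℤ)

end Q411

/-- PACKAGE Q411 -/
theorem pQ411 : S_Q411 := fun hCG =>
  QTab.mem_FS hCG 4 11 (by norm_num) Q411.c Q411.S (by decide +kernel) (by decide +kernel)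
    (by decide +kernel) (by decide +kernel)

end Pool.Agent.T2H56.IC
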