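import Pool.Agent.T2H56.IC.Def

/-!
# Interval cyclic edge colourings: statements of the packages

MP_2596c2_co, full positive answer. Every package is a `Prop` below; the paper proof is in its
docstring. Packages are independent (dependencies are hypotheses of the assembly only).
-/

namespace Pool.Agent.T2H56.IC

open Finset

/-! ## Part 1: passing between colourings and integer data -/

/-- PACKAGE CG (35 min). General construction lemma: to prove `t ∈ FS G` it suffices to give an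
integer colour function `col` (symmetric on edges), starts `S` and degrees `d`. Proof: put
`c s(u,v) := (col u v : ZMod t)` via `Sym2.lift` of the symmetrised function
(e.g. `if G.Adj u v then col (min) (max)`; or use `Classical` choice of a representative:
`c e := col (e.out).1 (e.out).2`, symmetric up to multiples of `t` by `hsym`).
`arc`: the `d v` colours at `v` are distinct and lie in the `d v` element set
`{S v + k | k < d v}`, so they are the whole set (cardinality). -/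
def S_CG : Prop := ∀ (V : Type) [Fintype V] (G : SimpleGraph V) (t : ℕ) (col : V → V → ℤ)
  (S : V → ℤ) (d : V → ℕ), 1 ≤ t →
  (∀ u v, G.Adj u v → (t : ℤ) ∣ col u v - col v u) →
  (∀ v, Nat.card (G.neighborSet v) = d v) →
  (∀ v u, G.Adj v u → ∃ k : ℤ, 0 ≤ k ∧ k < d v ∧ (t : ℤ) ∣ col v u - (S v + k)) →
  (∀ v u w, G.Adj v u → G.Adj v w → (t : ℤ) ∣ col v u - col v w → u = w) →
  (∀ x : ℤ, ∃ u v, G.Adj u v ∧ (t : ℤ) ∣ col u v - x) →
  t ∈ FS G

/-- PACKAGE TR (15 min). Transfer of feasible sets of complete graphs along a bijection. -/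
def S_TR : Prop := ∀ (V : Type) [Fintype V] (N t : ℕ), Fintype.card V = N →
  t ∈ FS (⊤ : SimpleGraph V) → t ∈ FS (KG N)

/-- PACKAGE XK (40 min). Integer data of a colouring of `K_N`. `s v` is the representative in
`[0,t)` of the start `a` of the arc at `v`; `p u v` in `[0, N-2]` with colour of `uv` `= s u + p u v`
modulo `t` (the neighbour set of `v` has `N-1` elements). `N - 1 ≤ t` because the `N-1` colours at a
vertex are distinct. -/
def S_XK : Prop := ∀ (N t : ℕ), 2 ≤ N → t ∈ FS (KG N) →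
  N ≤ t + 1 ∧ ∃ s p, Conf N t s p

/-- PACKAGE XB (40 min). The same for `K_{m,n}`: rows `i` have degree `n`, columns `j` degree `m`. -/
def S_XB : Prop := ∀ (m n t : ℕ), 1 ≤ m → 1 ≤ n → t ∈ FS (KB m n) →
  m ≤ t ∧ n ≤ t ∧ ∃ s r p q, Conf2 m n t s r p q

/-- PACKAGE XQ (40 min). The same for the cube; the neighbours of `x` are the `n` vertices
`flip i x`. -/
def S_XQ : Prop := ∀ (n t : ℕ), 1 ≤ n → t ∈ FS (Q n) →
  n ≤ t ∧ ∃ s p, Conf3 n t s p

/-! ## Part 2: complete bipartite graphs -/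

/-- PACKAGE BC (20 min). Construction for `K_{m,n}`: colour `i + j` modulo `t`, all
`max m n ≤ t ≤ m+n-1` (use `S_CG`; degrees `n` and `m`; all of `0, ..., m+n-2` are used). -/
def S_BC : Prop := S_CG → ∀ m n t : ℕ, 1 ≤ m → 1 ≤ n → m ≤ t → n ≤ t → t + 1 ≤ m + n →
  t ∈ FS (KB m n)

/-- PACKAGE BN (25 min). Normal form: for `t ≥ m+n` one may choose the representatives so that
`0 ≤ s i < t`, `-(m-1) ≤ r j ≤ t-m` and then `s i + p i j - (r j + q i j) = t` if `r j + m ≤ s i` and `= 0`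
otherwise. Proof: replace `s i`, `r j` by their representatives in these ranges. The difference
`D = s i + p - r j - q` is a multiple of `t`. If `s i ≤ r j + m - 1`:
`D ≤ m-1+n-1 < t` and, `D ≥ 0 - (t-m) - (m-1) > -t`, so `D = 0`. If `s i ≥ r j + m`: `D ≥ m - (m-1) > 0` and
`D ≤ t-1+n-1+m-1 < 2t`, so `D = t`. -/
def S_BN : Prop := ∀ (m n t : ℕ) (s : Fin m → ℤ) (r : Fin n → ℤ) (p q : Fin m → Fin n → ℤ),
  1 ≤ m → 1 ≤ n → m + n ≤ t → Conf2 m n t s r p q →
  ∃ (s' : Fin m → ℤ) (r' : Fin n → ℤ), Conf2 m n t s' r' p q ∧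
    ∀ i j, (s' i + p i j) - (r' j + q i j) = if r' j + m ≤ s' i then (t : ℤ) else 0

/-- PACKAGE BI (60 min). The inequality. With `w i j = 1` if `r j + m ≤ s i` and `0` otherwise,
`g i = ∑ j, w i j`, `h j = ∑ i, w i j`, `H = ∑ w`, `X = m n H - m ∑ g² - n ∑ h² + H²`:
`t X ≤ (m+n) X`.
Proof. Let `ω i j = m n w i j - m g i - n h j + H` (zero row and column sums, `∑ ω w = X`). Multiply
the identity `s i + p i j - r j - q i j = t w i j` by `ω i j` and sum:
`∑ ω p - ∑ ω q = t X`. Since every row of `p` is a permutation of `0..n-1` and every column of `q` a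
permutation of `0..m-1`: `∑ ω p = n ∑_i ∑_j (m w i j - h j) p i j` and
`- ∑ ω q = m ∑_j ∑_i (g i - n w i j) q i j`.
For a permutation `p` of `0..n-1`, `p j = #{j' : p j' < p j}`, so
`∑_j v j p j ≤ ∑_{j<j'} max (v j) (v j')`. The pattern `w` is nested (`w i j = [s i - r j ≥ m]`): for two
columns with `a = h j ≥ b = h j'`, `∑_i max (m w i j - h j, m w i j' - h j') = (a-b)(m-(a-b))` (both
in: `b` rows, value `m-b`; only `j` in: `a-b` rows, value `m-a`; none: `m-a` rows, value `-b`).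
Hence `t X ≤ n ∑_{j<j'} |h j - h j'| (m - |h j - h j'|) + m ∑_{i<i'} |g i - g i'| (n - |g i - g i'|)`, and
`∑_{j<j'} |h j - h j'| = ∑_i g i (n - g i)` (nested), `∑_{j<j'} (h j - h j')² = n ∑ h² - H²`, and
symmetrically, which gives exactly `(m+n) X`. -/
def S_BI : Prop := ∀ (m n t : ℕ) (s : Fin m → ℤ) (r : Fin n → ℤ) (p q : Fin m → Fin n → ℤ),
  Conf2 m n t s r p q →
  (∀ i j, (s i + p i j) - (r j + q i j) = if r j + m ≤ s i then (t : ℤ) else 0) →
  ∀ (w : Fin m → Fin n → ℤ), (∀ i j, w i j = if r j + m ≤ s i then 1 else 0) →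
  ∀ X : ℤ, X = m * n * (∑ i, ∑ j, w i j) - m * (∑ i, (∑ j, w i j) ^ 2)
      - n * (∑ j, (∑ i, w i j) ^ 2) + (∑ i, ∑ j, w i j) ^ 2 →
  t * X ≤ (m + n) * X

/-- PACKAGE BX (25 min). `m n X = ∑ ω²` with `ω i j = m n w i j - m g i - n h j + H`, for `w i j ∈ {0,1}`.
Hence `X ≥ 0` (if `m, n ≥ 1`), and `X = 0` only if `ω = 0`. -/
def S_BX : Prop := ∀ (m n : ℕ) (w : Fin m → Fin n → ℤ), 1 ≤ m → 1 ≤ n →
  (∀ i j, w i j = 0 ∨ w i j = 1) →
  ∀ X : ℤ, X = m * n * (∑ i, ∑ j, w i j) - m * (∑ i, (∑ j, w i j) ^ 2)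
      - n * (∑ j, (∑ i, w i j) ^ 2) + (∑ i, ∑ j, w i j) ^ 2 →
  0 < X ∨ (∀ i j i' j', w i j - w i' j - w i j' + w i' j' = 0)

/-- PACKAGE BL (35 min). The liftable case: if the pattern is additive then `t ≤ m+n-1`.
Proof: let `C i j = s i + p i j - t (w i 0)`. It is `= r j + q i j + t (w i j - w i 0) =
r j + q i j + t (w 0 j - w 0 0)`. So two entries of `C` in the same row differ by at most `n-1`, in the
same column by at most `m-1`, and any two by at most `m+n-2`. All values of `C` lie in an interval of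
`m+n-1` integers and hit every residue modulo `t`. -/
def S_BL : Prop := ∀ (m n t : ℕ) (s : Fin m → ℤ) (r : Fin n → ℤ) (p q w : Fin m → Fin n → ℤ),
  1 ≤ m → 1 ≤ n → 1 ≤ t → Conf2 m n t s r p q →
  (∀ i j, (s i + p i j) - (r j + q i j) = t * w i j) →
  (∀ i j i' j', w i j - w i' j - w i j' + w i' j' = 0) →
  t + 1 ≤ m + n

/-! ## Part 3: hypercubes -/

/-- PACKAGE QE (35 min). Exactness on the cube: an edge function (`δ x i` is the increment along the
edge from `x` to `flip i x`) that is antisymmetric and has zero sum around all squares is the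
increment of a vertex function. Proof: induction on the number of coordinates handled, or directly:
`F x := ∑ i, if x i then δ (x restricted to coordinates < i) i else 0`, where restricted means that the
coordinates `≥ i` are set to `false`; check the increment in direction `i` by moving through the later
coordinates with the square condition. -/
def S_QE : Prop := ∀ (n : ℕ) (δ : (Fin n → Bool) → Fin n → ℤ),
  (∀ x i, δ (flip i x) i = - δ x i) →
  (∀ x i j, i ≠ j → δ x i + δ (flip i x) j = δ x j + δ (flip j x) i) →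
  ∃ F : (Fin n → Bool) → ℤ, ∀ x i, F (flip i x) - F x = δ x i

/-- PACKAGE QL (25 min). Lifting: for `t > 4(n-1)` the data can be chosen exact. Proof: the increment
`δ x i = p x i - p (flip i x) i` satisfies `s (flip i x) ≡ s x + δ x i (mod t)`; around a square the
sum is divisible by `t` and at most `4(n-1)` in absolute value, so zero; apply `S_QE`; `F - s` is
constant modulo `t` (connectedness: `F x - s x ≡ F y - s y`); shift `F` by the constant. -/
def S_QL : Prop := S_QE → ∀ (n t : ℕ) (s : (Fin n → Bool) → ℤ) (p : (Fin n → Bool) → Fin n → ℤ),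
  1 ≤ n → 4 * (n - 1) < t → Conf3 n t s p →
  ∃ s' : (Fin n → Bool) → ℤ, Conf3 n t s' p ∧
    ∀ x i, s' x + p x i = s' (flip i x) + p (flip i x) i

/-- PACKAGE QC (40 min). Exact data can be read modulo every `t'` with `n ≤ t' ≤ t`. Proof: the arcs
`[s' x, s' x + n - 1]` of adjacent vertices meet, so their union is an interval of integers (if `y`
is not in any arc, then `y < s' x` or `y > s' x + n - 1`, and the alternative is the same for adjacent
vertices, hence for all); it meets all residues modulo `t`, so it has at least `t ≥ t'` elements.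
All arcs are filled (`p x` is a bijection `Fin n → [0,n-1]`). Use `S_CG` with the colour of the edge
`x, flip i x` equal to `s' x + p x i`, degrees `n`. -/
def S_QC : Prop := S_CG → ∀ (n t t' : ℕ) (s : (Fin n → Bool) → ℤ) (p : (Fin n → Bool) → Fin n → ℤ),
  1 ≤ n → Conf3 n t s p → (∀ x i, s x + p x i = s (flip i x) + p (flip i x) i) →
  n ≤ t' → t' ≤ t → 1 ≤ t → t' ∈ FS (Q n)

/-- PACKAGE QT (45 min). The colouring of `Q_n` with `n(n+1)/2` colours as exact data modulo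
`t = n(n+1)/2`. The edge in direction `m` at `x` has the colour
`c x m = ∑_{j<m, x j} j + m + ∑_{j>m, x j} (j+1)` (independent of `x m`), the start at `x` is
`s x = ∑_{x j} j`, so `p x m = m - [x m] m + #{j > m : x j}`, i.e. `p x m = #{j > m : x j}` if `x m`
and `p x m = #ones + #{j < m : not x j}` otherwise: injective with values in `[0,n-1]`. Every residue
modulo `n(n+1)/2` is attained: every integer of `[0, n(n-1)/2]` is a subset sum of `{0,...,n-1}`, and
the arc at `x` is filled. -/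
def S_QT : Prop := ∀ n : ℕ, 1 ≤ n → ∃ (s : (Fin n → Bool) → ℤ) (p : (Fin n → Bool) → Fin n → ℤ),
  Conf3 n (n * (n + 1) / 2) s p ∧ ∀ x i, s x + p x i = s (flip i x) + p (flip i x) i

/-- PACKAGE Q37 (20 min). `7 ∈ FS (Q 3)`. Explicit colouring; vertices `0..7` as bit masks (bit `i` =
coordinate `i`), edges and colours:
(0,1):2 (0,2):0 (0,4):1 (1,3):4 (1,5):3 (2,3):6 (2,6):1 (3,7):5 (4,5):2 (4,6):0 (5,7):4 (6,7):6. -/
def S_Q37 : Prop := S_CG → 7 ∈ FS (Q 3)

/-- PACKAGE Q411 (25 min). `11 ∈ FS (Q 4)`. Explicit colouring, bit masks as in Q37: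
(0,1):1 (0,2):0 (0,4):3 (0,8):2 (1,3):0 (1,5):2 (1,9):10 (2,3):10 (2,6):9 (2,10):1 (3,7):8 (3,11):9
(4,5):4 (4,6):6 (4,12):5 (5,7):5 (5,13):3 (6,7):7 (6,14):8 (7,15):6 (8,9):1 (8,10):0 (8,12):3
(9,11):0 (9,13):2 (10,11):10 (10,14):9 (11,15):8 (12,13):4 (12,14):6 (13,15):5 (14,15):7. -/
def S_Q411 : Prop := S_CG → 11 ∈ FS (Q 4)

/-! ## Part 4: complete graphs, upper bound -/

/-- PACKAGE KT (30 min). Threshold form of the winding numbers for `t ≥ 2N-3`. Proof: the left side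
`D` is a multiple of `t`; let `s v ≤ s u` (else swap). `D ≥ -(N-2) > -t` and `D ≤ t-1+N-2 < 2t`, so
`D = 0` (then `s u - s v ≤ N-2`, `K = 0`) or `D = t` (then `s u - s v ≥ t-(N-2) ≥ N-1`, `K = 1`).
One-sidedness: `K u v = 1` and `K u w = -1` give `s w - s v ≥ 2(t-N+2)` and `< t`, so `t < 2N-4`. -/
def S_KT : Prop := ∀ (N t : ℕ) (s : Fin N → ℤ) (p : Fin N → Fin N → ℤ), 4 ≤ N → 2 * N ≤ t + 3 →
  Conf N t s p →
  (∀ u v, u ≠ v → (s u + p u v) - (s v + p v u) = t * K N s u v) ∧ OS N s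

/-- PACKAGE KS (25 min). Simple algebra of the certificate: antisymmetry, zero row sums and
`N Lam = ∑ W²`; in particular `Lam ≥ 0`, and `Lam = 0` only if `W = 0`. -/
def S_KS : Prop := ∀ (N : ℕ) (s : Fin N → ℤ), 2 ≤ N →
  (∀ u v, K N s v u = - K N s u v) ∧ (∀ u v, W N s v u = - W N s u v) ∧
  (∀ u, ∑ v, W N s u v = 0) ∧ (0 ≤ Lam N s) ∧ (Lam N s = 0 → ∀ u v, W N s u v = 0)

/-- PACKAGE KE (30 min). `2 ∑_{u ≠ v} W p = t Lam`. Proof: antisymmetrise (`W` is antisymmetric):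
`2 ∑ W u v p u v = ∑_{u,v} W u v (p u v - p v u) = ∑ W u v (t K u v - s u + s v)` and the `s` terms
vanish by the zero row (and column) sums. The diagonal terms vanish as `W u u = 0`. -/
def S_KE : Prop := S_KS → ∀ (N t : ℕ) (s : Fin N → ℤ) (p : Fin N → Fin N → ℤ), 2 ≤ N →
  (∀ u v, u ≠ v → (s u + p u v) - (s v + p v u) = t * K N s u v) →
  2 * (∑ u, ∑ v, W N s u v * p u v) = t * Lam N s

/-- PACKAGE KR (45 min). Rearrangement. For `p` injective from `S` to `[0, card S - 1]` and weights of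
sum zero: `4 ∑ w p ≤ ∑_{v,v'} |w v - w v'|`, with equality only if `p` is sorted. Proof:
`p v = #{v' ∈ S : p v' < p v}`, so `∑ w v p v = ∑ over unordered pairs of w at the element with the
larger p ≤ ∑ over unordered pairs of max (w v) (w v')`, and `max = (w v + w v' + |w v - w v'|)/2`; the
sum of the linear parts is `(card S - 1)/2 * ∑ w = 0`. If `w v < w v'` but `p v > p v'` then the
inequality is strict at that pair. -/
def S_KR : Prop := ∀ (α : Type) [DecidableEq α] (S : Finset α) (w p : α → ℤ),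
  (∀ v ∈ S, 0 ≤ p v) → (∀ v ∈ S, p v < S.card) →
  (∀ v ∈ S, ∀ v' ∈ S, p v = p v' → v = v') → ∑ v ∈ S, w v = 0 →
  4 * ∑ v ∈ S, w v * p v ≤ ∑ v ∈ S, ∑ v' ∈ S, |w v - w v'| ∧
  (4 * ∑ v ∈ S, w v * p v = ∑ v ∈ S, ∑ v' ∈ S, |w v - w v'| →
    ∀ v ∈ S, ∀ v' ∈ S, w v < w v' → p v < p v')

/-- PACKAGE KM (35 min). Monotonicity facts: for `s u ≤ s v`: `K u x ≤ K v x`, `A u ≤ A v`; if `OS`,
`0 ≤ K v x - K u x ≤ 1` for `x ≠ u, v` -- precisely `K x u - K x v ∈ {0,1}` --, and
`A v - A u = ∑_{x ≠ u,v} (K x u - K x v) + 2 K v u ≤ N`; moreover `A u = A v` implies `K v u = 0` and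
`K x u = K x v` for all `x`; and `s u < s v` whenever `A u < A v`. -/
def S_KM : Prop := ∀ (N : ℕ) (s : Fin N → ℤ), 2 ≤ N → OS N s →
  (∀ u v x, s u ≤ s v → K N s x v ≤ K N s x u) ∧
  (∀ u v x, s u ≤ s v → K N s x u - K N s x v ≤ 1 ∨ x = u ∨ x = v) ∧
  (∀ u v, s u ≤ s v → A N s u ≤ A N s v) ∧
  (∀ u v, A N s v - A N s u ≤ N) ∧
  (∀ u v, A N s u = A N s v → K N s v u = 0 ∧ ∀ x, K N s x u = K N s x v) ∧
  (∀ u v, A N s u < A N s v → s u < s v)

/-- PACKAGE KC (75 min). The cost identity: `∑_u ∑_{v,v' ≠ u} |W u v - W u v'| = 2 (2N-3) Lam` for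
one-sided patterns. Proof. Write `H2 = ∑_{u,v} (K u v)²`, `B = ∑ (A u)²`. `Lam = N H2 - 2 B`
(from `∑_{u,v} (A u - A v) K u v = 2 B`). For `s v ≤ s v'` put `D = A v' - A v ≥ 0`,
`κ = K v' v ∈ {0,1}`, and for `u ≠ v,v'` let `δ_u = K u v - K u v' ∈ {0,1}`; by `S_KM`,
`∑_{u ≠ v,v'} δ_u = D - 2κ`, `D ≤ N`, and `|W u v - W u v'| = |N δ_u - D|`, so
`∑_{u ≠ v,v'} |W u v - W u v'| = (D-2κ)(N-D) + (N-2-(D-2κ)) D = 2(N-1) D - 2 D² - 2 N κ + 4 κ D`.
In symmetric form (all ordered pairs): `D = |A v - A v'|`, `κ = (K v v')²`,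
`κ D = K v v' (A v - A v')`. Sum over all ordered pairs `v,v'` (the diagonal gives zero):
`∑∑ D² = 2 N B`, `∑∑ κ = H2`, `∑∑ κ D = 2 B`, and
`∑∑_{v,v'} D = ∑_u ∑_{v,v'} |K u v - K u v'| = 2 ∑_u (N ∑_v (K u v)² - (A u)²) = 2 N H2 - 2 B`
(a row of `K` takes the value 0 and only one of the values 1, -1, by one-sidedness;
`|K u v - K u v'|` summed over all `u` equals `D` because `K u v - K u v'` has constant sign). Total
`2(N-1)(2 N H2 - 2 B) - 4 N B - 2 N H2 + 8 B = (4N-6)(N H2 - 2 B)`. (Checked by computer.) -/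
def S_KC : Prop := S_KM → ∀ (N : ℕ) (s : Fin N → ℤ), 2 ≤ N → OS N s →
  ∑ u, ∑ v ∈ univ.erase u, ∑ v' ∈ univ.erase u, |W N s u v - W N s u v'|
    = 2 * (2 * N - 3) * Lam N s

/-- PACKAGE KL (45 min). The liftable case is impossible for `t ≥ 2N-3`, `N ≥ 4`. Proof: `W = 0` means
`N K u v = A u - A v`. Fix `o`; put `b u = K u o`, then `K u v = b u - b v` (as
`N K u v = N K u o - N K v o`). The lifted colour `C u v = s u + p u v - t b u` is symmetric, and for
each `u` the values `C u v`, `v ≠ u`, are exactly the `N-1` integers of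
`[S u, S u + N - 2]`, `S u = s u - t b u`. Let `m = C u v` be the minimum of `C` and `M = C u' v'` the
maximum. `C u v`, `C v u'` (if `v ≠ u'`; otherwise directly), `C u' v'` show `M - m ≤ 2(N-2)`; all
residues modulo `t` are hit by the integers of `[m, M]`, so `M - m + 1 ≥ t ≥ 2N-3`, so
`M = m + 2N - 4`. Then `S u = S v = m` (the arc of `u` contains the minimum `m`, and nothing below) and
`S u' = S v' = m + N - 2`. All four are distinct, the arcs of `u` and `u'` meet only in `m + N - 2`,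
so `C u u' = C u v' = m + N - 2`, contradicting injectivity at `u`. -/
def S_KL : Prop := ∀ (N t : ℕ) (s : Fin N → ℤ) (p : Fin N → Fin N → ℤ), 4 ≤ N → 2 * N ≤ t + 3 →
  Conf N t s p →
  (∀ u v, u ≠ v → (s u + p u v) - (s v + p v u) = t * K N s u v) →
  (∀ u v, W N s u v = 0) → False

/-- PACKAGE KU (25 min). Upper bound and equality case: glue `S_KT, S_KS, S_KE, S_KR, S_KM, S_KC,
S_KL`. `4 ∑_u ∑_{v≠u} W p ≤ 2(2N-3) Lam` by `S_KR` for each `u` (on `univ.erase u`, card `N-1`) and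
`S_KC`, the left side is `2 t Lam` by `S_KE`, and `Lam > 0` by `S_KS` and `S_KL`. So `t ≤ 2N-3`; if
`t = 2N-3` there is equality for every `u`. -/
def S_KU : Prop := S_KT → S_KS → S_KE → S_KR → S_KM → S_KC → S_KL →
  ∀ (N t : ℕ) (s : Fin N → ℤ) (p : Fin N → Fin N → ℤ), 4 ≤ N → 2 * N ≤ t + 3 → Conf N t s p →
  t + 3 = 2 * N ∧ Sorted N s p ∧ 0 < Lam N s

/-- PACKAGE KN (50 min). Rotation removing the ties. Let `c` be the least `s v` among the vertices
with `A v` maximal, `a = max A`, `μ` = number of these vertices (they are exactly the vertices with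
`s v ≥ c`, by monotonicity of `A` in `s`). Put `s' v = s v - c` if `s v ≥ c` and `s' v = s v - c + t`
otherwise. This is again a configuration, so `S_KT` applies to `s` and `s'`; comparing
`s u + p u v - s v - p v u`: `K' u v = K u v - [s u ≥ c] + [s v ≥ c]` for `u ≠ v`, so
`A' u = A u - N [s u ≥ c] + μ`. Since `A u < a` for `s u < c`, and `A u - A v ≤ N` always (`S_KM`; and
`A' u - A' v` for `s u < c ≤ s v` is `A u - a + N < N`; for `s u, s v < c` it is
`A u - A v < a - A v ≤ N`), there are no ties. -/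
def S_KN : Prop := S_KT → S_KM → ∀ (N t : ℕ) (s : Fin N → ℤ) (p : Fin N → Fin N → ℤ), 4 ≤ N →
  t + 3 = 2 * N → Conf N t s p → ∃ s' : Fin N → ℤ, Conf N t s' p ∧ NoTie N s'

/-- PACKAGE KP (60 min). Ranks. In a sorted configuration without ties let `A u < A v` and
`P = #{x ≠ u : W u x < W u v}`, `R = #{x ≠ v : W v x < W v u}`. Write `l u`, `h u` for the number of
`x` with `K u x = 1`, resp. `-1`, so `A u = l u - h u`. If `K u v = 0` then `P = h u + Low v - 1 - l u`
and `R = h v + Low u - l v`, so `P - R = A v - A u + Low v - Low u - 1`. If `K u v = -1` then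
`P = h u - (N - Low v)` and `R = N - 1 - l v + Low u`, `l u = 0 = h v`, so
`P - R = A v - A u + Low v - Low u - 2N + 1`. Proof: `W u x < W u v` iff
`N K u x + A x < N K u v + A v`. Case `K u v = 0`: true if `K u x = -1` (no ties), iff `A x < A v` if
`K u x = 0`, false if `K u x = 1`. The set `{A x < A v}` contains `u` and all `x` with `K u x = 1`
(there `A x < A u`) and no `x` with `K u x = -1` (there `s x > s v`, `A x ≥ A v`). Similarly for `R`:
`{A x < A u}` contains all `x` with `K v x = 1` (`s x < s u`, so `A x ≤ A u`; equality would give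
`K v x = K v u` by `S_KM`), no `x` with `K v x = -1`. Case `K u v = -1`: for `P` only `x` with
`K u x = -1` and `A x < A v` count, and all `x` with `A x ≥ A v` have `K u x = -1` (`S_KM`); for `R`,
all `x` with `K v x ≤ 0`, `x ≠ v` count, and of those with `K v x = 1` the ones with `A x < A u`, and
every `x` with `A x < A u` has `K v x = 1`. -/
def S_KP : Prop := S_KM → ∀ (N : ℕ) (s : Fin N → ℤ), 4 ≤ N → OS N s → NoTie N s →
  ∀ u v, A N s u < A N s v →
  (((univ.erase u).filter (fun x => W N s u x < W N s u v)).card : ℤ)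
    - (((univ.erase v).filter (fun x => W N s v x < W N s v u)).card : ℤ)
  = A N s v - A N s u + Low N s v - Low N s u
      + (if K N s u v = 0 then -1 else - 2 * (N : ℤ) + 1)

/-- PACKAGE KG (45 min). Minimal starts. In a sorted configuration without ties let `u` and `v` have
minimal `s` in their classes (`A x = A u → s u ≤ s x`, same for `v`) and `A u < A v`. Then
`s u + P = s v + R + t K u v`, with the ranks `P, R` of `S_KP` (they depend only on the classes).
Proof. `≥`: by injectivity of `p u` onto `[0,N-2]` there is `x` with `p u x = P`; sortedness forces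
`W u x = W u v` (if smaller, all `y` with `W u y ≤ W u x` ... count; see below), and no ties give
`A x = A v` and `K u x = K u v`. Then `s u + P = s x + p x u + t K u x ≥ s v + R + t K u v`, as
`p x u ≥ #{y : W x y < W x u} = R` (same class as `v`) and `s x ≥ s v`. `≤` is symmetric. Counting:
in a sorted injective row, `#{y : W u y < W u x} ≤ p u x` and
`p u x ≤ #{y ≠ u : W u y ≤ W u x} - 1`. -/
def S_KG : Prop := S_KM → ∀ (N t : ℕ) (s : Fin N → ℤ) (p : Fin N → Fin N → ℤ), 4 ≤ N →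
  Conf N t s p → (∀ u v, u ≠ v → (s u + p u v) - (s v + p v u) = t * K N s u v) →
  OS N s → NoTie N s → Sorted N s p →
  ∀ u v, A N s u < A N s v → (∀ x, A N s x = A N s u → s u ≤ s x) →
  (∀ x, A N s x = A N s v → s v ≤ s x) →
  s u + (((univ.erase u).filter (fun x => W N s u x < W N s u v)).card : ℤ)
    = s v + (((univ.erase v).filter (fun x => W N s v x < W N s v u)).card : ℤ) + t * K N s u v

/-- PACKAGE K3 (50 min). Three classes. For `t = 2N-3`, put `G u = s u - A u - Low u` for the minimal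
vertices `u` of the classes. By `S_KP` and `S_KG`, for `A u < A v`: `G v - G u = -1` if `K u v = 0` and
`= -2` if `K u v = -1` (as `t = 2N-3`). Four classes `α1 < α2 < α3 < α4` would give
`G4 - G1 ≤ -3`, impossible; one or two classes give `Lam = 0` (one class: `K = 0`; two classes: `K` is
constant between them, `A` is `-m2, m1`, so `W = 0`). So there are exactly three classes, `K = 0`
between consecutive ones and `K = -1` from the first to the third (else `Lam = 0`), and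
`A = -m3, 0, m1` on them, `m_i` the class sizes. -/
def S_K3 : Prop := S_KM → S_KS → S_KP → S_KG → ∀ (N t : ℕ) (s : Fin N → ℤ) (p : Fin N → Fin N → ℤ),
  4 ≤ N → t + 3 = 2 * N → Conf N t s p →
  (∀ u v, u ≠ v → (s u + p u v) - (s v + p v u) = t * K N s u v) →
  OS N s → NoTie N s → Sorted N s p → 0 < Lam N s →
  ∃ C1 C2 C3 : Finset (Fin N), C1.Nonempty ∧ C2.Nonempty ∧ C3.Nonempty ∧
    Disjoint C1 C2 ∧ Disjoint C1 C3 ∧ Disjoint C2 C3 ∧ C1 ∪ C2 ∪ C3 = univ ∧
    (∀ u ∈ C1, ∀ v ∈ C1, K N s u v = 0) ∧ (∀ u ∈ C2, ∀ v, K N s u v = 0) ∧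
    (∀ u ∈ C3, ∀ v ∈ C3, K N s u v = 0) ∧ (∀ u ∈ C1, ∀ v ∈ C3, K N s u v = -1)

/-- PACKAGE KF (75 min). Conclusion: the three classes have equal sizes. With sizes `m1, m2, m3` one
has `A = -m3, 0, m1`, and for `u` in `C1`: `W u v` is `-m2`, `0`, `m3` for `v` in `C3, C1, C2`; for `u`
in `C2`: `-m3, 0, m1` for `v` in `C1, C2, C3`; for `u` in `C3`: `-m1, 0, m2` for `v` in `C2, C3, C1`. By
sortedness the values `p u v` fill consecutive blocks in these orders:
`C1`: `C3` at `[0,m3-1]`, `C1` at `[m3, m3+m1-2]`, `C2` at `[m3+m1-1, N-2]`; `C2`: `C1` at `[0,m1-1]`,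
`C2` at `[m1, m1+m2-2]`, `C3` at `[m1+m2-1, N-2]`; `C3`: `C2` at `[0,m2-1]`, `C3` at
`[m2, m2+m3-2]`, `C1` at `[m2+m3-1, N-2]`. Let `μi` be the least start in `Ci`. Comparing least colours
of the edges between two classes gives `μ2 = μ1 + m3 + m1 - 1`, `μ3 = μ2 + m1 + m2 - 1`,
`μ1 + t = μ3 + m2 + m3 - 1`. Let `Fi(x) = #{u ∈ Ci : s u ≤ μi + x}`. For `0 ≤ x < min(m1,m2)` the edges
between `C1` and `C2` of colour `μ2 + x` give a bijection between `{u ∈ C1 : s u ≤ μ1 + x}` and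
`{v ∈ C2 : s v ≤ μ2 + x}` (such a `u` has exactly one edge of that colour, its position
`μ2 + x - s u` lies in the `C2` block), so `F1(x) = F2(x)`; similarly for the other two pairs. Let
`m = min mi`, attained at `j`, then `Fi(m-1) = Fj(m-1) ≤ m` for all `i`. If `mi > m`: the vertex `u0` of
`Ci` with least start uses in its own block the colours with offsets `0..m-1` (`m-1 ≤ mi - 2`) on `m`
different edges inside `Ci`, whose other ends have start `≤ μi + m - 1`; with `u0` this is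
`Fi(m-1) ≥ m+1`, contradiction. So `m1 = m2 = m3` and `3 ∣ N`. -/
def S_KF : Prop := ∀ (N t : ℕ) (s : Fin N → ℤ) (p : Fin N → Fin N → ℤ),
  4 ≤ N → t + 3 = 2 * N → Conf N t s p →
  (∀ u v, u ≠ v → (s u + p u v) - (s v + p v u) = t * K N s u v) →
  Sorted N s p → ∀ C1 C2 C3 : Finset (Fin N), C1.Nonempty → C2.Nonempty → C3.Nonempty →
    Disjoint C1 C2 → Disjoint C1 C3 → Disjoint C2 C3 → C1 ∪ C2 ∪ C3 = univ →
    (∀ u ∈ C1, ∀ v ∈ C1, K N s u v = 0) → (∀ u ∈ C2, ∀ v, K N s u v = 0) →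
    (∀ u ∈ C3, ∀ v ∈ C3, K N s u v = 0) → (∀ u ∈ C1, ∀ v ∈ C3, K N s u v = -1) → 3 ∣ N

/-! ## Part 5: complete graphs, constructions -/

/-- PACKAGE F1 (30 min). The classical 1-factorization of `K_q`, `q` even: on `Z_{q-1} ∪ {∞}` the
colour of `x,y` is `x + y` and the colour of `∞,x` is `2x` modulo `q-1` (`∞ = q-1`). -/
def S_F1 : Prop := ∀ q : ℕ, 2 ≤ q → Even q → ∃ κ : Fin q → Fin q → ℕ, OneFac q κ

/-- PACKAGE F2 (60 min). A 1-factorization of `K_q`, `q ≥ 4` even, in which the first two colours form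
the cycle `0,1,...,q-1`. Take the colouring of `S_F1` and relabel the vertices by
`z 0 = ∞, z (2i) = i, z (2i+1) = -i` modulo `q-1`: colour of `i,j` is `κ(z i, z j)`. Then
`z (2i) + z (2i+1) = 0`, `z (2i+1) + z (2i+2) = 1`, `2 z 1 = 0`, `2 z (q-1) = 1`, and all other pairs
have other colours (each vertex has one edge of colour 0 and one of colour 1). -/
def S_F2 : Prop := ∀ q : ℕ, 4 ≤ q → Even q → ∃ κ : Fin q → Fin q → ℕ, OneFac q κ ∧
  ∀ i j, i ≠ j → (κ i j ≤ 1 ↔ CycAdj q i j)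

/-- PACKAGE F3 (45 min). In addition, for `q ≥ 6`, a permutation `σ` of the vertices such that the
colours 2 and 3 form the cycle `σ 0, σ 1, ..., σ (q-1)`: with the labels `z` of `S_F2`,
`σ i = z⁻¹ (z i + 1)` (`∞ + 1 = ∞`), because `κ (a+1, b+1) = κ (a,b) + 2`. (Do F2 in the same file or
prove both at once; F3 implies F2 for `q ≥ 6`.) -/
def S_F3 : Prop := ∀ q : ℕ, 6 ≤ q → Even q → ∃ (κ : Fin q → Fin q → ℕ) (σ : Equiv.Perm (Fin q)),
  OneFac q κ ∧ (∀ i j, i ≠ j → (κ i j ≤ 1 ↔ CycAdj q i j)) ∧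
  ∀ i j, i ≠ j → (κ (σ i) (σ j) = 2 ∨ κ (σ i) (σ j) = 3 ↔ CycAdj q i j)

/-- PACKAGE CE (60 min). Construction for `K_{3q}`, `q` even, all `3q ≤ t ≤ 6q-3`. Choose
`g 0, g 1, g 2 ∈ [q, 2q-1]` with sum `t`; `S 0 = 0, S 1 = g 0, S 2 = g 0 + g 1` (`S 3 = t ~ S 0`). Vertices
`(i,x)`, `i < 3`, `x < q`. Colours: between `(i,x)` and `(i+1,y)`: `S (i+1) + ((x+y) mod q)`; inside
part `i`: `S i + q + k + (if k < g i - q then 0 else q)` with `k = κ x y` the 1-factorization. The start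
at `(i,x)` is `S i`, the arc has length `3q-1`. Use `S_CG` on `Fin 3 × Fin q` (or a sum type) and `S_TR`.
All colours are used: the arcs at the three parts are filled and cover the circle (gaps `≤ 2q-1`).
Computer-checked for q = 2, 4, 6, 8. -/
def S_CE : Prop := S_CG → S_TR → S_F1 → ∀ q t : ℕ, 2 ≤ q → Even q → 3 * q ≤ t → t + 3 ≤ 6 * q →
  t ∈ FS (KG (3 * q))

/-- PACKAGE CD (75 min). Construction for `K_{3q-2}`, `q ≥ 4` even, all `3q ≤ t ≤ 6q-9`. Choose
`g 0, g 1, g 2 ∈ [q, 2q-3]` with sum `t`, `S` as in CE. Parts `X0 = X1 = Fin q`, `X2 = {2,...,q-1}`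
(size `q-2`), arcs of length `3q-3`. Colours: `x ∈ X0, y ∈ X1`: `S 1 + ((x+y) mod q)`;
`x ∈ X0, y ∈ X2`: `S 0 + ((x-y) mod q)`; `x ∈ X1, y ∈ X2`: `S 2 + ((x-y) mod q)`; inside `X0`, cyclic
neighbours `x, x+1 (mod q)`: `S 0 + x`; inside `X1` the same: `S 2 + x`; inside `X0` and `X1`, other pairs
(then `κ x y ≥ 2`, `κ` from `S_F2`): `S i + q + k + (if k < g i - q then 0 else q)`, `k = κ x y - 2`;
inside `X2` (1-factorization `κ'` of `K_{q-2}`): `S 2 + q + k + (if k < g 2 - q then 0 else q)`,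
`k = κ'`. Starts `S i`. Computer-checked for q = 4, 6, 8. -/
def S_CD : Prop := S_CG → S_TR → S_F1 → S_F2 → ∀ q t : ℕ, 4 ≤ q → Even q → 3 * q ≤ t →
  t + 9 ≤ 6 * q → t ∈ FS (KG (3 * q - 2))

/-- PACKAGE CH (90 min). Construction for `K_{3q-4}`, `q ≥ 6` even, all `3q-2 ≤ t ≤ 6q-13`. Choose
`g 0 ∈ [q, 2q-5]`, `g 1 ∈ [q, 2q-3]`, `g 2 ∈ [q-2, 2q-5]` with sum `t`, `S 0 = 0, S 1 = g 0,
S 2 = g 0 + g 1`. Parts `X0 = Fin q`, `X1 = X2` of size `q-2`; arcs of length `3q-5`. `κ, σ` from `S_F3`,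
`κ'` a 1-factorization of `K_{q-2}`. Colours: `x ∈ X0, y ∈ X1 = {2..q-1}`: `S 1 + ((x-y) mod q)`; inside
`X0`, cyclic neighbours `x, x+1`: `S 1 + x`; `x ∈ X0, y ∈ X2 = {2..q-1}`: `S 0 + ((σ⁻¹ x - y) mod q)`;
inside `X0`, `x = σ a, x' = σ (a+1)` (that is `κ ∈ {2,3}`): `S 0 + a`; inside `X0`, other pairs
(`κ ≥ 4`): `S 0 + q + k + (if k < g 0 - q then 0 else q)`, `k = κ - 4`; `X1` to `X2` (indices
`0..q-3`): `S 2 + ((x+y) mod (q-2))`; inside `X1`: `S 1 + q + k + (if k < g 1 - q then 0 else q-2)`,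
`k = κ'`; inside `X2`: `S 2 + (q-2) + k + (if k < g 2 - (q-2) then 0 else q)`, `k = κ'`. Starts `S i`.
Computer-checked for q = 6, 8, 10. -/
def S_CH : Prop := S_CG → S_TR → S_F1 → S_F3 → ∀ q t : ℕ, 6 ≤ q → Even q → 3 * q ≤ t + 2 →
  t + 13 ≤ 6 * q → t ∈ FS (KG (3 * q - 4))

/-- PACKAGE CN (40 min). `N` and `N+1` are in `FS (K_N)`, `N ≥ 6` even. Take a 1-factorization `κ`
(colours `0..N-2`). For `t = N`: recolour one edge `uv` of colour 0 with `N-1`: every vertex misses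
exactly one of the `N` colours; starts: `0` for most vertices, `1` for `u, v`. For `t = N+1`: recolour
one edge `uv` of colour `0` with the colour `N-1` (starts `1` at `u,v`) and one edge `u'v'` of colour
`N-2`, disjoint from `uv`, with the colour `N` (starts `-1` at `u',v'`: colours
`-1, 0, ..., N-3`). A disjoint edge exists as only two of the `N/2 ≥ 3` edges of colour `N-2` meet
`uv`. All colours are used (colours `0` and `N-2` keep other edges). -/
def S_CN : Prop := S_CG → S_F1 → ∀ N : ℕ, 6 ≤ N → Even N → N ∈ FS (KG N) ∧ N + 1 ∈ FS (KG N)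

/-- PACKAGE C8 (30 min). `10, 11 ∈ FS (K_8)`, explicit colourings (rows of the colour matrices, `-`
on the diagonal).
t = 10, starts 0,0,6,7,7,9,9,6:
- 0 1 2 3 4 5 6 / 0 - 6 3 1 5 4 2 / 1 6 - 9 7 0 2 8 / 2 3 9 - 8 1 0 7 /
3 1 7 8 - 2 9 0 / 4 5 0 1 2 - 3 9 / 5 4 2 0 9 3 - 1 / 6 2 8 7 0 9 1 -
t = 11, starts 0,8,6,0,8,10,10,6:
- 0 1 2 3 4 5 6 / 0 - 9 3 10 2 1 8 / 1 9 - 6 8 10 0 7 / 2 3 6 - 0 5 4 1 /
3 10 8 0 - 1 2 9 / 4 2 10 5 1 - 3 0 / 5 1 0 4 2 3 - 10 / 6 8 7 1 9 0 10 - -/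
def S_C8 : Prop := S_CG → 10 ∈ FS (KG 8) ∧ 11 ∈ FS (KG 8)

/-! ## Part 6: assembly -/

/-- PACKAGE AB (15 min). Assembly for `K_{m,n}`. -/
def S_AB : Prop := S_CG → S_XB → S_BC → S_BN → S_BI → S_BX → S_BL →
  ∀ m n : ℕ, 1 ≤ m → 1 ≤ n → GapFree (FS (KB m n))

/-- PACKAGE AQ (25 min). Assembly for `Q_n`: let `a < b < c`, `a, c ∈ FS`. `n ≤ a` (`S_XQ`). If
`c > 4(n-1)`: `S_QL` and `S_QC` with `t' = b`. If `c ≤ 4(n-1)`: `b ≤ n(n+1)/2` (then `S_QT, S_QC`)
except for `n = 3, b = 7` and `n = 4, b = 11`. -/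
def S_AQ : Prop := S_CG → S_XQ → S_QE → S_QL → S_QC → S_QT → S_Q37 → S_Q411 →
  ∀ n : ℕ, 1 ≤ n → GapFree (FS (Q n))

/-- PACKAGE AU (25 min). Upper bounds for `K_N`: for even `N ≥ 4`, `t ∈ FS (K_N)` implies
`N-1 ≤ t ≤ 2N-3`, and `t = 2N-3` only if `3 ∣ N`. (`S_KU` for the bound; if `t = 2N-3`: `S_KN`, then
`S_KT`, `S_KU` for the new configuration, `S_K3`, `S_KF`.) -/
def S_AU : Prop := S_XK → S_KT → S_KS → S_KE → S_KR → S_KM → S_KC → S_KL → S_KU → S_KN → S_KP →
  S_KG → S_K3 → S_KF →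
  ∀ N t : ℕ, 4 ≤ N → t ∈ FS (KG N) → N ≤ t + 1 ∧ t + 3 ≤ 2 * N ∧ (t + 3 = 2 * N → 3 ∣ N)

/-- PACKAGE AK (30 min). Assembly for `K_{2n}` from the bounds (conclusion of `S_AU`) and the
constructions. `n = 1`: the only edge has the only colour, `FS (K_2) ⊆ {1}`. `n = 2`: `FS ⊆ {3,4}`.
`3 ∣ n`: `S_CE` with `q = 2n/3`. `2n = 8`: `S_CN, S_C8`. Otherwise `2n = 3q-2` or `3q-4` with `q` even,
`S_CN`, `S_CD`, `S_CH`. -/
def S_AK : Prop := S_CG → S_TR → S_F1 → S_F2 → S_F3 → S_CE → S_CD → S_CH → S_CN → S_C8 →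
  (∀ N t : ℕ, 4 ≤ N → t ∈ FS (KG N) → N ≤ t + 1 ∧ t + 3 ≤ 2 * N ∧ (t + 3 = 2 * N → 3 ∣ N)) →
  ∀ n : ℕ, 1 ≤ n → GapFree (FS (KG (2 * n)))

end Pool.Agent.T2H56.IC
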